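import Pool.Agent.H945R2.E.REGQ
import Pool.Agent.H918R2.Quad.Reg1

/-!
# Quotients of regular rings by prime ideals which are generated by a part of a system of
parameters, up to torsion
-/

set_option autoImplicit false
set_option linter.unusedSectionVars false

namespace Pool.Agent.T9h3.H

open IsLocalRing

/-- The quotient of a regular ring by a prime ideal which is generated by the family `F` up to
torsion, at a point where `F` is a part of a system of parameters. -/
theorem lemQ {W C : Type} [CommRing W] [IsRegularRing W] [CommRing C] [IsDomain C]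
    (pr : W →+* C) (hpr : Function.Surjective pr) {n : ℕ} (F : Fin n → W) (hF : ∀ r, pr (F r) = 0)
    (hker : ∀ x, pr x = 0 → ∃ c, pr c ≠ 0 ∧ c * x ∈ Ideal.span (Set.range F)) (q : Ideal C)
    [hq : q.IsPrime]
    (hn : ∀ c : Fin n → W, ∑ r, c r * F r ∈ (q.comap pr) ^ 2 → ∀ r, c r ∈ q.comap pr) :
    IsRegularLocalRing (Localization.AtPrime q) := by
  classical
  let A := W ⧸ Ideal.span (Set.range F)
  let p1 : W →+* A := Ideal.Quotient.mk (Ideal.span (Set.range F))
  have hp1 : Function.Surjective p1 := Ideal.Quotient.mk_surjective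
  have hle : Ideal.span (Set.range F) ≤ RingHom.ker pr := by
    rw [Ideal.span_le]
    rintro _ ⟨r, rfl⟩
    exact hF r
  let p2 : A →+* C := Ideal.Quotient.lift (Ideal.span (Set.range F)) pr (fun a ha => hle ha)
  have h12 : ∀ w, p2 (p1 w) = pr w := fun w => rfl
  have hp2 : Function.Surjective p2 := by
    intro c
    obtain ⟨w, rfl⟩ := hpr c
    exact ⟨p1 w, rfl⟩
  have hcomap : (q.comap p2).comap p1 = q.comap pr := rfl
  have hreg : IsRegularLocalRing (Localization.AtPrime (q.comap p2)) :=
    Pool.Agent.H945R2.E.REGQ_ok p1 hp1 n F Ideal.mk_ker (q.comap p2) hn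
  have hdom : IsDomain (Localization.AtPrime (q.comap p2)) :=
    Pool.Agent.H918R2.Quad.regular_isDomain _
  let φ : Localization.AtPrime (q.comap p2) →+* Localization.AtPrime q :=
    Localization.localRingHom (q.comap p2) q p2 rfl
  have hφ : Function.Bijective φ := by
    constructor
    · rw [injective_iff_map_eq_zero]
      intro z hz
      obtain ⟨x, s, rfl⟩ := IsLocalization.exists_mk'_eq (q.comap p2).primeCompl z
      rw [Localization.localRingHom_mk', IsLocalization.mk'_eq_zero_iff] at hz
      obtain ⟨m, hm⟩ := hz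
      have hm0 : (m : C) ≠ 0 := fun h => m.2 (by rw [h]; exact q.zero_mem)
      have hx0 : p2 x = 0 := (mul_eq_zero.1 hm).resolve_left hm0
      obtain ⟨w, rfl⟩ := hp1 x
      obtain ⟨c, hc, hcw⟩ := hker w hx0
      have h1 : p1 c * p1 w = 0 := by
        rw [← map_mul]
        exact Ideal.Quotient.eq_zero_iff_mem.2 hcw
      have h2 : algebraMap A (Localization.AtPrime (q.comap p2)) (p1 c) ≠ 0 := by
        intro h3
        rw [IsLocalization.map_eq_zero_iff (q.comap p2).primeCompl] at h3
        obtain ⟨m', hm'⟩ := h3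
        have h4 : p2 m' * p2 (p1 c) = 0 := by rw [← map_mul, hm', map_zero]
        rcases mul_eq_zero.1 h4 with h5 | h5
        · exact m'.2 (by
            change p2 (m' : A) ∈ q
            rw [h5]; exact q.zero_mem)
        · exact hc h5
      have h3 : algebraMap A (Localization.AtPrime (q.comap p2)) (p1 w) = 0 := by
        have h4 : algebraMap A (Localization.AtPrime (q.comap p2)) (p1 c) *
            algebraMap A (Localization.AtPrime (q.comap p2)) (p1 w) = 0 := by
          rw [← map_mul, h1, map_zero]
        exact (mul_eq_zero.1 h4).resolve_left h2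
      rw [IsLocalization.mk'_eq_zero_iff]
      rw [IsLocalization.map_eq_zero_iff (q.comap p2).primeCompl] at h3
      exact h3
    · intro z
      obtain ⟨x, s, rfl⟩ := IsLocalization.exists_mk'_eq q.primeCompl z
      obtain ⟨a, rfl⟩ := hp2 x
      obtain ⟨b, hb⟩ := hp2 s
      have hbq : b ∈ (q.comap p2).primeCompl := by
        intro h
        apply s.2
        rw [← hb]
        exact h
      refine ⟨IsLocalization.mk' _ a (⟨b, hbq⟩ : (q.comap p2).primeCompl), ?_⟩
      rw [Localization.localRingHom_mk']
      congr 1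
      exact Subtype.ext hb
  exact IsRegularLocalRing.of_ringEquiv (RingEquiv.ofBijective φ hφ)

/-- The square of a prime ideal and derivations. -/
theorem der_mat {W : Type} [CommRing W] (P : Ideal W) [hP : P.IsPrime] {n : ℕ} (F : Fin n → W)
    (hF : ∀ r, F r ∈ P) (D : Fin n → W → W)
    (hadd : ∀ i x y, D i (x + y) = D i x + D i y)
    (hmul : ∀ i x y, D i (x * y) = x * D i y + D i x * y)
    (hdet : (Matrix.of fun i r => D i (F r)).det ∉ P) (c : Fin n → W)
    (hc : ∑ r, c r * F r ∈ P ^ 2) (r : Fin n) : c r ∈ P := by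
  classical
  have h0 : ∀ i, D i 0 = 0 := by
    intro i
    have := hadd i 0 0
    rw [add_zero] at this
    exact left_eq_add.1 this
  have h1 : ∀ i, ∀ x ∈ P ^ 2, D i x ∈ P := by
    intro i x hx
    rw [sq] at hx
    refine Submodule.mul_induction_on hx (fun a ha b hb => ?_) (fun a b ha hb => ?_)
    · rw [hmul]
      exact P.add_mem (P.mul_mem_right _ ha) (P.mul_mem_left _ hb)
    · rw [hadd]
      exact P.add_mem ha hb
  have hsum : ∀ i (S : Finset (Fin n)) (f : Fin n → W),
      D i (∑ j ∈ S, f j) = ∑ j ∈ S, D i (f j) := by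
    intro i S f
    induction S using Finset.induction_on with
    | empty => rw [Finset.sum_empty, Finset.sum_empty, h0]
    | insert j S hj ih => rw [Finset.sum_insert hj, Finset.sum_insert hj, hadd, ih]
  have h2 : ∀ i, ∑ j, D i (F j) * c j ∈ P := by
    intro i
    have h3 := h1 i _ hc
    rw [hsum] at h3
    have h4 : ∑ j, D i (c j * F j) = ∑ j, D i (F j) * c j + ∑ j, D i (c j) * F j := by
      rw [← Finset.sum_add_distrib]
      exact Finset.sum_congr rfl fun j _ => by rw [hmul]; ring
    rw [h4] at h3
    exact (P.add_mem_iff_left (Ideal.sum_mem _ fun j _ => P.mul_mem_left _ (hF j))).1 h3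
  let M : Matrix (Fin n) (Fin n) (W ⧸ P) :=
    (Matrix.of fun i r => D i (F r)).map (Ideal.Quotient.mk P)
  have hM : M.det ≠ 0 := by
    intro h
    apply hdet
    rw [← Ideal.Quotient.eq_zero_iff_mem, RingHom.map_det]
    exact h
  have h3 : M.mulVec (fun j => Ideal.Quotient.mk P (c j)) = 0 := by
    funext i
    have h4 := Ideal.Quotient.eq_zero_iff_mem.2 (h2 i)
    rw [map_sum] at h4
    change ∑ j, M i j * Ideal.Quotient.mk P (c j) = 0
    rw [← h4]
    exact Finset.sum_congr rfl fun j _ => by rw [map_mul]; rfl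
  have h5 := Matrix.eq_zero_of_mulVec_eq_zero hM h3
  exact Ideal.Quotient.eq_zero_iff_mem.1 (congrFun h5 r)

end Pool.Agent.T9h3.H
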