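import Pool.Agent.T9h3.Ndc
import Pool.Agent.T9h3.H.Qa

/-!
# The group algebra, its derivations and its Laurent polynomials
-/

set_option autoImplicit false
set_option linter.unusedSectionVars false

namespace Pool.Agent.T9h3.H

open Pool.Agent.Y223.G Pool.Agent.T9h3

/-- The group algebra. -/
abbrev AA (O Λ : Type) [CommRing O] [AddCommGroup Λ] : Type := AddMonoidAlgebra O Λ

/-- The characters. -/
noncomputable def cx (O : Type) {Λ : Type} [CommRing O] [AddCommGroup Λ] (x : Λ) : AA O Λ :=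
  AddMonoidAlgebra.single x 1

section alg

variable {O Λ : Type} [CommRing O] [AddCommGroup Λ]

lemma cx_zero : cx O (0 : Λ) = 1 := rfl

lemma cx_add (x y : Λ) : cx O (x + y) = cx O x * cx O y := by
  unfold cx; rw [AddMonoidAlgebra.single_mul_single, one_mul]

lemma cx_neg_mul (x : Λ) : cx O (-x) * cx O x = 1 := by
  rw [← cx_add, neg_add_cancel, cx_zero]

lemma AA_ind {motive : AA O Λ → Prop} (f : AA O Λ) (h0 : motive 0)
    (hadd : ∀ f g, motive f → motive g → motive (f + g))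
    (hs : ∀ (o : O) x, motive (algebraMap O _ o * cx O x)) : motive f := by
  induction f using AddMonoidAlgebra.induction_linear with
  | zero => exact h0
  | add f g hf hg => exact hadd f g hf hg
  | single x o =>
    have h1 : (AddMonoidAlgebra.single x o : AA O Λ) = algebraMap O _ o * cx O x := by
      unfold cx
      have h2 : algebraMap O (AA O Λ) o = AddMonoidAlgebra.single 0 o := rfl
      rw [h2, AddMonoidAlgebra.single_mul_single, zero_add, mul_one]
    rw [h1]
    exact hs o x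

/-- The semilinear automorphism. -/
noncomputable def sg (t : O →+* O) (s : Module.End ℤ Λ) : AA O Λ →+* AA O Λ :=
  (AddMonoidAlgebra.mapDomainRingHom O s.toAddMonoidHom).comp (AddMonoidAlgebra.mapRingHom Λ t)

lemma sg_cx (t : O →+* O) (s : Module.End ℤ Λ) (x : Λ) : sg t s (cx O x) = cx O (s x) := by
  unfold sg cx
  rw [RingHom.comp_apply, AddMonoidAlgebra.mapRingHom_single, map_one,
    AddMonoidAlgebra.mapDomainRingHom_apply, AddMonoidAlgebra.mapDomain_single]
  rfl

lemma sg_C (t : O →+* O) (s : Module.End ℤ Λ) (o : O) :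
    sg t s (algebraMap O _ o) = algebraMap O (AA O Λ) (t o) := by
  have h2 : ∀ o, algebraMap O (AA O Λ) o = AddMonoidAlgebra.single 0 o := fun o => rfl
  unfold sg
  rw [RingHom.comp_apply, h2, AddMonoidAlgebra.mapRingHom_single,
    AddMonoidAlgebra.mapDomainRingHom_apply, AddMonoidAlgebra.mapDomain_single, h2]
  congr 1
  exact map_zero s

lemma sg_inj {t : O →+* O} (ht : Function.Injective t) {s : Module.End ℤ Λ}
    (hs : Function.Injective s) : Function.Injective (sg t s) := by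
  unfold sg
  rw [RingHom.coe_comp]
  refine Function.Injective.comp ?_ ?_
  · intro f g hfg
    exact AddMonoidAlgebra.mapDomain_injective hs hfg
  · intro f g hfg
    apply AddMonoidAlgebra.coeff_injective
    ext x
    apply ht
    rw [← AddMonoidAlgebra.coeff_mapRingHom, ← AddMonoidAlgebra.coeff_mapRingHom, hfg]

/-- The homomorphism to the dual numbers. -/
noncomputable def dh (w : Λ →ₗ[ℤ] ℤ) : AA O Λ →ₐ[O] DualNumber (AA O Λ) :=
  AddMonoidAlgebra.lift O (DualNumber (AA O Λ)) Λ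
    { toFun := fun x => TrivSqZeroExt.inl (cx O x.toAdd) +
        TrivSqZeroExt.inr (((w x.toAdd : ℤ) : AA O Λ) * cx O x.toAdd)
      map_one' := by
        rw [toAdd_one, map_zero, Int.cast_zero, zero_mul, TrivSqZeroExt.inr_zero, add_zero, cx_zero,
          TrivSqZeroExt.inl_one]
      map_mul' := fun x y => by
        apply TrivSqZeroExt.ext
        · simp [cx_add]
        · simp [cx_add]
          ring }

/-- The derivation. -/
noncomputable def Dw (w : Λ →ₗ[ℤ] ℤ) (f : AA O Λ) : AA O Λ := (dh w f).snd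

lemma dh_cx (w : Λ →ₗ[ℤ] ℤ) (x : Λ) : dh w (cx O x) = TrivSqZeroExt.inl (cx O x) +
    TrivSqZeroExt.inr (((w x : ℤ) : AA O Λ) * cx O x) := by
  unfold dh cx
  rw [AddMonoidAlgebra.lift_single, one_smul]
  rfl

lemma dh_fst (w : Λ →ₗ[ℤ] ℤ) (f : AA O Λ) : (dh w f).fst = f := by
  induction f using AA_ind with
  | h0 => rw [map_zero, TrivSqZeroExt.fst_zero]
  | hadd f g hf hg => rw [map_add, TrivSqZeroExt.fst_add, hf, hg]
  | hs o x =>
    rw [map_mul, AlgHom.commutes, dh_cx, TrivSqZeroExt.fst_mul]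
    simp
    rfl

lemma Dw_add (w : Λ →ₗ[ℤ] ℤ) (f g : AA O Λ) : Dw w (f + g) = Dw w f + Dw w g := by
  unfold Dw
  rw [map_add, TrivSqZeroExt.snd_add]

lemma Dw_mul (w : Λ →ₗ[ℤ] ℤ) (f g : AA O Λ) : Dw w (f * g) = f * Dw w g + Dw w f * g := by
  unfold Dw
  rw [map_mul, TrivSqZeroExt.snd_mul, dh_fst, dh_fst]
  simp

lemma Dw_C (w : Λ →ₗ[ℤ] ℤ) (o : O) : Dw w (algebraMap O (AA O Λ) o) = 0 := by
  unfold Dw
  rw [AlgHom.commutes]
  rfl

lemma Dw_cx (w : Λ →ₗ[ℤ] ℤ) (x : Λ) : Dw w (cx O x) = ((w x : ℤ) : AA O Λ) * cx O x := by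
  unfold Dw
  rw [dh_cx, TrivSqZeroExt.snd_add, TrivSqZeroExt.snd_inl, TrivSqZeroExt.snd_inr, zero_add]

lemma Dw_sum (w : Λ →ₗ[ℤ] ℤ) {J : Type} (S : Finset J) (f : J → AA O Λ) :
    Dw w (∑ j ∈ S, f j) = ∑ j ∈ S, Dw w (f j) := by
  unfold Dw
  rw [map_sum]
  exact map_sum (TrivSqZeroExt.sndHom (AA O Λ) (AA O Λ)) _ _

lemma Dw_smulC (w : Λ →ₗ[ℤ] ℤ) (o : O) (f : AA O Λ) :
    Dw w (algebraMap O _ o * f) = algebraMap O _ o * Dw w f := by
  rw [Dw_mul, Dw_C, zero_mul, add_zero]

lemma Dw_intCast (w : Λ →ₗ[ℤ] ℤ) (c : ℤ) (f : AA O Λ) :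
    Dw w ((c : AA O Λ) * f) = (c : AA O Λ) * Dw w f := by
  have h1 : (c : AA O Λ) = algebraMap O _ (c : O) := by rw [map_intCast]
  rw [h1, Dw_smulC]

/-- The derivation and the automorphism. -/
lemma Dw_sg {w : Λ →ₗ[ℤ] ℤ} (t : O →+* O) {s : Module.End ℤ Λ} (hw : ∀ x, w (s x) = w x)
    (f : AA O Λ) : Dw w (sg t s f) = sg t s (Dw w f) := by
  induction f using AA_ind with
  | h0 =>
    have h1 : Dw w (0 : AA O Λ) = 0 := by unfold Dw; rw [map_zero, TrivSqZeroExt.snd_zero]
    rw [map_zero, h1, map_zero]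
  | hadd f g hf hg => rw [map_add, Dw_add, Dw_add, hf, hg, map_add]
  | hs o x =>
    rw [map_mul, sg_C, sg_cx, Dw_smulC, Dw_cx, Dw_smulC, Dw_cx, hw, map_mul, sg_C, map_mul,
      map_intCast, sg_cx]

end alg

section lau

variable {A : Type} [CommRing A]

/-- The homogeneous elements. -/
noncomputable def hl {A : Type} [CommRing A] (d : ℤ) (a : A) : AddMonoidAlgebra A ℤ :=
  AddMonoidAlgebra.single d a

lemma hl_mul (d e : ℤ) (a b : A) : hl d a * hl e b = hl (d + e) (a * b) :=
  AddMonoidAlgebra.single_mul_single _ _ _ _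

lemma hl_add (d : ℤ) (a b : A) : hl d (a + b) = hl d a + hl d b := by
  unfold hl; exact AddMonoidAlgebra.single_add _ _ _

lemma hl_zero (d : ℤ) : hl d (0 : A) = 0 := by
  unfold hl; exact AddMonoidAlgebra.single_zero _

lemma hl_one : hl 0 (1 : A) = 1 := rfl

/-- The derivation on the Laurent polynomials. -/
noncomputable def DL (D : A →+ A) (f : AddMonoidAlgebra A ℤ) : AddMonoidAlgebra A ℤ :=
  AddMonoidAlgebra.map D f

lemma DL_add (D : A →+ A) (f g : AddMonoidAlgebra A ℤ) : DL D (f + g) = DL D f + DL D g := by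
  unfold DL
  exact AddMonoidAlgebra.map_add _ _ _

lemma DL_zero (D : A →+ A) : DL D (0 : AddMonoidAlgebra A ℤ) = 0 := by
  unfold DL
  exact AddMonoidAlgebra.map_zero _

lemma DL_hl (D : A →+ A) (d : ℤ) (a : A) : DL D (hl d a) = hl d (D a) := by
  unfold DL hl
  exact AddMonoidAlgebra.map_single _ _ _

lemma DL_mul (D : A →+ A) (hD : ∀ a b, D (a * b) = a * D b + D a * b)
    (f g : AddMonoidAlgebra A ℤ) : DL D (f * g) = f * DL D g + DL D f * g := by
  induction f using AddMonoidAlgebra.induction_linear with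
  | zero => rw [zero_mul, DL_zero, zero_mul, zero_mul, zero_add]
  | add f f' hf hf' => rw [add_mul, DL_add, hf, hf', DL_add]; ring
  | single d a =>
    induction g using AddMonoidAlgebra.induction_linear with
    | zero => rw [mul_zero, DL_zero, mul_zero, mul_zero, zero_add]
    | add g g' hg hg' => rw [mul_add, DL_add, hg, hg', DL_add]; ring
    | single e b =>
      have h1 : ∀ (d : ℤ) (a : A), (AddMonoidAlgebra.single d a : AddMonoidAlgebra A ℤ) = hl d a :=
        fun _ _ => rfl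
      rw [h1, h1, hl_mul, DL_hl, DL_hl, DL_hl, hl_mul, hl_mul, hD, hl_add]

end lau

end Pool.Agent.T9h3.H
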