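import Pool.Agent.T9h3.H.Vtx

/-!
# All the charts, for abstract vertices
-/

set_option autoImplicit false
set_option linter.unusedSectionVars false

namespace Pool.Agent.T9h3.H

open MvPolynomial IsLocalRing Algebra Pool.Agent.Y223.G Pool.Agent.T9h3
open Pool.Agent.Y86.G5 (im mem_im im_sub im_mul im_prime im_one im_pow up mem_up up_prime)

/-- The characters with an automorphism of prime order which is wildly ramified at `𝔓`. -/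
structure TD0 (O K Λ : Type) [CommRing O] [Field K] [Algebra O K] [AddCommGroup Λ]
    (p : ℕ) (σ : K →+* K) (t : O →+* O) (s : Module.End ℤ Λ) (χ : Λ → K) (𝔓 : Ideal O) (l : ℕ) :
    Prop where
  pp : p.Prime
  χ0 : χ 0 = 1
  χa : ∀ x y, χ (x + y) = χ x * χ y
  σχ : ∀ x, σ (χ x) = χ (s x)
  σO : ∀ o, σ (algebraMap O K o) = algebraMap O K (t o)
  sp : s ^ p = 1
  mx : 𝔓.IsMaximal
  ne : 𝔓 ≠ ⊥
  l1 : 1 ≤ l
  dv : ∀ o, t o - o ∈ 𝔓 ^ (l + 1)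
  un : ∃ π ∈ 𝔓, t π - π ∉ 𝔓 ^ (l + 2)
  pl : (p : O) ∈ 𝔓 ^ ((p - 1) * l)

/-- The points of the polytope are averages of vertices with the property `P`. -/
def CVP {Λ : Type} [AddCommGroup Λ] (P : Λ → Prop) (Δ : Set Λ) : Prop :=
  ∀ m ∈ Δ, ∃ T : Multiset Λ, T ≠ 0 ∧ (∀ v ∈ T, P v) ∧ T.card • m = T.sum

section gg

variable {O K Λ : Type} [CommRing O] [Field K]
  [Algebra O K] [AddCommGroup Λ] {χ : Λ → K}
  {p : ℕ} {σ : K →+* K} {t : O →+* O}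
  {s : Module.End ℤ Λ} {𝔓 : Ideal O} {l : ℕ} {Δ : Set Λ} {v : Λ} {w : K}

/-- **The vertices cover.** -/
lemma GG_coverH (h0 : χ 0 = 1) (ha : ∀ x y, χ (x + y) = χ x * χ y) (hV : CVP (VF χ σ p t s 𝔓 l Δ) Δ) (hw : w ≠ 0)
    (hwW : w ∈ WW χ σ p s Δ 0) (𝔔 : Ideal (GG χ σ p s 𝔓 l Δ w)) (h𝔔 : 𝔔.IsPrime) :
    ∃ v, VF χ σ p t s 𝔓 l Δ v ∧ hm 0 (χ v / w) ∉ im (GG χ σ p s 𝔓 l Δ w) 𝔔 := by
  classical
  have hvm : ∀ v, VF χ σ p t s 𝔓 l Δ v → v ∈ Δ := by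
    intro v hv
    exact hv.vm
  obtain ⟨m, hmΔ, h1⟩ : ∃ m ∈ Δ, hm 0 (χ m / w) ∉ im (GG χ σ p s 𝔓 l Δ w) 𝔔 := by
    by_contra hcon
    push Not at hcon
    have key : ∀ u ∈ Submodule.span ℤ (χ '' Δ),
        hm 0 (u / w) ∈ im (GG χ σ p s 𝔓 l Δ w) 𝔔 := by
      intro u hu
      induction hu using Submodule.span_induction with
      | mem x hx =>
        obtain ⟨m, hmΔ, rfl⟩ := hx
        exact hcon m hmΔ
      | zero => rw [zero_div, hm_zero]; exact (im _ 𝔔).zero_mem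
      | add x y _ _ hx hy => rw [add_div, hm_add]; exact (im _ 𝔔).add_mem hx hy
      | smul c x _ hx =>
        have h1 : (hm 0 (c • x / w) : LP K) = hm 0 (c : K) * hm 0 (x / w) := by
          rw [zsmul_eq_mul, mul_div_assoc, hm_mul, zero_add]
        rw [h1]
        refine im_mul ?_ hx
        have h2 := GG_O (χ := χ) (σ := σ) (p := p) (s := s) (𝔓 := 𝔓) (l := l) (Δ := Δ) (w := w)
          (c : O)
        rwa [map_intCast] at h2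
    have h1 := key w hwW
    rw [div_self hw, hm_one] at h1
    exact im_one h𝔔 h1
  obtain ⟨T, hT0, hT, h2⟩ := hV m hmΔ
  obtain ⟨v, hv⟩ := Multiset.exists_mem_of_ne_zero hT0
  obtain ⟨T', rfl⟩ := Multiset.exists_cons_of_mem hv
  refine ⟨v, hT v hv, fun h3 => ?_⟩
  refine im_pow h𝔔 (GG_W0 (chi_WW hmΔ)) h1 (Multiset.card (v ::ₘ T')) ?_
  have hsum : ∀ T : Multiset Λ, (hm 0 (χ T.sum / w ^ T.card) : LP K) =
      (T.map fun v => (hm 0 (χ v / w) : LP K)).prod := by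
    intro T
    induction T using Multiset.induction_on with
    | empty => simp [h0, hm_one]
    | cons v T ih =>
      rw [Multiset.sum_cons, Multiset.map_cons, Multiset.prod_cons, ← ih, hm_mul, ha,
        Multiset.card_cons, zero_add]
      congr 1
      rw [pow_succ]
      field_simp
  have h4 : (hm 0 (χ m / w) ^ (Multiset.card (v ::ₘ T')) : LP K) =
      (T'.map fun v => (hm 0 (χ v / w) : LP K)).prod * hm 0 (χ v / w) := by
    rw [mul_comm, ← Multiset.prod_cons, ← Multiset.map_cons (fun v => (hm 0 (χ v / w) : LP K)),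
      ← hsum, hm_pow, mul_zero, div_pow, ← chi_nsmul h0 ha, h2]
  rw [h4]
  refine im_mul (Subalgebra.multiset_prod_mem _ fun x hx => ?_) h3
  rw [Multiset.mem_map] at hx
  obtain ⟨v', hv', rfl⟩ := hx
  exact GG_W0 (chi_WW (hvm _ (hT _ (Multiset.mem_cons_of_mem hv'))))

/-- Gluing. -/
lemma GG_glueH (h0 : χ 0 = 1) (ha : ∀ x y, χ (x + y) = χ x * χ y) (hV : CVP (VF χ σ p t s 𝔓 l Δ) Δ) (hw : w ≠ 0)
    (hwW : w ∈ WW χ σ p s Δ 0) {n : ℤ} {f : K}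
    (hf : ∀ v, VF χ σ p t s 𝔓 l Δ v → hm n (f / χ v) ∈ GG χ σ p s 𝔓 l Δ (χ v)) :
    hm n (f / w) ∈ GG χ σ p s 𝔓 l Δ w := by
  let I : Ideal (GG χ σ p s 𝔓 l Δ w) :=
    { carrier := {r | (r : LP K) * hm n (f / w) ∈ GG χ σ p s 𝔓 l Δ w}
      add_mem' := by
        intro a b ha hb
        change ((a + b : GG χ σ p s 𝔓 l Δ w) : LP K) * hm n (f / w) ∈ GG χ σ p s 𝔓 l Δ w
        rw [AddMemClass.coe_add, add_mul]
        exact Subalgebra.add_mem _ ha hb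
      zero_mem' := by
        change ((0 : GG χ σ p s 𝔓 l Δ w) : LP K) * hm n (f / w) ∈ GG χ σ p s 𝔓 l Δ w
        rw [ZeroMemClass.coe_zero, zero_mul]
        exact Subalgebra.zero_mem _
      smul_mem' := by
        intro c a ha
        change ((c • a : GG χ σ p s 𝔓 l Δ w) : LP K) * hm n (f / w) ∈ GG χ σ p s 𝔓 l Δ w
        rw [smul_eq_mul, MulMemClass.coe_mul, mul_assoc]
        exact Subalgebra.mul_mem _ c.2 ha }
  by_contra hcon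
  have hI : I ≠ ⊤ := by
    intro h
    apply hcon
    have h1 : (1 : GG χ σ p s 𝔓 l Δ w) ∈ I := by rw [h]; trivial
    have h2 : ((1 : GG χ σ p s 𝔓 l Δ w) : LP K) * hm n (f / w) ∈ GG χ σ p s 𝔓 l Δ w := h1
    rwa [OneMemClass.coe_one, one_mul] at h2
  obtain ⟨Q, hQ, hIQ⟩ := Ideal.exists_le_maximal I hI
  obtain ⟨v, hv, h1⟩ := GG_coverH h0 ha hV hw hwW Q hQ.isPrime
  have hvΔ : v ∈ Δ := hv.vm
  have hv0 := chi_ne h0 ha v
  have ht : hm 0 (χ v / w) ∈ GG χ σ p s 𝔓 l Δ w := GG_W0 (chi_WW hvΔ)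
  obtain ⟨N, hN⟩ := GG_le_loc hv0 hw ht (hf v hv)
  refine im_pow hQ.isPrime ht h1 (N + 1) ⟨Subalgebra.pow_mem _ ht _, hIQ ?_⟩
  change hm 0 (χ v / w) ^ (N + 1) * hm n (f / w) ∈ GG χ σ p s 𝔓 l Δ w
  have h2 : (hm 0 (χ v / w) ^ (N + 1) * hm n (f / w) : LP K) =
      hm 0 (χ v / w) * (hm 0 (χ v / w) ^ N * (hm 0 (χ v / w) * hm n (f / χ v))) := by
    have h3 : (hm 0 (χ v / w) * hm n (f / χ v) : LP K) = hm n (f / w) := by
      rw [hm_mul, zero_add]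
      congr 1
      field_simp
    rw [h3, pow_succ]
    ring
  rw [h2]
  have h4 : (hm 0 (χ v / w) ^ N * (hm 0 (χ v / w) * hm n (f / χ v)) : LP K) =
      hm 0 (χ v / w) * (hm 0 (χ v / w) ^ N * hm n (f / χ v)) := by ring
  rw [h4]
  exact Subalgebra.mul_mem _ ht (Subalgebra.mul_mem _ ht hN)

end gg

section charts

variable {O K Λ : Type} [CommRing O] [IsDomain O] [IsDedekindDomain O] [Field K]
  [Algebra O K] [AddCommGroup Λ] {χ : Λ → K}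
  {p : ℕ} {σ : K →+* K} {t : O →+* O}
  {s : Module.End ℤ Λ} {𝔓 : Ideal O} {l : ℕ} {Δ : Set Λ} {w : K}

/-- **Regularity of the charts.** -/
theorem GG_regH (h : TD0 O K Λ p σ t s χ 𝔓 l) (hΔ : ∀ m ∈ Δ, s m ∈ Δ) (hfin : Δ.Finite)
    (hV : CVP (VF χ σ p t s 𝔓 l Δ) Δ) (hw : w ≠ 0) (hwW : w ∈ WW χ σ p s Δ 0) :
    IsRegularRing (GG χ σ p s 𝔓 l Δ w) := by
  have hN : IsNoetherianRing (GG χ σ p s 𝔓 l Δ w) := GG_noeth hfin
  rw [isRegularRing_iff]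
  intro Q hQ
  obtain ⟨v, hv, h1⟩ := GG_coverH h.χ0 h.χa hV hw hwW Q hQ
  have hv0 := chi_ne h.χ0 h.χa v
  have ht : hm 0 (χ v / w) ∈ GG χ σ p s 𝔓 l Δ w := GG_W0 (chi_WW hv.vm)
  have hreg : IsRegularRing (GG χ σ p s 𝔓 l Δ (χ v)) := hv.reg
  have hv' : hm 0 (w / χ v) ∈ GG χ σ p s 𝔓 l Δ (χ v) := GG_W0 hwW
  have hv'' : hm 0 (1 * (w / χ v)) ∈ GG χ σ p s 𝔓 l Δ (χ v) := by rwa [one_mul]
  have h1' : hm 0 ((1 : K)⁻¹) ∈ GG χ σ p s 𝔓 l Δ w := by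
    rw [inv_one, hm_one]; exact Subalgebra.one_mem _
  refine Pool.Agent.Y290.G.regular_atPrime ht (isUnit_hm (div_ne_zero hv0 hw)) ?_ Q
    (fun h => h1 ⟨_, h⟩)
  rw [Pool.Agent.R383.TM.loc_eq' ht hv' hv'' h1' one_ne_zero (by field_simp)
    (GG_le_loc hv0 hw ht) (by
      have h2 := GG_le_loc hw hv0 hv'
      intro x hx
      obtain ⟨n, hn⟩ := h2 hx
      exact ⟨n, by rw [one_mul]; exact hn⟩)]
  exact regular_loc hreg hv'' (isUnit_hm (by rw [one_mul]; exact div_ne_zero hw hv0))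

/-- **The operator `σ - 1` raises the weights.** -/
theorem GG_dH (h : TD0 O K Λ p σ t s χ 𝔓 l) (hΔ : ∀ m ∈ Δ, s m ∈ Δ)
    (hV : CVP (VF χ σ p t s 𝔓 l Δ) Δ) (hw : w ≠ 0) (hwW : w ∈ WW χ σ p s Δ 0) {k : ℕ} (hk : k ≤ p - 1) {u : K}
    (hu : u ∈ WW χ σ p s Δ k) : hm ((k + 1) * l : ℕ) ((σ u - u) / w) ∈ GG χ σ p s 𝔓 l Δ w := by
  refine GG_glueH h.χ0 h.χa hV hw hwW fun v hv => ?_
  exact hv.d _ hk _ hu

/-- **The leading form has no zeros.** -/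
theorem GG_ndH (h : TD0 O K Λ p σ t s χ 𝔓 l) (hΔ : ∀ m ∈ Δ, s m ∈ Δ)
    (hV : CVP (VF χ σ p t s 𝔓 l Δ) Δ) (hw : w ≠ 0) (hwW : w ∈ WW χ σ p s Δ 0) (𝔔 : Ideal (GG χ σ p s 𝔓 l Δ w))
    (h𝔔 : 𝔔.IsPrime)
    (n1 : ∀ a ∈ 𝔓, hm 0 (algebraMap O K a) ∈ im (GG χ σ p s 𝔓 l Δ w) 𝔔)
    (n2 : ∀ a ∈ 𝔓, hm (1 + l : ℕ) (algebraMap O K (t a - a)) ∈ im (GG χ σ p s 𝔓 l Δ w) 𝔔)
    (n3 : ∀ k, k ≤ p - 1 → ∀ u ∈ WW χ σ p s Δ k, ∀ u' ∈ WW χ σ p s Δ 0,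
      hm ((k + 1) * l : ℕ) ((u * σ u' - u' * σ u) / w ^ 2) ∈ im (GG χ σ p s 𝔓 l Δ w) 𝔔)
    {n : ℤ} (hn : 0 < n) {x : K} (hx : hm n x ∈ GG χ σ p s 𝔓 l Δ w) :
    hm n x ∈ im (GG χ σ p s 𝔓 l Δ w) 𝔔 := by
  obtain ⟨v, hv, h1⟩ := GG_coverH h.χ0 h.χa hV hw hwW 𝔔 h𝔔
  have hv0 := chi_ne h.χ0 h.χa v
  have ht : hm 0 (χ v / w) ∈ GG χ σ p s 𝔓 l Δ w := GG_W0 (chi_WW hv.vm)
  have hv' : hm 0 (w / χ v) ∈ GG χ σ p s 𝔓 l Δ (χ v) := GG_W0 hwW
  have hle := GG_le_loc hv0 hw ht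
  have hle' := GG_le_loc hw hv0 hv'
  obtain ⟨J, hJ⟩ : ∃ J : Ideal (GR χ σ p s 𝔓 l Δ v), J = up (GG χ σ p s 𝔓 l Δ w)
      (GG χ σ p s 𝔓 l Δ (χ v)) 𝔔 (hm 0 (χ v / w)) ht (fun f hf => hle hf) := ⟨_, rfl⟩
  have memJ : ∀ f : LP K, f ∈ im (GR χ σ p s 𝔓 l Δ v) J ↔ f ∈ GR χ σ p s 𝔓 l Δ v ∧
      ∃ n : ℕ, hm 0 (χ v / w) ^ n * f ∈ im (GG χ σ p s 𝔓 l Δ w) 𝔔 := by
    intro f
    rw [hJ]
    exact mem_up
  have N : NQ0 t J := by
    refine ⟨?_, fun a ha => ?_, fun a ha => ?_, fun k hk u hu => ?_⟩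
    · rw [hJ]
      exact up_prime h𝔔 ht _ h1
    · exact (memJ _).2 ⟨GR_O a, 0, by rw [pow_zero, one_mul]; exact n1 a ha⟩
    · refine (memJ _).2 ⟨?_, 0, by rw [pow_zero, one_mul]; exact n2 a ha⟩
      have h2 : ∀ n : ℕ, ∀ e ∈ 𝔓 ^ n, hm n (algebraMap O K e) ∈ GR χ σ p s 𝔓 l Δ v := by
        intro n
        induction n with
        | zero => intro e _; exact GR_O e
        | succ n ih =>
          intro e he
          rw [pow_succ] at he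
          refine Submodule.mul_induction_on he (fun x hx y hy => ?_) (fun x y hx hy => ?_)
          · have h3 := Subalgebra.mul_mem _ (ih x hx) (GR_P (χ := χ) (σ := σ) (p := p) (s := s)
              (l := l) (Δ := Δ) (v := v) hy)
            rw [hm_mul, ← map_mul] at h3
            exact_mod_cast h3
          · rw [map_add, hm_add]
            exact Subalgebra.add_mem _ hx hy
      rw [add_comm 1 l]
      exact h2 (l + 1) _ (h.dv a)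
    · have e1 : (hm 0 (χ v / w) ^ 2 * hm ((k + 1) * l : ℕ)
          ((u * σ (χ v) - χ v * σ u) / χ v ^ 2) : LP K) =
          hm ((k + 1) * l : ℕ) ((u * σ (χ v) - χ v * σ u) / w ^ 2) := by
        rw [hm_pow, hm_mul, mul_zero, zero_add]
        congr 1
        field_simp
      refine (memJ _).2 ⟨?_, 2, by rw [e1]; exact n3 k hk u hu _ (chi_WW hv.vm)⟩
      have h2 := hv.d _ hk _ hu
      have h3 := GR_W (χ := χ) (σ := σ) (p := p) (s := s) (𝔓 := 𝔓) (l := l) (Δ := Δ) (v := v)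
        hk hu
      have h4 := hv.d 0 (Nat.zero_le _) _ (chi_WW hv.vm)
      have h5 := Subalgebra.sub_mem _ (Subalgebra.mul_mem _ h3 h4) h2
      rw [hm_mul] at h5
      have e2 : (((k * l : ℕ) : ℤ) + (((0 + 1) * l : ℕ) : ℤ)) = ((k + 1) * l : ℕ) := by
        push_cast; ring
      rw [e2, ← hm_sub] at h5
      have e3 : u / χ v * (dK σ (χ v) / χ v) - dK σ u / χ v =
          (u * σ (χ v) - χ v * σ u) / χ v ^ 2 := by
        rw [dK_apply, dK_apply]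
        field_simp
        ring
      rwa [e3] at h5
  obtain ⟨M, hM⟩ := hle' hx
  have h2 : (hm 0 (w / χ v) ^ M * hm n x : LP K) = hm n ((w / χ v) ^ M * x) := by
    rw [hm_pow, hm_mul, mul_zero, zero_add]
  have h3 : hm n ((w / χ v) ^ M * x) ∈ GR χ σ p s 𝔓 l Δ v := by
    rw [← h2]; exact hM
  obtain ⟨-, N', hN'⟩ := (memJ _).1 (hv.nd J N _ hn _ h3)
  have h4 := im_mul (Subalgebra.pow_mem _ ht M) hN'
  have h5 : (hm 0 (χ v / w) ^ M * (hm 0 (χ v / w) ^ N' * hm n ((w / χ v) ^ M * x)) : LP K) =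
      hm 0 (χ v / w) ^ N' * hm n x := by
    have h6 : (hm 0 (χ v / w) ^ M * hm n ((w / χ v) ^ M * x) : LP K) = hm n x := by
      rw [hm_pow, hm_mul, mul_zero, zero_add, ← mul_assoc, ← mul_pow]
      have h7 : χ v / w * (w / χ v) = 1 := by field_simp
      rw [h7, one_pow, one_mul]
    rw [← h6]
    ring
  rw [h5] at h4
  rcases im_prime h𝔔 (Subalgebra.pow_mem _ ht _) hx h4 with h6 | h6
  · exact absurd h6 (im_pow h𝔔 ht h1 _)
  · exact h6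

end charts

end Pool.Agent.T9h3.H
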