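import Pool.Agent.T9h3.H.Chg
import Pool.Agent.T9h3.OrdF

/-!
# Stable smooth lattice polytopes, compatible with given elements
-/

set_option autoImplicit false
set_option linter.unusedSectionVars false

namespace Pool.Agent.T9h3.H

open Pool.Agent.T9h3

/-- All the coordinates have the same sign. -/
def CMP {Λ ι : Type} [AddCommGroup Λ] (b : Module.Basis ι ℤ Λ) (φ : Λ) : Prop :=
  (∀ i, 0 ≤ b.repr φ i) ∨ ∀ i, b.repr φ i ≤ 0

/-- A smooth vertex, compatible with given elements. -/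
def SVΦ {Λ : Type} [AddCommGroup Λ] (Θ Δ : Set Λ) (v : Λ) : Prop :=
  ∃ (ι : Type) (_ : Fintype ι) (b : Module.Basis ι ℤ Λ), CD Δ v b ∧ ∀ φ ∈ Θ, CMP b φ

/-- A smooth rich vertex, compatible with given elements. -/
def SVR {Λ : Type} [AddCommGroup Λ] (p : ℕ) (s : Module.End ℤ Λ) (Θ Δ : Set Λ) (v : Λ) : Prop :=
  ∃ (ι : Type) (_ : Fintype ι) (b : Module.Basis ι ℤ Λ), CD Δ v b ∧ RD p s Δ v b ∧
    ∀ φ ∈ Θ, CMP b φ

section

variable {Λ : Type} [AddCommGroup Λ] {Δ : Set Λ}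

lemma cvP_of (htf : ∀ (n : ℕ) (x : Λ), n • x = 0 → n = 0 ∨ x = 0)
    {Δ : Set Λ} (PP : Λ → Prop) (h : ∀ S : AddSubmonoid Λ, IsTO S → ∃ (ι : Type)
      (_ : Fintype ι) (v : Λ)
      (b : Module.Basis ι ℤ Λ), CD Δ v b ∧ (∀ i, b i ∈ S) ∧ PP v) : CVP PP Δ := by
  intro x hx
  by_contra hcon
  push Not at hcon
  let P : AddSubmonoid Λ :=
    { carrier := {z | ∃ T : Multiset Λ, (∀ v ∈ T, PP v) ∧ z = T.sum - T.card • x}
      add_mem' := by
        rintro _ _ ⟨T, hT, rfl⟩ ⟨T', hT', rfl⟩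
        refine ⟨T + T', fun v hv => ?_, ?_⟩
        · rcases Multiset.mem_add.1 hv with hv | hv
          · exact hT v hv
          · exact hT' v hv
        · rw [Multiset.sum_add, Multiset.card_add, add_smul]
          abel
      zero_mem' := ⟨0, by simp, by simp⟩ }
  obtain ⟨S, hPS, hS⟩ := exists_TO htf P (by
    rintro z ⟨T, hT, hz⟩ ⟨T', hT', hz'⟩
    have h1 : (T + T').card • x = (T + T').sum := by
      have h3 : z + -z = (T.sum - T.card • x) + (T'.sum - T'.card • x) := by rw [← hz, ← hz']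
      rw [add_neg_cancel] at h3
      rw [Multiset.sum_add, Multiset.card_add, add_smul]
      have h4 : T.card • x + T'.card • x + 0 = T.card • x + T'.card • x +
        ((T.sum - T.card • x) + (T'.sum - T'.card • x)) := by rw [← h3]
      rw [add_zero] at h4
      rw [h4]
      abel
    by_cases h2 : T + T' = 0
    · have h3 : T = 0 := by
        have := congrArg Multiset.card h2
        rw [Multiset.card_add, Multiset.card_zero] at this
        exact Multiset.card_eq_zero.1 (by omega)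
      rw [hz, h3]
      simp
    · refine absurd h1 (hcon (T + T') h2 fun v hv => ?_)
      rcases Multiset.mem_add.1 hv with hv | hv
      · exact hT v hv
      · exact hT' v hv)
  obtain ⟨ι, hι, v, b, hv, hb, hvP⟩ := h S hS
  have h1 : x - v ∈ S := hv.mem hb hx
  have h2 : -(x - v) ∈ S := hPS ⟨{v}, by
    intro v' hv'
    rw [Multiset.mem_singleton] at hv'
    rw [hv']
    exact hvP, by simp⟩
  have h3 : x = v := sub_eq_zero.1 (hS.anti _ h1 h2)
  refine hcon {v} (by simp) (fun v' hv' => ?_) (by simp [h3])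
  rw [Multiset.mem_singleton] at hv'
  rw [hv']
  exact hvP

lemma MS_CVP {P : Λ → Prop} (hV : CVP P Δ) (k : ℕ) : ∀ m ∈ MS Δ (k + 1), ∃ T : Multiset Λ, T ≠ 0 ∧
    (∀ v ∈ T, P v) ∧ T.card • m = (k + 1) • T.sum := by
  induction k with
  | zero =>
    rintro _ ⟨m, hm, m', hm', rfl⟩
    have h1 : m = 0 := hm
    obtain ⟨T, h2, h3, h4⟩ := hV m' hm'
    exact ⟨T, h2, h3, by rw [h1, zero_add, h4, zero_add, one_smul]⟩
  | succ k ih =>
    rintro _ ⟨m, hm, m', hm', rfl⟩
    obtain ⟨T, h2, h3, h4⟩ := ih m hm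
    obtain ⟨T', h2', h3', h4'⟩ := hV m' hm'
    have hc : 0 < T.card := Multiset.card_pos.2 h2
    have hc' : 0 < T'.card := Multiset.card_pos.2 h2'
    refine ⟨((k + 1) * T'.card) • T + T.card • T', ?_, ?_, ?_⟩
    · rw [← Multiset.card_pos, Multiset.card_add, Multiset.card_nsmul, Multiset.card_nsmul]
      positivity
    · intro v hv
      rw [Multiset.mem_add] at hv
      rcases hv with hv | hv
      · exact h3 v (Multiset.mem_of_mem_nsmul hv)
      · exact h3' v (Multiset.mem_of_mem_nsmul hv)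
    · rw [Multiset.card_add, Multiset.card_nsmul, Multiset.card_nsmul, Multiset.sum_add,
        Multiset.sum_nsmul, Multiset.sum_nsmul, ← h4', mul_comm (k + 1), mul_smul _ (k + 1) T.sum,
        ← h4]
      module

/-- **Rich multiples.** -/
theorem exists_richP (Θ : Set Λ) (hΔ : Δ.Finite) (hV : CVP (SVΦ Θ Δ) Δ) {G : Type} [Finite G] (q : G → ℕ)
    (s : G → Module.End ℤ Λ) : ∃ k : ℕ, 1 ≤ k ∧ ∀ g, CVP (SVR (q g) (s g) Θ (MS Δ k)) (MS Δ k) := by
  classical
  have _ : Fintype G := Fintype.ofFinite G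
  have h1 : ∀ v : Λ, ∃ k₀ : ℕ, SVΦ Θ Δ v → ∀ k, k₀ ≤ k → 1 ≤ k → ∀ g,
      SVR (q g) (s g) Θ (MS Δ k) (k • v) := by
    intro v
    by_cases hv : SVΦ Θ Δ v
    · obtain ⟨ι, _, b, hc, hb⟩ := hv
      choose k₀ hk₀ using fun g => MS_RD hc (q g) (s g)
      refine ⟨∑ g, k₀ g, fun _ k hk hk1 g => ⟨ι, inferInstance, b, MS_CD hc hk1, hk₀ g k ?_, hb⟩⟩
      exact (Finset.single_le_sum (f := k₀) (fun _ _ => Nat.zero_le _) (Finset.mem_univ g)).trans hk
    · exact ⟨0, fun h => absurd h hv⟩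
  choose k₀ hk₀ using h1
  obtain ⟨n, hn⟩ : ∃ n, n = ∑ v ∈ hΔ.toFinset, k₀ v := ⟨_, rfl⟩
  refine ⟨n + 1, by omega, fun g m hm => ?_⟩
  obtain ⟨T, h2, h3, h4⟩ := MS_CVP hV n m hm
  refine ⟨T.map fun v => (n + 1) • v, ?_, ?_, ?_⟩
  · rw [← Multiset.card_pos, Multiset.card_map]
    exact Multiset.card_pos.2 h2
  · intro w hw
    rw [Multiset.mem_map] at hw
    obtain ⟨v, hv, rfl⟩ := hw
    refine hk₀ v (h3 v hv) _ ?_ (by omega) g
    obtain ⟨ι, _, b, hc, -⟩ := h3 v hv
    have h5 : k₀ v ≤ n := by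
      rw [hn]
      exact Finset.single_le_sum (f := k₀) (fun _ _ => Nat.zero_le _)
        (hΔ.mem_toFinset.2 hc.vm)
    omega
  · rw [Multiset.card_map, h4]
    rw [Multiset.sum_map_nsmul, Multiset.map_id']

end

/-- Projections. -/
lemma projP {Λ : Type} [AddCommGroup Λ] {G : Type} [Group G] [DistribMulAction G Λ]
    {ι : Type} [Fintype ι] {Y : Type} {e : Y → Λ}
    (htf : ∀ (n : ℕ) (x : Λ), n • x = 0 → n = 0 ∨ x = 0)
    {Λ' : Type} [AddCommGroup Λ'] (htf' : ∀ (n : ℤ) (x : Λ'), n • x = 0 → n = 0 ∨ x = 0)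
    (π : Λ →ₗ[ℤ] Λ') (hπ : Function.Surjective π) {Δ : Set Λ} (hΔ : Good G e ι Δ)
    (Φ : Set Λ) (hΦ : Submodule.span ℤ Φ = LinearMap.ker π)
    (hB : ∀ A, ∀ φ ∈ Φ, Bad e ι Δ A φ = ∅) (Ψ : Set Λ)
    (hB' : ∀ A, ∀ φ ∈ Ψ, Bad e ι Δ A φ = ∅) (S' : AddSubmonoid Λ') (hS' : IsTO S') :
    ∃ (ι' : Type) (_ : Fintype ι') (v' : Λ') (b' : Module.Basis ι' ℤ Λ'),
      CD (π '' Δ) v' b' ∧ (∀ i, b' i ∈ S') ∧ ∀ φ ∈ Ψ, CMP b' (π φ) := by
  classical
  let P : AddSubmonoid Λ :=
    { carrier := {x | x = 0 ∨ (π x ∈ S' ∧ π x ≠ 0)}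
      add_mem' := by
        rintro x y (rfl | ⟨hx, hx'⟩) (rfl | ⟨hy, hy'⟩)
        · left; rw [add_zero]
        · right; rw [zero_add]; exact ⟨hy, hy'⟩
        · right; rw [add_zero]; exact ⟨hx, hx'⟩
        · right
          rw [map_add]
          refine ⟨S'.add_mem hx hy, fun h => hx' (hS'.anti _ hx ?_)⟩
          rw [neg_eq_iff_add_eq_zero.2 h]
          exact hy
      zero_mem' := Or.inl rfl }
  obtain ⟨S, hPS, hS⟩ := exists_TO htf P (by
    rintro x (hx | ⟨hx, hx'⟩) hx2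
    · exact hx
    · rcases hx2 with hx2 | ⟨hx2, -⟩
      · rwa [neg_eq_zero] at hx2
      · rw [map_neg] at hx2
        exact absurd (hS'.anti _ hx hx2) hx')
  have hSS : ∀ x ∈ S, π x ∈ S' := by
    intro x hx
    rcases hS'.tot (π x) with h | h
    · exact h
    · by_cases h0 : π x = 0
      · rw [h0]; exact S'.zero_mem
      · have h1 : -x ∈ S := hPS (Or.inr ⟨by rw [map_neg]; exact h, by
          rw [map_neg]; exact fun h2 => h0 (neg_eq_zero.1 h2)⟩)
        rw [hS.anti _ hx h1, map_zero]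
        exact S'.zero_mem
  obtain ⟨v, b, h, hb⟩ := hΔ.ni S hS
  have hk0 : ∀ φ ∈ Φ, ∀ i, π (b i) ≠ 0 → b.coord i φ = 0 := by
    intro φ hφ i hi
    have h1 : π φ = 0 := by
      have : φ ∈ LinearMap.ker π := by rw [← hΦ]; exact Submodule.subset_span hφ
      exact this
    have h2 : (∀ i, 0 ≤ b.coord i φ) ∨ ∀ i, b.coord i φ ≤ 0 := by
      by_contra hcon
      rw [not_or] at hcon
      obtain ⟨h3, h4⟩ := hcon
      push Not at h3 h4
      obtain ⟨l', hl'⟩ := h3
      obtain ⟨l, hl⟩ := h4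
      have : (b.coord l, b.coord l') ∈ Bad e ι Δ (AS e S) φ :=
        ⟨S, hS, rfl, v, b, h, hb, l, l', rfl, hl, hl'⟩
      rw [hB _ φ hφ] at this
      exact this
    have h3 : ∑ i, b.coord i φ • π (b i) = 0 := by
      have h4 := congrArg π (b.sum_repr φ)
      rw [map_sum, h1] at h4
      rw [← h4]
      exact Finset.sum_congr rfl fun i _ => (map_smul π _ _).symm
    have hz : ∀ (c : ι → ℤ), (∀ i, 0 ≤ c i) → ∑ i, c i • π (b i) = 0 → c i = 0 := by
      intro c hc hc0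
      have h4 := hS'.sum_zero (T := Finset.univ) (f := fun i => c i • π (b i)) (fun i _ => by
        obtain ⟨n, hn⟩ := Int.eq_ofNat_of_zero_le (hc i)
        change c i • π (b i) ∈ S'
        rw [hn, natCast_zsmul]
        exact S'.nsmul_mem (hSS _ (hb i)) n) hc0 i (Finset.mem_univ i)
      rcases htf' _ _ h4 with h5 | h5
      · exact h5
      · exact absurd h5 hi
    rcases h2 with h2 | h2
    · exact hz _ h2 h3
    · have h4 := hz (fun i => -b.coord i φ) (fun i => by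
        have := h2 i
        change 0 ≤ -b.coord i φ
        linarith) (by
        have : ∑ i, (-b.coord i φ) • π (b i) = -∑ i, b.coord i φ • π (b i) := by
          rw [← Finset.sum_neg_distrib]
          exact Finset.sum_congr rfl fun i _ => neg_smul _ _
        rw [this, h3, neg_zero])
      change -b.coord i φ = 0 at h4
      linarith
  have hk : ∀ φ ∈ LinearMap.ker π, ∀ i, π (b i) ≠ 0 → b.coord i φ = 0 := by
    intro φ hφ i hi
    rw [← hΦ] at hφ
    have h1 : Submodule.span ℤ Φ ≤ LinearMap.ker (b.coord i) :=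
      Submodule.span_le.2 fun φ hφ => hk0 φ hφ i hi
    exact h1 hφ
  have hli : LinearIndependent ℤ fun i : {i // π (b i) ≠ 0} => π (b i.1) := by
    rw [Fintype.linearIndependent_iff]
    intro a ha i
    have h1 : ∑ i : {i // π (b i) ≠ 0}, a i • b i.1 ∈ LinearMap.ker π := by
      rw [LinearMap.mem_ker, map_sum]
      exact (Finset.sum_congr rfl fun i _ => map_smul π _ _).trans ha
    have h2 := hk _ h1 i.1 i.2
    rw [map_sum, Finset.sum_eq_single i] at h2
    · rwa [map_smul, coord_self, smul_eq_mul, mul_one] at h2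
    · intro j _ hj
      rw [map_smul, coord_ne b (fun h => hj (Subtype.ext h.symm)), smul_zero]
    · intro h; exact absurd (Finset.mem_univ _) h
  have hsp : ⊤ ≤ Submodule.span ℤ (Set.range fun i : {i // π (b i) ≠ 0} => π (b i.1)) := by
    intro y _
    obtain ⟨x, rfl⟩ := hπ y
    rw [← b.sum_repr x, map_sum]
    refine Submodule.sum_mem _ fun i _ => ?_
    rw [map_smul]
    refine Submodule.smul_mem _ _ ?_
    by_cases h0 : π (b i) = 0
    · rw [h0]; exact Submodule.zero_mem _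
    · exact Submodule.subset_span ⟨⟨i, h0⟩, rfl⟩
  let b' : Module.Basis {i // π (b i) ≠ 0} ℤ Λ' := Module.Basis.mk hli hsp
  have hb' : ∀ i, b' i = π (b i.1) := fun i => by
    change Module.Basis.mk _ _ i = _
    rw [Module.Basis.mk_apply]
  have hco : ∀ (i : {i // π (b i) ≠ 0}) (x : Λ), b'.coord i (π x) = b.coord i.1 x := by
    intro i x
    have h1 : b'.coord i ∘ₗ π = b.coord i.1 := by
      refine b.ext fun j => ?_
      rw [LinearMap.comp_apply]
      by_cases h0 : π (b j) = 0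
      · rw [h0, map_zero, coord_ne b]
        intro h2
        exact i.2 (by rw [h2]; exact h0)
      · rw [show π (b j) = b' ⟨j, h0⟩ from (hb' ⟨j, h0⟩).symm]
        by_cases h2 : i = ⟨j, h0⟩
        · rw [h2, coord_self, coord_self]
        · rw [coord_ne b' h2, coord_ne b]
          exact fun h3 => h2 (Subtype.ext h3)
    exact congrArg (fun f : Λ →ₗ[ℤ] ℤ => f x) h1
  refine ⟨_, inferInstance, π v, b', ⟨⟨v, h.vm, rfl⟩, fun i => ?_, ?_⟩, fun i => ?_, ?_⟩
  · rw [hb', ← map_add]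
    exact ⟨_, h.nb i.1, rfl⟩
  · rintro _ ⟨m, hm, rfl⟩ i
    rw [← map_sub]
    change 0 ≤ b'.coord i (π (m - v))
    rw [hco]
    exact h.nn m hm i.1
  · rw [hb']
    exact hSS _ (hb i.1)
  · intro φ hφ
    have h2 : (∀ i, 0 ≤ b.coord i φ) ∨ ∀ i, b.coord i φ ≤ 0 := by
      by_contra hcon
      rw [not_or] at hcon
      obtain ⟨h3, h4⟩ := hcon
      push Not at h3 h4
      obtain ⟨l', hl'⟩ := h3
      obtain ⟨l, hl⟩ := h4
      have : (b.coord l, b.coord l') ∈ Bad e ι Δ (AS e S) φ :=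
        ⟨S, hS, rfl, v, b, h, hb, l, l', rfl, hl, hl'⟩
      rw [hB' _ φ hφ] at this
      exact this
    rcases h2 with h2 | h2
    · left
      intro i
      change 0 ≤ b'.coord i (π φ)
      rw [hco]
      exact h2 i.1
    · right
      intro i
      change b'.coord i (π φ) ≤ 0
      rw [hco]
      exact h2 i.1

/-- **Stable smooth lattice polytopes exist.** -/
theorem exists_smoothP (G L : Type) [Group G] [Finite G] [AddCommGroup L] [DistribMulAction G L]
    [Module.Free ℤ L] [Module.Finite ℤ L] (Θ : Finset L) :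
    ∃ Δ : Set L, Δ.Finite ∧ Δ.Nonempty ∧ (∀ g : G, ∀ x ∈ Δ, g • x ∈ Δ) ∧
      CVP (SVΦ Θ Δ) Δ := by
  classical
  haveI := Fintype.ofFinite G
  let β := Module.Free.chooseBasis ℤ L
  let J := Module.Free.ChooseBasisIndex ℤ L
  let X := XX G J
  let e : Option X → PX X := fun y => y.elim 0 fun x => bPX X x
  have hn : e none = 0 := rfl
  have hs : ∀ x, e (some x) = bPX X x := fun _ => rfl
  have hG : Good G e (Fin (Fintype.card X)) (PH e) := PH_good (bPX_smul (G := G)) hn hs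
  have he : ∀ (g : G) y, e (g • y) = g • e y := by
    intro g y
    cases y with
    | none => rw [Option.smul_none, hn, smul_zero]
    | some x => rw [Option.smul_some, hs, hs, bPX_smul]
  have hspan : Submodule.span ℤ (Set.range e) = ⊤ := by
    rw [← top_le_iff, ← (bPX X).span_eq, Submodule.span_le]
    rintro _ ⟨x, rfl⟩
    exact Submodule.subset_span ⟨some x, rfl⟩
  let π : PX X →ₗ[ℤ] L := (bPX X).constr ℤ fun x => x.1 • β x.2
  have hπb : ∀ x : X, π (bPX X x) = x.1 • β x.2 := fun x => (bPX X).constr_basis ℤ _ x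
  have hπ : Function.Surjective π := by
    rw [← LinearMap.range_eq_top, ← top_le_iff, ← β.span_eq, Submodule.span_le]
    rintro _ ⟨j, rfl⟩
    refine ⟨bPX X ((1 : G), j), ?_⟩
    rw [hπb]
    exact one_smul G _
  have hπG : ∀ (g : G) x, π (g • x) = g • π x := by
    intro g x
    have h1 : π ∘ₗ (DistribMulAction.toAddMonoidHom (PX X) g).toIntLinearMap =
        (DistribMulAction.toAddMonoidHom L g).toIntLinearMap ∘ₗ π := by
      refine (bPX X).ext fun x => ?_
      change π (g • bPX X x) = g • π (bPX X x)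
      rw [← bPX_smul, hπb, hπb, smul_smul]
      rfl
    exact congrArg (fun f : PX X →ₗ[ℤ] L => f x) h1
  haveI : Module.Finite ℤ (PX X) := Module.Finite.of_basis (bPX X)
  haveI : Module.Free ℤ (PX X) := Module.Free.of_basis (bPX X)
  have hN : IsNoetherian ℤ (PX X) := inferInstance
  obtain ⟨Φ, hΦ⟩ := hN.noetherian (LinearMap.ker π)
  choose lf hlf using hπ
  obtain ⟨Δ, hΔ, hB⟩ := fix_all he hspan hG (Φ ∪ Θ.image lf)
  have htf : ∀ (L' : Type) [AddCommGroup L'] [Module.Free ℤ L'] (n : ℤ) (x : L'),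
      n • x = 0 → n = 0 ∨ x = 0 := by
    intro L' _ _ n x h
    exact smul_eq_zero.1 h
  have htfn : ∀ (L' : Type) [AddCommGroup L'] [Module.Free ℤ L'] (n : ℕ) (x : L'),
      n • x = 0 → n = 0 ∨ x = 0 := by
    intro L' _ _ n x h
    rw [← natCast_zsmul] at h
    rcases htf L' _ x h with h | h
    · exact Or.inl (by exact_mod_cast h)
    · exact Or.inr h
  refine ⟨π '' Δ, hΔ.fin.image _, ?_, ?_, ?_⟩
  · obtain ⟨S, -, hS⟩ := exists_TO (htfn (PX X)) ⊥ (fun x hx _ => hx)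
    obtain ⟨v, b, h, -⟩ := hΔ.ni S hS
    exact ⟨_, v, h.vm, rfl⟩
  · rintro g _ ⟨x, hx, rfl⟩
    exact ⟨g • x, hΔ.st g x hx, hπG g x⟩
  · refine cvP_of (htfn L) _ fun S' hS' => ?_
    obtain ⟨ι', hι', v', b', h1, h2, h3⟩ := projP (htfn (PX X)) (htf L) π (fun y => ⟨_, hlf y⟩) hΔ Φ
      hΦ (fun A φ hφ => hB A φ (Finset.mem_union_left _ hφ)) (Θ.image lf)
      (fun A φ hφ => hB A φ (Finset.mem_union_right _ hφ)) S' hS'
    refine ⟨ι', hι', v', b', h1, h2, ι', hι', b', h1, fun φ hφ => ?_⟩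
    rw [← hlf φ]
    exact h3 _ (Finset.mem_coe.2 (Finset.mem_image_of_mem lf hφ))

end Pool.Agent.T9h3.H
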