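import Pool.Agent.T9h3.H.Vtx
import Pool.Agent.T9h3.H.Chg
import Pool.Agent.T9h3.H.Ord

/-!
# The function field of the torus
-/

set_option autoImplicit false
set_option linter.unusedSectionVars false

namespace Pool.Agent.T9h3.H

open Pool.Agent.Y223.G Pool.Agent.T9h3 MvPolynomial Algebra

lemma AA_dom {O Λ ι : Type} [CommRing O] [IsDomain O] [AddCommGroup Λ]
    (b : Module.Basis ι ℤ Λ) : IsDomain (AA O Λ) := by
  have h1 : TwoUniqueSums Λ := TwoUniqueSums.of_injective_addHom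
    (b.repr.toLinearMap.toAddMonoidHom : Λ →+ (ι →₀ ℤ)).toAddHom b.repr.injective inferInstance
  infer_instance

/-- The ambient field. -/
theorem exists_amb {O Λ ι : Type} [CommRing O] [IsDomain O] [AddCommGroup Λ]
    (b : Module.Basis ι ℤ Λ) {t : O →+* O} (ht : Function.Injective t) {s : Module.End ℤ Λ}
    (hs : Function.Injective s) :
    ∃ (𝕂 : Type) (_ : Field 𝕂) (_ : Algebra O 𝕂) (φ0 : AA O Λ →ₐ[O] 𝕂) (χ0 : Λ → 𝕂)
      (σ0 : 𝕂 →+* 𝕂), EV φ0 χ0 σ0 t s ∧ Function.Injective φ0 := by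
  have hd : IsDomain (AA O Λ) := AA_dom b
  refine ⟨FractionRing (AA O Λ), inferInstance, inferInstance,
    IsScalarTower.toAlgHom O (AA O Λ) (FractionRing (AA O Λ)),
    fun x => algebraMap (AA O Λ) (FractionRing (AA O Λ)) (cx O x),
    IsFractionRing.map (A := AA O Λ) (B := AA O Λ) (sg_inj ht hs), ⟨fun x => rfl, fun f => ?_⟩,
    IsFractionRing.injective (AA O Λ) (FractionRing (AA O Λ))⟩
  exact IsLocalization.map_eq _ f

section

variable {O K Λ ι κ : Type} [CommRing O] [Field K]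
  [Algebra O K] [AddCommGroup Λ] [Fintype ι]
  [Fintype κ] {φ : AA O Λ →ₐ[O] K} {χ : Λ → K} {σ : K →+* K} {t : O →+* O} {s : Module.End ℤ Λ}
  {p : ℕ} {𝔓 : Ideal O} {l : ℕ} {Δ : Set Λ} {v : Λ} {b : Module.Basis ι ℤ Λ}
  {a : κ → O} {θ : κ → Λ}
  {𝕂 : Type} [Field 𝕂] [Algebra O 𝕂] {φ0 : AA O Λ →ₐ[O] 𝕂} {χ0 : Λ → 𝕂} {σ0 : 𝕂 →+* 𝕂}

lemma TD0.amb (h : TD0 O K Λ p σ t s χ 𝔓 l) (e0 : EV φ0 χ0 σ0 t s) (h0 : Function.Injective φ0) :
    TD O 𝕂 Λ p σ0 t s χ0 𝔓 l := by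
  refine ⟨h.pp, e0.χ0, e0.χa, ?_, fun x => ?_, fun o => ?_, h.sp, h.mx, h.ne, h.l1, h.dv, h.un,
    h.pl⟩
  · have h1 : LinearIndependent O (φ0.toLinearMap ∘ (cx O : Λ → AA O Λ)) :=
      cx_lin.map' φ0.toLinearMap (LinearMap.ker_eq_bot.2 h0)
    have h2 : (φ0.toLinearMap ∘ (cx O : Λ → AA O Λ)) = χ0 := by
      funext x
      exact e0.c x
    rwa [h2] at h1
  · rw [← e0.c, ← e0.c, e0.sg, sg_cx]
  · have h1 := e0.sg (algebraMap O (AA O Λ) o)
    rwa [AlgHom.commutes, sg_C, AlgHom.commutes] at h1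

lemma pow_inj (hp : p ≠ 0) (hs : s ^ p = 1) : Function.Injective s := by
  obtain ⟨q, rfl⟩ : ∃ q, p = q + 1 := ⟨p - 1, by omega⟩
  intro x y hxy
  have h1 : ∀ x, (s ^ (q + 1)) x = x := fun x => by rw [hs]; rfl
  rw [← h1 x, ← h1 y, pow_succ, Module.End.mul_apply, Module.End.mul_apply, hxy]

/-- The smallest term. -/
lemma exists_min [Nonempty κ] {Θ : Set Λ} (hΘ : ∀ i j, θ i - θ j ∈ Θ)
    (hb : ∀ φ ∈ Θ, CMP b φ) : ∃ i0, ∀ j i, 0 ≤ b.repr (θ j - θ i0) i := by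
  obtain ⟨i0, hi0⟩ := Finite.exists_min fun i => ∑ c, b.repr (θ i) c
  refine ⟨i0, fun j => ?_⟩
  rcases hb _ (hΘ j i0) with h | h
  · exact h
  · have h1 : ∑ c, b.repr (θ j - θ i0) c = ∑ c, b.repr (θ j) c - ∑ c, b.repr (θ i0) c := by
      rw [← Finset.sum_sub_distrib]
      exact Finset.sum_congr rfl fun c _ => by rw [map_sub, Finsupp.sub_apply]
    have h2 : 0 ≤ ∑ c, b.repr (θ j - θ i0) c := by
      rw [h1]
      have := hi0 j
      linarith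
    have h3 : ∑ c, b.repr (θ j - θ i0) c = 0 :=
      le_antisymm (Finset.sum_nonpos fun c _ => h c) h2
    have h4 := (Finset.sum_eq_zero_iff_of_nonpos fun c _ => h c).1 h3
    intro c
    rw [h4 c (Finset.mem_univ c)]

/-- The differences of the terms of each equation. -/
def DF {c : ℕ} (F : Fin c → AA O Λ) (Θ : Set Λ) : Prop :=
  ∀ r, ∀ x ∈ (F r).coeff.support, ∀ y ∈ (F r).coeff.support, x - y ∈ Θ

/-- The smallest terms of the equations. -/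
lemma exists_MN {c : ℕ} {F : Fin c → AA O Λ} {Θ : Set Λ} (hΘ : DF F Θ)
    (hF : ∀ r, F r ≠ 0) (hb : ∀ φ ∈ Θ, CMP b φ) : ∃ u, MN b F u := by
  have hne : ∀ r, Nonempty {x // x ∈ (F r).coeff.support} := by
    intro r
    rw [nonempty_subtype]
    by_contra hcon
    push Not at hcon
    apply hF r
    apply AddMonoidAlgebra.coeff_injective
    ext x
    have h1 := hcon x
    rw [Finsupp.mem_support_iff, not_not] at h1
    rw [h1]
    rfl
  choose i0 hi0 using fun r => exists_min (κ := {x // x ∈ (F r).coeff.support})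
    (θ := fun x => x.1) (fun x y => hΘ r x.1 x.2 y.1 y.2) hb
  exact ⟨fun r => (i0 r).1, fun r x hx i => hi0 r ⟨x, hx⟩ i, fun r => (i0 r).2⟩

end

section

variable {O : Type} [CommRing O] [IsDomain O] [IsDedekindDomain O]

/-- The coefficients are units at the wildly ramified primes. -/
lemma fix_notMem {𝔓 : Ideal O} (hmx : 𝔓.IsMaximal) {t : O →+* O} {l : ℕ}
    (hdv : ∀ o, t o - o ∈ 𝔓 ^ (l + 1)) (hun : ∃ π ∈ 𝔓, t π - π ∉ 𝔓 ^ (l + 2)) {a : O}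
    (ha : t a = a) (ha2 : a ∉ 𝔓 ^ 2) : a ∉ 𝔓 := by
  intro haP
  obtain ⟨π, hπ, hπn⟩ := hun
  obtain ⟨s, hs, hs'⟩ := Pool.Agent.Y215.G.dedekind_local 𝔓 a haP ha2
  obtain ⟨o, ho⟩ := hs' π hπ
  apply hπn
  refine mem_pow_of_mul hmx hs ?_
  have h1 : s * (t π - π) = a * (t o - o) - (t s - s) * (π + (t π - π)) := by
    have h2 := congrArg t ho
    rw [map_mul, map_mul, ha] at h2
    linear_combination h2 - ho
  rw [h1]
  have e1 : 𝔓 ^ (l + 2) = 𝔓 * 𝔓 ^ (l + 1) := by rw [← pow_succ']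
  have e2 : 𝔓 ^ (l + 2) = 𝔓 ^ (l + 1) * 𝔓 := by rw [← pow_succ]
  refine Ideal.sub_mem _ ?_ ?_
  · rw [e1]
    exact Ideal.mul_mem_mul haP (hdv o)
  · rw [e2]
    refine Ideal.mul_mem_mul (hdv s) (Ideal.add_mem _ hπ ?_)
    exact Ideal.pow_le_self (Nat.succ_ne_zero l) (hdv π)

end

end Pool.Agent.T9h3.H
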