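import Pool.Agent.T9h3.H.Wrg
import Pool.Agent.T9h3.AsmC

/-!
# Hypersurfaces in tori over number fields: the assembly
-/

set_option autoImplicit false
set_option linter.unusedSectionVars false

namespace Pool.Agent.T9h3.H

open Pool.Agent.Y223.G Pool.Agent.R383.TM NumberField Pool.Agent.T9h3

section nf

variable {E M K Λ : Type} [Field E] [NumberField E] [Field M] [NumberField M]
  [Algebra E M] [Field K] [Algebra M K] [Algebra E K] [IsScalarTower E M K]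
  [AddCommGroup Λ] [DistribMulAction (M ≃ₐ[E] M) Λ]

/-- The data. -/
structure TSH (ρ : (M ≃ₐ[E] M) →* (K ≃ₐ[E] K)) (χ : Λ → K) (Δ : Set Λ) : Prop where
  hρ : ∀ g c, ρ g (algebraMap M K c) = algebraMap M K (g c)
  hin : ∀ 𝔓 : Ideal (𝓞 M), 𝔓.IsMaximal → ∀ p : ℕ, p.Prime → (p : 𝓞 M) ∈ 𝔓 →
      ¬ p ^ 2 ∣ Nat.card (inert E 𝔓)
  χ0 : χ 0 = 1
  χa : ∀ x y, χ (x + y) = χ x * χ y
  act : ∀ g x, ρ g (χ x) = χ (g • x)
  fin : Δ.Finite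
  st : ∀ g : M ≃ₐ[E] M, ∀ x ∈ Δ, g • x ∈ Δ
  ne : Δ.Nonempty
  tf : ∀ n : ℕ, n ≠ 0 → ∀ x : Λ, (n : ℤ) • x = 0 → x = 0
  bs : ∃ (ι : Type) (_ : Fintype ι) (v : Λ) (b : Module.Basis ι ℤ Λ), v ∈ Δ ∧ ∀ i, v + b i ∈ Δ
  cr : CVP (fun v => v ∈ Δ ∧ IsRegularRing (CG0 (𝓞 M) χ Δ (χ v))) Δ
  vf : ∀ (𝔓 : Ideal (𝓞 M)) (g : M ≃ₐ[E] M) (l : ℕ), 𝔓.IsMaximal → IsW E 𝔓 g →
      TD0 (𝓞 M) K Λ (orderOf g) (rh ρ g) (th' E g) (sA Λ g) χ 𝔓 l →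
      CVP (VF χ (rh ρ g) (orderOf g) (th' E g) (sA Λ g) 𝔓 l Δ) Δ

variable {ρ : (M ≃ₐ[E] M) →* (K ≃ₐ[E] K)} {χ : Λ → K} {Δ : Set Λ}

/-- The wild inertia groups are cyclic of prime order. -/
lemma TSH.cyc [IsGalois E M] (S : TSH ρ χ Δ) {𝔓 : Ideal (𝓞 M)} (h𝔓 : 𝔓.IsMaximal)
    {g : M ≃ₐ[E] M} (hg : IsW E 𝔓 g) : (orderOf g).Prime ∧
      ∀ g', IsW E 𝔓 g' → ∃ a : ℕ, g' = g ^ a := by
  have hne : 𝔓 ≠ ⊥ := Ring.ne_bot_of_isMaximal_of_not_isField h𝔓 (RingOfIntegers.not_isField M)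
  have hG := ge_of Pool.Agent.Y223.G.all_TAMC ρ S.hρ S.hin
  obtain ⟨p, τ, hp, hτ, hinr⟩ := hG.inr 𝔓 h𝔓 hne
  have h1 : ∀ g, IsW E 𝔓 g → g ∈ Subgroup.zpowers τ := fun g hg => hinr g (isW_mem hg).1 (isW_mem hg).2
  have hgp : g ^ p = 1 := by
    obtain ⟨n, hn⟩ := h1 g hg
    have hn' : τ ^ n = g := hn
    rw [← hn', ← zpow_natCast, ← zpow_mul, mul_comm, zpow_mul, zpow_natCast, hτ, one_zpow]
  have ho : orderOf g = p := by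
    have := Fact.mk hp
    exact orderOf_eq_prime hgp hg.1
  have hle : Subgroup.zpowers g ≤ Subgroup.zpowers τ := by
    rw [Subgroup.zpowers_le]
    exact h1 g hg
  have heq : Subgroup.zpowers g = Subgroup.zpowers τ := by
    apply Subgroup.eq_of_le_of_card_ge hle
    rw [Nat.card_zpowers, Nat.card_zpowers, ho]
    exact Nat.le_of_dvd hp.pos (orderOf_dvd_of_pow_eq_one hτ)
  refine ⟨ho ▸ hp, fun g' hg' => ?_⟩
  have h2 := h1 g' hg'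
  rw [← heq, ← mem_powers_iff_mem_zpowers] at h2
  obtain ⟨a, ha⟩ := h2
  exact ⟨a, ha.symm⟩

/-- The ramification data. -/
lemma TSH.td [IsGalois E M] (S : TSH ρ χ Δ) {𝔓 : Ideal (𝓞 M)} (h𝔓 : 𝔓.IsMaximal)
    {g : M ≃ₐ[E] M} (hg : IsW E 𝔓 g) :
    ∃ l, TD0 (𝓞 M) K Λ (orderOf g) (rh ρ g) (th' E g) (sA Λ g) χ 𝔓 l := by
  have hne : 𝔓 ≠ ⊥ := Ring.ne_bot_of_isMaximal_of_not_isField h𝔓 (RingOfIntegers.not_isField M)
  have hG := ge_of Pool.Agent.Y223.G.all_TAMC ρ S.hρ S.hin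
  obtain ⟨hp, -⟩ := S.cyc h𝔓 hg
  obtain ⟨l, h1, h2, h3, h4⟩ := Pool.Agent.Y71.H.ram1E Pool.Agent.Y363.G.t_RAM1 hG hp
    (pow_orderOf_eq_one g) hg.1 h𝔓 hne (isW_mem hg).1
  refine ⟨l, ⟨hp, S.χ0, S.χa, S.act g, fun o => S.hρ g (o : M), ?_, h𝔓, hne, ?_, h1, h2,
    h3⟩⟩
  · rw [← sA_pow, pow_orderOf_eq_one, sA_one]
  · by_contra hl
    have hl0 : l = 0 := by omega
    subst hl0
    obtain ⟨π, hπ, h5⟩ := h2
    exact h5 ((isW_mem hg).2 π hπ)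

lemma TSH.sp (S : TSH ρ χ Δ) (g : M ≃ₐ[E] M) : sA Λ g ^ orderOf g = 1 := by
  rw [← sA_pow, pow_orderOf_eq_one, sA_one]

/-- The filtrations of the elements of the wild inertia group agree. -/
lemma TSH.wg [IsGalois E M] (S : TSH ρ χ Δ) {𝔓 : Ideal (𝓞 M)} (h𝔓 : 𝔓.IsMaximal)
    {g g' : M ≃ₐ[E] M} (hg : IsW E 𝔓 g) (hg' : IsW E 𝔓 g') :
    orderOf g = orderOf g' ∧ ∀ k u, u ∈ WG ρ χ Δ g k ↔ u ∈ WG ρ χ Δ g' k := by
  obtain ⟨hp, h1⟩ := S.cyc h𝔓 hg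
  obtain ⟨hp', h1'⟩ := S.cyc h𝔓 hg'
  obtain ⟨a, ha⟩ := h1 g' hg'
  obtain ⟨a', ha'⟩ := h1' g hg
  have ho : orderOf g = orderOf g' := by
    have := Fact.mk hp
    symm
    refine orderOf_eq_prime ?_ hg'.1
    rw [ha, ← pow_mul, mul_comm, pow_mul, pow_orderOf_eq_one, one_pow]
  refine ⟨ho, fun k u => ⟨fun hu => ?_, fun hu => ?_⟩⟩
  · refine WW_power (S.sp g') (S.act g') (S.st g') (fun x hx => S.tf _ hp'.ne_zero x hx) a'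
      (σ' := rh ρ g) (s' := sA Λ g) ?_ ?_ k ?_
    · conv_lhs => rw [ha']
      rw [sA_pow]
    · intro x
      conv_lhs => rw [ha']
      rw [rh_pow]
    · rw [← ho]; exact hu
  · refine WW_power (S.sp g) (S.act g) (S.st g) (fun x hx => S.tf _ hp.ne_zero x hx) a
      (σ' := rh ρ g') (s' := sA Λ g') ?_ ?_ k ?_
    · conv_lhs => rw [ha]
      rw [sA_pow]
    · intro x
      conv_lhs => rw [ha]
      rw [rh_pow]
    · rw [ho]; exact hu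

lemma DV_iffH {𝔓 : Ideal (𝓞 M)} {g : M ≃ₐ[E] M} {p l : ℕ} {σ : K →+* K} {s : Module.End ℤ Λ}
    (h : TD0 (𝓞 M) K Λ p σ (th' E g) s χ 𝔓 l) (n : ℕ) : DV E 𝔓 g n ↔ n ≤ l + 1 := by
  constructor
  · intro h1
    by_contra hcon
    obtain ⟨π, hπ, h2⟩ := h.un
    exact h2 (Ideal.pow_le_pow_right (by omega) (h1 π))
  · intro h1 o
    exact Ideal.pow_le_pow_right h1 (h.dv o)

/-- The depths of the elements of the wild inertia group agree. -/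
lemma TSH.dvg [IsGalois E M] (S : TSH ρ χ Δ) {𝔓 : Ideal (𝓞 M)} (h𝔓 : 𝔓.IsMaximal)
    {g g' : M ≃ₐ[E] M} (hg : IsW E 𝔓 g) (hg' : IsW E 𝔓 g') (n : ℕ) : DV E 𝔓 g n ↔ DV E 𝔓 g' n := by
  obtain ⟨-, h1⟩ := S.cyc h𝔓 hg
  obtain ⟨-, h1'⟩ := S.cyc h𝔓 hg'
  obtain ⟨a, ha⟩ := h1 g' hg'
  obtain ⟨a', ha'⟩ := h1' g hg
  constructor
  · intro h
    rw [ha]
    exact DV_pow h a
  · intro h
    rw [ha']
    exact DV_pow h a'

lemma TSH.leq [IsGalois E M] (S : TSH ρ χ Δ) {𝔓 : Ideal (𝓞 M)} (h𝔓 : 𝔓.IsMaximal)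
    {g g' : M ≃ₐ[E] M} (hg : IsW E 𝔓 g) (hg' : IsW E 𝔓 g') {l l' : ℕ}
    (h : TD0 (𝓞 M) K Λ (orderOf g) (rh ρ g) (th' E g) (sA Λ g) χ 𝔓 l)
    (h' : TD0 (𝓞 M) K Λ (orderOf g') (rh ρ g') (th' E g') (sA Λ g') χ 𝔓 l') : l = l' := by
  have h1 := (DV_iffH h' (l + 1)).1 ((S.dvg h𝔓 hg hg' _).1 ((DV_iffH h (l + 1)).2 le_rfl))
  have h2 := (DV_iffH h (l' + 1)).1 ((S.dvg h𝔓 hg hg' _).2 ((DV_iffH h' (l' + 1)).2 le_rfl))
  omega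

open Classical in
/-- The chosen depth. -/
noncomputable def l0H (ρ : (M ≃ₐ[E] M) →* (K ≃ₐ[E] K)) (χ : Λ → K) (𝔓 : Ideal (𝓞 M)) : ℕ :=
  if h : ∃ l, TD0 (𝓞 M) K Λ (orderOf (g0 E 𝔓)) (rh ρ (g0 E 𝔓)) (th' E (g0 E 𝔓))
    (sA Λ (g0 E 𝔓)) χ 𝔓 l then h.choose else 0

lemma TSH.l0_spec [IsGalois E M] (S : TSH ρ χ Δ) {𝔓 : Ideal (𝓞 M)} (h𝔓 : 𝔓.IsMaximal)
    {g : M ≃ₐ[E] M} (hg : IsW E 𝔓 g) :
    TD0 (𝓞 M) K Λ (orderOf (g0 E 𝔓)) (rh ρ (g0 E 𝔓)) (th' E (g0 E 𝔓)) (sA Λ (g0 E 𝔓)) χ 𝔓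
      (l0H ρ χ 𝔓) := by
  have h := S.td h𝔓 (g0_spec hg)
  unfold l0H
  rw [dif_pos h]
  exact h.choose_spec

lemma TSH.l0_spec' [IsGalois E M] (S : TSH ρ χ Δ) {𝔓 : Ideal (𝓞 M)} (h𝔓 : 𝔓.IsMaximal)
    {g : M ≃ₐ[E] M} (hg : IsW E 𝔓 g) :
    TD0 (𝓞 M) K Λ (orderOf g) (rh ρ g) (th' E g) (sA Λ g) χ 𝔓 (l0H ρ χ 𝔓) := by
  obtain ⟨l, hl⟩ := S.td h𝔓 hg
  rw [S.leq h𝔓 (g0_spec hg) hg (S.l0_spec h𝔓 hg) hl]
  exact hl

/-- The weights of the coordinates. -/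
noncomputable def weiH (ρ : (M ≃ₐ[E] M) →* (K ≃ₐ[E] K)) (χ : Λ → K) (Δ : Set Λ) {m : ℕ}
    (z : Fin (m + 1) → K) (𝔓 : Ideal (𝓞 M)) (i : Fin (m + 1)) : ℕ :=
  kap ρ χ Δ z 𝔓 i * l0H ρ χ 𝔓

variable {m : ℕ} {z : Fin (m + 1) → K}

lemma ZGzw (Z : ZG ρ χ Δ z) (𝔓 : Ideal (𝓞 M)) :
    ZW χ (rh ρ (g0 E 𝔓)) (orderOf (g0 E 𝔓)) (sA Λ (g0 E 𝔓)) (l0H ρ χ 𝔓) Δ z (weiH ρ χ Δ z 𝔓)
      (kap ρ χ Δ z 𝔓) := by
  classical
  refine ⟨Z.z0, fun i => Nat.findGreatest_le _, fun i => ?_, fun i => rfl, fun k hk => ?_⟩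
  · unfold kap
    exact Nat.findGreatest_spec (P := fun k => z i ∈ WG ρ χ Δ (g0 E 𝔓) k)
      (Nat.zero_le (orderOf (g0 E 𝔓) - 1)) (Z.zs i)
  · refine (Z.sp (g0 E 𝔓) k (by omega)).trans (Submodule.span_mono ?_)
    rintro y ⟨i, hi, rfl⟩
    refine ⟨i, ?_, rfl⟩
    unfold kap
    exact Nat.le_findGreatest hk hi

lemma ZGzw' [IsGalois E M] (S : TSH ρ χ Δ) (Z : ZG ρ χ Δ z) {𝔓 : Ideal (𝓞 M)}
    (h𝔓 : 𝔓.IsMaximal) {g : M ≃ₐ[E] M} (hg : IsW E 𝔓 g) :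
    ZW χ (rh ρ g) (orderOf g) (sA Λ g) (l0H ρ χ 𝔓) Δ z (weiH ρ χ Δ z 𝔓) (kap ρ χ Δ z 𝔓) := by
  obtain ⟨h1, h2⟩ := S.wg h𝔓 (g0_spec hg) hg
  have h3 := ZGzw Z 𝔓
  have h4 : ∀ p, orderOf (g0 E 𝔓) = p →
      (∀ k u, u ∈ WG ρ χ Δ (g0 E 𝔓) k ↔ u ∈ WW χ (rh ρ g) p (sA Λ g) Δ k) →
      ZW χ (rh ρ g) p (sA Λ g) (l0H ρ χ 𝔓) Δ z (weiH ρ χ Δ z 𝔓) (kap ρ χ Δ z 𝔓) := by
    rintro p rfl h
    exact h3.change h
  exact h4 _ h1 h2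

lemma WG_conjH (S : TSH ρ χ Δ) (h g : M ≃ₐ[E] M) (k : ℕ) {u : K} (hu : u ∈ WG ρ χ Δ g k) :
    ρ h u ∈ WG ρ χ Δ (h * g * h⁻¹) k := by
  have ho : orderOf (h * g * h⁻¹) = orderOf g := by
    have := (MulAut.conj h).orderOf_eq g
    rw [MulAut.conj_apply] at this
    exact this
  have h1 := WW_conj (σ := rh ρ g) (σ' := rh ρ (h * g * h⁻¹)) (η := rh ρ h) (s := sA Λ g)
    (s' := sA Λ (h * g * h⁻¹)) (r := sA Λ h) (S.act h) (S.st h) (by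
      rw [← sA_mul, ← sA_mul, inv_mul_cancel_right]) (fun x => by
      rw [rh_apply, rh_apply, rh_apply, rh_apply, ← AlgEquiv.mul_apply, ← AlgEquiv.mul_apply,
        ← map_mul, ← map_mul, inv_mul_cancel_right]) k hu
  unfold WG
  rw [ho]
  exact h1

/-- **The hypotheses on the weights.** -/
theorem TSH.data [IsGalois E M] (S : TSH ρ χ Δ) (Z : ZG ρ χ Δ z) :
    DATA ρ z (fun _ => 1) (weiH ρ χ Δ z) := by
  refine ⟨fun _ => Nat.one_pos, ?_, ?_, ?_⟩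
  · intro 𝔓 g h𝔓 hg j
    exact ZWreg (ZGzw' S Z h𝔓 hg) (S.l0_spec' h𝔓 hg) (S.st g) S.fin
      (S.vf 𝔓 g _ h𝔓 hg (S.l0_spec' h𝔓 hg)) j
  · intro 𝔓 g h𝔓 hg h 𝔓' hh
    refine ⟨rfl, fun i j => ?_⟩
    have h𝔓' := isCj_max hh h𝔓
    have hg0 := g0_spec hg
    have hg1 := isW_conj hh hg0
    have hg2 := g0_spec hg1
    obtain ⟨ho, hw⟩ := S.wg h𝔓' hg1 hg2
    have ho' : orderOf (h * g0 E 𝔓 * h⁻¹) = orderOf (g0 E 𝔓) := by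
      have := (MulAut.conj h).orderOf_eq (g0 E 𝔓)
      rw [MulAut.conj_apply] at this
      exact this
    have hl : l0H ρ χ 𝔓' = l0H ρ χ 𝔓 := by
      have t1 := S.l0_spec' h𝔓' hg1
      have t2 := S.l0_spec h𝔓 hg
      have e1 := (DV_iffH t1 (l0H ρ χ 𝔓 + 1)).1 (DV_conj hh ((DV_iffH t2 _).2 le_rfl))
      have hh' : IsCj h⁻¹ 𝔓' 𝔓 := by
        intro o o' ho'
        have h5 : o' = TT E M h⁻¹ o := by
          apply RingOfIntegers.coe_injective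
          exact ho'
        have h6 := isCj_pow hh 1 o'
        rw [pow_one, pow_one, h5, TT_inv] at h6
        rw [h5]
        exact h6.symm
      have e2 := DV_conj hh' ((DV_iffH t1 (l0H ρ χ 𝔓' + 1)).2 le_rfl)
      have e3 : h⁻¹ * (h * g0 E 𝔓 * h⁻¹) * h⁻¹⁻¹ = g0 E 𝔓 := by group
      rw [e3] at e2
      have e4 := (DV_iffH t2 _).1 e2
      omega
    have h1 := (hw _ _).1 (WG_conjH S h _ _ ((ZGzw Z 𝔓).zw i))
    have h2 := (ZGzw Z 𝔓').mem_W (𝔓 := 𝔓') (j := j) (k := kap ρ χ Δ z 𝔓 i) (by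
      rw [← ho, ho']
      exact (ZGzw Z 𝔓).kp i) h1
    rw [hl] at h2
    exact h2
  · intro 𝔓 g h𝔓 hg
    have t := S.l0_spec' h𝔓 hg
    refine ⟨l0H ρ χ 𝔓, l0H ρ χ 𝔓, t.l1, by rw [one_mul], fun o => ⟨_, t.dv o, rfl⟩, ?_, ?_⟩
    · intro i j
      exact ZWd (ZGzw' S Z h𝔓 hg) t (S.st g) (S.vf 𝔓 g _ h𝔓 hg t) i j
    · intro j
      exact ZWnf (ZGzw' S Z h𝔓 hg) t (S.st g) (S.vf 𝔓 g _ h𝔓 hg t) j

/-- **The coordinates.** -/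
theorem TSH.exists_z (S : TSH ρ χ Δ) : ∃ (m : ℕ) (z : Fin (m + 1) → K), ZG ρ χ Δ z := by
  classical
  have _ : Fintype (M ≃ₐ[E] M) := Fintype.ofFinite _
  have hfg : ∀ (g : M ≃ₐ[E] M) (k : ℕ), (WG ρ χ Δ g k).FG := fun g k => WW_fg S.fin k
  choose G hG using hfg
  obtain ⟨ZS, hZS⟩ : ∃ ZS : Finset K, ZS = (Finset.univ.biUnion fun g : M ≃ₐ[E] M =>
    (Finset.range (orderOf g + 1)).biUnion fun k => G g k).filter (· ≠ 0) := ⟨_, rfl⟩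
  have memZ : ∀ x, x ∈ ZS ↔ (∃ g k, k ≤ orderOf g ∧ x ∈ G g k) ∧ x ≠ 0 := by
    intro x
    rw [hZS, Finset.mem_filter, Finset.mem_biUnion]
    constructor
    · rintro ⟨⟨g, -, h⟩, h0⟩
      rw [Finset.mem_biUnion] at h
      obtain ⟨k, hk, h⟩ := h
      rw [Finset.mem_range] at hk
      exact ⟨⟨g, k, by omega, h⟩, h0⟩
    · rintro ⟨⟨g, k, hk, h⟩, h0⟩
      refine ⟨⟨g, Finset.mem_univ _, ?_⟩, h0⟩
      rw [Finset.mem_biUnion]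
      exact ⟨k, Finset.mem_range.2 (by omega), h⟩
  have hmem : ∀ g k x, x ∈ G g k → x ∈ WG ρ χ Δ g k := by
    intro g k x hx
    rw [← hG g k]
    exact Submodule.subset_span hx
  have hcard : 0 < ZS.card := by
    rw [Finset.card_pos]
    obtain ⟨m, hm⟩ := S.ne
    by_contra hcon
    rw [Finset.not_nonempty_iff_eq_empty] at hcon
    have h1 : ∀ x ∈ G (1 : M ≃ₐ[E] M) 0, x = 0 := by
      intro x hx
      by_contra h0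
      have h2 := (memZ x).2 ⟨⟨1, 0, Nat.zero_le _, hx⟩, h0⟩
      rw [hcon] at h2
      exact absurd h2 (Finset.notMem_empty _)
    have h2 : χ m ∈ WG ρ χ Δ (1 : M ≃ₐ[E] M) 0 := chi_WW hm
    rw [← hG] at h2
    have h3 : Submodule.span ℤ (G (1 : M ≃ₐ[E] M) 0 : Set K) ≤ ⊥ := by
      rw [Submodule.span_le]
      intro x hx
      exact h1 x hx
    exact chi_ne S.χ0 S.χa m (h3 h2)
  obtain ⟨m, hm⟩ : ∃ m, ZS.card = m + 1 := ⟨_, (Nat.sub_add_cancel hcard).symm⟩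
  let e : Fin (m + 1) ≃ ZS := (finCongr hm.symm).trans ZS.equivFin.symm
  have hz : ∀ i, ((e i : ZS) : K) ∈ ZS := fun i => (e i).2
  refine ⟨m, fun i => (e i : K), ⟨fun i => ((memZ _).1 (hz i)).2, fun i => ?_, fun g k hk => ?_⟩⟩
  · obtain ⟨⟨g, k, hk, h⟩, -⟩ := (memZ _).1 (hz i)
    exact WW_mono (S.sp g) (S.act g) (S.st g) (Nat.zero_le k) (hmem g k _ h)
  · intro u hu
    have hu' := hu
    rw [← hG g k] at hu'
    refine Submodule.span_le.2 ?_ hu'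
    intro x hx
    by_cases h0 : x = 0
    · rw [h0]
      exact Submodule.zero_mem _
    · have h1 : x ∈ ZS := (memZ x).2 ⟨⟨g, k, hk, hx⟩, h0⟩
      refine Submodule.subset_span ⟨e.symm ⟨x, h1⟩, ?_, ?_⟩
      · rw [Equiv.apply_symm_apply]
        exact hmem g k x hx
      · rw [Equiv.apply_symm_apply]

lemma ZGspan (Z : ZG ρ χ Δ z) : Submodule.span ℤ (χ '' Δ) ≤ Submodule.span ℤ (Set.range z) := by
  have h1 := Z.sp 1 0 (Nat.zero_le _)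
  refine le_trans h1 (Submodule.span_mono ?_)
  rintro _ ⟨i, -, rfl⟩
  exact ⟨i, rfl⟩

/-- The coordinates generate the function field. -/
lemma ZGgen (S : TSH ρ χ Δ) (Z : ZG ρ χ Δ z)
    (hgen : IntermediateField.adjoin M (Set.range χ) = ⊤) :
    IntermediateField.adjoin M (Set.range fun j => z j / z 0) = ⊤ := by
  rw [eq_top_iff, ← hgen]
  rw [IntermediateField.adjoin_le_iff]
  obtain ⟨L, hL⟩ : ∃ L : IntermediateField M K,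
    L = IntermediateField.adjoin M (Set.range fun j => z j / z 0) := ⟨_, rfl⟩
  rw [← hL]
  have h1 : ∀ u ∈ Submodule.span ℤ (Set.range z), u / z 0 ∈ L := by
    intro u hu
    induction hu using Submodule.span_induction with
    | mem x hx =>
      obtain ⟨i, rfl⟩ := hx
      rw [hL]
      exact IntermediateField.subset_adjoin _ _ ⟨i, rfl⟩
    | zero => rw [zero_div]; exact L.zero_mem
    | add x y _ _ hx hy => rw [add_div]; exact L.add_mem hx hy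
    | smul c x _ hx =>
      rw [zsmul_eq_mul, mul_div_assoc]
      exact L.mul_mem (intCast_mem L c) hx
  have h2 : ∀ x ∈ Δ, χ x / z 0 ∈ L := fun x hx =>
    h1 _ (ZGspan Z (Submodule.subset_span ⟨x, hx, rfl⟩))
  obtain ⟨ι, _, v, b, hvm, hvb⟩ := S.bs
  have hv0 := chi_ne S.χ0 S.χa v
  have h3 : ∀ i, χ (b i) ∈ L := by
    intro i
    have h4 : χ (b i) = (χ (v + b i) / z 0) / (χ v / z 0) := by
      have := Z.z0 0
      rw [S.χa]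
      field_simp
    rw [h4]
    exact L.div_mem (h2 _ (hvb i)) (h2 _ hvm)
  rintro _ ⟨x, rfl⟩
  rw [← b.sum_repr x, chi_sum S.χ0 S.χa]
  refine prod_mem fun i _ => ?_
  rw [chi_zsmul S.χ0 S.χa]
  exact zpow_mem (h3 i) _

lemma ZGlin (S : TSH ρ χ Δ) (Z : ZG ρ χ Δ z) (g : M ≃ₐ[E] M) (j : Fin (m + 1)) :
    ρ g (z j) ∈ Submodule.span (𝓞 M) (Set.range z) := by
  have h1 : ρ g (z j) ∈ Submodule.span ℤ (χ '' Δ) := by
    have h2 := Z.zs j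
    generalize z j = u at h2
    induction h2 using Submodule.span_induction with
    | mem x hx =>
      obtain ⟨m, hm, rfl⟩ := hx
      rw [S.act]
      exact Submodule.subset_span ⟨g • m, S.st g m hm, rfl⟩
    | zero => rw [map_zero]; exact Submodule.zero_mem _
    | add x y _ _ hx hy => rw [map_add]; exact Submodule.add_mem _ hx hy
    | smul c x _ hx =>
      rw [zsmul_eq_mul, map_mul, map_intCast, ← zsmul_eq_mul]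
      exact Submodule.smul_mem _ _ hx
  exact Submodule.span_subset_span ℤ (𝓞 M) _ (ZGspan Z h1)

lemma ZGhreg (S : TSH ρ χ Δ) (Z : ZG ρ χ Δ z) (j : Fin (m + 1)) :
    IsRegularRing (Algebra.adjoin (𝓞 M) (Set.range fun i => z i / z j)) := by
  rw [(ZGzw Z (⊥ : Ideal (𝓞 M))).cg (S.sp _) (S.act _) (S.st _) j]
  exact CG0_regP S.χ0 S.χa S.fin S.cr (Z.z0 j) (Z.zs j)

variable {F : Type} [Field F] [Algebra E F] [Algebra F K] [IsScalarTower E F K]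

/-- **The data of the theorem on weighted blowups.** -/
theorem TSH.wwd [IsGalois E M] (S : TSH ρ χ Δ)
    (hgen : IntermediateField.adjoin M (Set.range χ) = ⊤)
    (hfix : ∀ x, (∀ g, ρ g x = x) ↔ ∃ y : F, algebraMap F K y = x) :
    ∃ (m : ℕ) (z : Fin (m + 1) → K), WWD E M F K ρ z := by
  obtain ⟨m, z, Z⟩ := S.exists_z
  exact ⟨m, z, wwd_of Pool.Agent.Y223.G.all_TAMC ρ S.hρ hfix S.hin z Z.z0 (ZGgen S Z hgen)
    (ZGlin S Z) (ZGhreg S Z) _ _ (S.data Z)⟩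


end nf

end Pool.Agent.T9h3.H
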