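import Pool.Agent.T9h3.H.Reg

/-!
# Regularity of the charts of a hypersurface in a toric scheme
-/

set_option autoImplicit false
set_option linter.unusedSectionVars false

namespace Pool.Agent.T9h3.H

open Pool.Agent.Y223.G Pool.Agent.T9h3 MvPolynomial Algebra IsLocalRing

section lin

variable {O Λ : Type} [CommRing O] [AddCommGroup Λ]

lemma cx_lin : LinearIndependent O (cx O : Λ → AA O Λ) := by
  rw [linearIndependent_iff]
  intro f hf
  ext x
  have h1 : Finsupp.linearCombination O (cx O : Λ → AA O Λ) f = AddMonoidAlgebra.ofCoeff f := by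
    induction f using Finsupp.induction_linear with
    | zero => rw [map_zero]; rfl
    | add f g hf' hg' =>
      have key : ∀ f : Λ →₀ O, Finsupp.linearCombination O (cx O : Λ → AA O Λ) f =
          AddMonoidAlgebra.ofCoeff f := by
        intro f
        rw [Finsupp.linearCombination_apply]
        have h2 : ∀ x (o : O), o • cx O x = (AddMonoidAlgebra.single x o : AA O Λ) := by
          intro x o
          unfold cx
          rw [AddMonoidAlgebra.smul_single, smul_eq_mul, mul_one]
        simp only [h2]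
        exact AddMonoidAlgebra.sum_coeff_single (AddMonoidAlgebra.ofCoeff f)
      exact key _
    | single x o =>
      rw [Finsupp.linearCombination_single]
      unfold cx
      rw [AddMonoidAlgebra.smul_single, smul_eq_mul, mul_one]
      rfl
  rw [h1] at hf
  have h2 := congrArg (fun g : AA O Λ => g.coeff x) hf
  exact h2

end lin

section czr

variable {O K Λ ι : Type} [CommRing O] [IsDomain O] [IsDedekindDomain O] [Field K]
  [Algebra O K] [AddCommGroup Λ] [Fintype ι]
  {φ : AA O Λ →ₐ[O] K} {χ : Λ → K} {σ : K →+* K} {t : O →+* O} {s : Module.End ℤ Λ}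
  {Δ : Set Λ} {v : Λ} {b : Module.Basis ι ℤ Λ}
  {c : ℕ} {F : Fin c → AA O Λ} {u : Fin c → Λ}

lemma ev_eA (e : ∀ x, φ (cx O x) = χ x) (f : MvPolynomial ι O) : ev O χ b f = φ (eA b f) := by
  induction f using MvPolynomial.induction_on with
  | C o => rw [ev_C, eA_C, AlgHom.commutes]
  | add f g hf hg => rw [map_add, map_add, map_add, hf, hg]
  | mul_X f i hf =>
    rw [map_mul, map_mul, map_mul, hf, ev_X]
    unfold eA
    rw [aeval_X, e]

/-- Denominators. -/
lemma den (hφ : ∀ x, φ (cx O x) = χ x) (h0 : χ 0 = 1) (ha : ∀ x y, χ (x + y) = χ x * χ y)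
    (b : Module.Basis ι ℤ Λ) (y : AA O Λ) :
    ∃ m y' : MvPolynomial ι O, φ (eA b m) ≠ 0 ∧ eA b m * y = eA b y' := by
  induction y using AA_ind with
  | h0 => exact ⟨1, 0, by rw [map_one, map_one]; exact one_ne_zero, by rw [mul_zero, map_zero]⟩
  | hadd f g hf hg =>
    obtain ⟨m, f', h1, h2⟩ := hf
    obtain ⟨n, g', h3, h4⟩ := hg
    refine ⟨m * n, n * f' + m * g', ?_, ?_⟩
    · rw [map_mul, map_mul]
      exact mul_ne_zero h1 h3
    · rw [map_mul, map_add, map_mul, map_mul, ← h2, ← h4]
      ring
  | hs o x =>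
    refine ⟨mon O b (-x), C o * mon O b x, ?_, ?_⟩
    · rw [← mon_pp, eA_mon (fun i => by rw [repr_pp]; exact Int.natCast_nonneg _), hφ]
      exact chi_ne h0 ha _
    · rw [map_mul, eA_C, ← mon_pp, ← mon_pp b x,
        eA_mon (fun i => by rw [repr_pp]; exact Int.natCast_nonneg _),
        eA_mon (fun i => by rw [repr_pp]; exact Int.natCast_nonneg _)]
      have h2 : pp b x = pp b (-x) + x := by
        rw [add_comm, ← sub_eq_iff_eq_add, sub_pp]
      rw [h2, cx_add]
      ring

/-- **The charts of the complete intersection are regular.** -/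
theorem CG0_regH (hφ : ∀ x, φ (cx O x) = χ x)
    (h0 : χ 0 = 1) (ha : ∀ x y, χ (x + y) = χ x * χ y)
    (hinj : Function.Injective (eA (O := O) b)) (H : HK φ F) (hc : CD Δ v b)
    (hu : MN b F u) (hR : RG F) : IsRegularRing (CG0 O χ Δ (χ v)) := by
  classical
  rw [CG0_vertex h0 ha hc]
  obtain ⟨ae, hae⟩ : ∃ ae : MvPolynomial ι O →ₐ[O] K, ae = aeval (fun i => χ (b i)) := ⟨_, rfl⟩
  rw [← hae]
  have hev : ∀ f, ae f = φ (eA b f) := by
    intro f
    rw [hae]
    exact ev_eA hφ f
  have hN : IsNoetherianRing ae.range := by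
    have hft : Algebra.FiniteType O ae.range :=
      Algebra.FiniteType.of_surjective ae.rangeRestrict ae.rangeRestrict_surjective
    exact Algebra.FiniteType.isNoetherianRing O _
  rw [isRegularRing_iff]
  intro PP hq
  obtain ⟨G, hGdef⟩ : ∃ G : Fin c → MvPolynomial ι O, ∀ r, G r = FW b (F r) (u r) :=
    ⟨_, fun r => rfl⟩
  have hG0 : ∀ r, ae.rangeRestrict (G r) = 0 := by
    intro r
    apply Subtype.ext
    change ae (G r) = 0
    rw [hev, hGdef, eA_FW (hu.p r), map_mul, H.z, zero_mul]
  refine lemQ ae.rangeRestrict.toRingHom ae.rangeRestrict_surjective G hG0 ?_ PP ?_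
  · intro x hx
    have h1 : φ (eA b x) = 0 := by
      rw [← hev]
      exact congrArg (fun z : ae.range => (z : K)) hx
    obtain ⟨d, hd0, hd⟩ := H.k _ h1
    obtain ⟨y, hy⟩ := (mem_span_iff _ _).1 hd
    choose m y' h2 h3 using fun r => den (χ := χ) hφ h0 ha b (cx O (u r) * y r)
    refine ⟨(∏ r, m r) * C d, ?_, ?_⟩
    · intro h
      have h4 : ae ((∏ r, m r) * C d) = 0 := congrArg (fun z : ae.range => (z : K)) h
      rw [hev, map_mul, map_mul, eA_C, AlgHom.commutes, map_prod, map_prod] at h4
      rcases mul_eq_zero.1 h4 with h5 | h5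
      · exact Finset.prod_ne_zero_iff.2 (fun r _ => h2 r) h5
      · exact hd0 (H.inj (by rw [h5, map_zero]))
    · rw [mem_span_iff]
      refine ⟨fun r => (∏ i ∈ Finset.univ.erase r, m i) * y' r, ?_⟩
      apply hinj
      rw [map_mul, map_mul, map_sum, eA_C, mul_assoc, hy, Finset.mul_sum]
      refine Finset.sum_congr rfl fun r _ => ?_
      rw [map_mul, map_mul, hGdef, eA_FW (hu.p r), ← h3,
        ← Finset.mul_prod_erase _ _ (Finset.mem_univ r), map_mul]
      have h4 := cx_neg_mul (O := O) (u r)
      linear_combination (-F r * eA b (m r) * eA b (∏ i ∈ Finset.univ.erase r, m i) *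
        y r) * h4
  · intro d hd
    have hP : (PP.comap ae.rangeRestrict.toRingHom).IsPrime := Ideal.comap_isPrime _ _
    intro r
    refine reg_pt hR hu (PP.comap ae.rangeRestrict.toRingHom) (fun r => ?_) d ?_ r
    · rw [← hGdef, Ideal.mem_comap]
      change ae.rangeRestrict (G r) ∈ PP
      rw [hG0]
      exact PP.zero_mem
    · simp only [← hGdef]
      exact hd

end czr

end Pool.Agent.T9h3.H
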