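import Pool.Agent.T9h3.H.Map

/-!
# Derivations of the graded algebra, and the kernel of the evaluation
-/

set_option autoImplicit false
set_option linter.unusedSectionVars false

namespace Pool.Agent.T9h3.H

open Pool.Agent.Y223.G Pool.Agent.T9h3 MvPolynomial

section der

variable {O Λ : Type} [CommRing O] [AddCommGroup Λ] {t : O →+* O} {s : Module.End ℤ Λ}
  {p : ℕ} {𝔓 : Ideal O} {l : ℕ} {Δ : Set Λ} {v : Λ}

/-- The derivation as an additive map. -/
noncomputable def Dh (w : Λ →ₗ[ℤ] ℤ) : AA O Λ →+ AA O Λ where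
  toFun := Dw w
  map_zero' := by unfold Dw; rw [map_zero, TrivSqZeroExt.snd_zero]
  map_add' := Dw_add w

lemma Dh_apply (w : Λ →ₗ[ℤ] ℤ) (f : AA O Λ) : Dh w f = Dw w f := rfl

lemma Dw_zsmul (w : Λ →ₗ[ℤ] ℤ) (c : ℤ) (f : AA O Λ) : Dw w (c • f) = c • Dw w f := by
  rw [← Dh_apply, map_zsmul, Dh_apply]

lemma Nm_inv {w : Λ →ₗ[ℤ] ℤ} (hw : ∀ x, w (s x) = w x) (x : Λ) : w (Nm p s x) = p * w x := by
  have h1 : ∀ i : ℕ, w ((s ^ i) x) = w x := by
    intro i
    induction i with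
    | zero => rfl
    | succ i ih => rw [pow_succ', Module.End.mul_apply, hw, ih]
  unfold Nm
  rw [LinearMap.sum_apply, map_sum, Finset.sum_congr rfl fun i _ => h1 i, Finset.sum_const,
    Finset.card_range, nsmul_eq_mul]

lemma Dw_W1 {w : Λ →ₗ[ℤ] ℤ} (hp : p ≠ 0) (hw : ∀ x, w (s x) = w x) {u : AA O Λ}
    (hu : u ∈ W1A O p s Δ) : Dw w u ∈ W1A O p s Δ := by
  unfold W1A at hu
  induction hu using Submodule.span_induction with
  | mem x hx =>
    obtain ⟨m, hm, m', hm', hN, rfl⟩ := hx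
    have h1 : w m = w m' := by
      have h2 : (p : ℤ) * w m = p * w m' := by rw [← Nm_inv hw, ← Nm_inv hw, hN]
      have h3 : (p : ℤ) ≠ 0 := by exact_mod_cast hp
      exact mul_left_cancel₀ h3 h2
    have h2 : Dw w (cx O m - cx O m') = w m • (cx O m - cx O m') := by
      rw [← Dh_apply, map_sub, Dh_apply, Dh_apply, Dw_cx, Dw_cx, ← h1, ← mul_sub, zsmul_eq_mul]
    rw [h2]
    exact Submodule.smul_mem _ _ (Submodule.subset_span ⟨m, hm, m', hm', hN, rfl⟩)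
  | zero => rw [← Dh_apply, map_zero]; exact Submodule.zero_mem _
  | add x y _ _ hx hy => rw [Dw_add]; exact Submodule.add_mem _ hx hy
  | smul c x _ hx => rw [Dw_zsmul]; exact Submodule.smul_mem _ _ hx

lemma Dw_dA {w : Λ →ₗ[ℤ] ℤ} (hw : ∀ x, w (s x) = w x) (k : ℕ) (f : AA O Λ) :
    Dw w ((dA t s ^ k) f) = (dA t s ^ k) (Dw w f) := by
  induction k with
  | zero => rfl
  | succ k ih =>
    rw [pow_succ', Module.End.mul_apply, Module.End.mul_apply, dA_apply, dA_apply, ← ih,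
      ← Dh_apply, map_sub, Dh_apply, Dh_apply, Dw_sg t hw]

lemma Dw_WW {w : Λ →ₗ[ℤ] ℤ} (hp : p ≠ 0) (hw : ∀ x, w (s x) = w x) {k : ℕ} {u : AA O Λ}
    (hu : u ∈ WWA t p s Δ k) : Dw w u ∈ WWA t p s Δ k := by
  rcases k with _ | k
  · unfold WWA at hu ⊢
    induction hu using Submodule.span_induction with
    | mem x hx =>
      obtain ⟨m, hm, rfl⟩ := hx
      rw [Dw_cx, ← zsmul_eq_mul]
      exact Submodule.smul_mem _ _ (Submodule.subset_span ⟨m, hm, rfl⟩)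
    | zero => rw [← Dh_apply, map_zero]; exact Submodule.zero_mem _
    | add x y _ _ hx hy => rw [Dw_add]; exact Submodule.add_mem _ hx hy
    | smul c x _ hx => rw [Dw_zsmul]; exact Submodule.smul_mem _ _ hx
  · obtain ⟨f, hf, rfl⟩ := hu
    rw [Dw_dA hw]
    exact ⟨_, Dw_W1 hp hw hf, rfl⟩

lemma RA_s : hl (-1) 1 ∈ RA t p s 𝔓 l Δ v := Algebra.subset_adjoin (Or.inl (Or.inl rfl))

lemma RA_P {a : O} (ha : a ∈ 𝔓) : hl 1 (algebraMap O (AA O Λ) a) ∈ RA t p s 𝔓 l Δ v :=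
  Algebra.subset_adjoin (Or.inl (Or.inr ⟨a, ha, rfl⟩))

lemma RA_W {k : ℕ} (hk : k ≤ p - 1) {u : AA O Λ} (hu : u ∈ WWA t p s Δ k) :
    hl (k * l : ℕ) (u * cx O (-v)) ∈ RA t p s 𝔓 l Δ v :=
  Algebra.subset_adjoin (Or.inr ⟨k, hk, u, hu, rfl⟩)

lemma RA_O (a : O) : hl 0 (algebraMap O (AA O Λ) a) ∈ RA t p s 𝔓 l Δ v :=
  (RA t p s 𝔓 l Δ v).algebraMap_mem a

/-- **The graded algebra is stable under the invariant derivations.** -/
theorem RA_D {w : Λ →ₗ[ℤ] ℤ} (hp : p ≠ 0) (hw : ∀ x, w (s x) = w x)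
    {f : AddMonoidAlgebra (AA O Λ) ℤ} (hf : f ∈ RA t p s 𝔓 l Δ v) :
    DL (Dh w) f ∈ RA t p s 𝔓 l Δ v := by
  have hC : ∀ a : O, Dh w (algebraMap O (AA O Λ) a) = 0 := fun a => by rw [Dh_apply, Dw_C]
  have h1 : Dh w (1 : AA O Λ) = 0 := by
    have := hC 1
    rwa [map_one] at this
  have hf' : f ∈ Algebra.adjoin O ({hl (-1) 1} ∪
      {f | ∃ a ∈ 𝔓, f = hl 1 (algebraMap O (AA O Λ) a)} ∪
      {f | ∃ k, k ≤ p - 1 ∧ ∃ u ∈ WWA t p s Δ k, f = hl (k * l : ℕ) (u * cx O (-v))}) := hf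
  clear hf
  induction hf' using Algebra.adjoin_induction with
  | mem f hf =>
    rcases hf with (hf | ⟨a, ha, rfl⟩) | ⟨k, hk, u, hu, rfl⟩
    · rw [Set.mem_singleton_iff] at hf
      rw [hf, DL_hl, h1, hl_zero]
      exact Subalgebra.zero_mem _
    · rw [DL_hl, hC, hl_zero]
      exact Subalgebra.zero_mem _
    · rw [DL_hl, Dh_apply, Dw_mul, Dw_cx]
      have h2 : u * (((w (-v) : ℤ) : AA O Λ) * cx O (-v)) + Dw w u * cx O (-v) =
          (w (-v) • u + Dw w u) * cx O (-v) := by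
        rw [zsmul_eq_mul]; ring
      rw [h2]
      exact RA_W hk (Submodule.add_mem _ (Submodule.smul_mem _ _ hu) (Dw_WW hp hw hu))
  | algebraMap r =>
    have h2 : algebraMap O (AddMonoidAlgebra (AA O Λ) ℤ) r = hl 0 (algebraMap O (AA O Λ) r) := rfl
    rw [h2, DL_hl, hC, hl_zero]
    exact Subalgebra.zero_mem _
  | add f g _ _ hf hg => rw [DL_add]; exact Subalgebra.add_mem _ hf hg
  | mul f g hf' hg' hf hg =>
    rw [DL_mul (Dh w) (fun a b => by rw [Dh_apply, Dh_apply, Dh_apply, Dw_mul])]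
    exact Subalgebra.add_mem _ (Subalgebra.mul_mem _ hf' hg) (Subalgebra.mul_mem _ hf hg')

end der

section chart

variable {O Λ ι : Type} [CommRing O] [AddCommGroup Λ] [Fintype ι] {t : O →+* O}
  {s : Module.End ℤ Λ} {p : ℕ} {𝔓 : Ideal O} {l : ℕ} {Δ : Set Λ} {v : Λ}
  {b : Module.Basis ι ℤ Λ}

/-- The coordinate ring of a chart. -/
noncomputable def eA (b : Module.Basis ι ℤ Λ) : MvPolynomial ι O →ₐ[O] AA O Λ :=
  aeval fun i => cx O (b i)

lemma cx_nsmul (n : ℕ) (x : Λ) : cx O (n • x) = cx O x ^ n := by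
  induction n with
  | zero => rw [zero_smul, pow_zero, cx_zero]
  | succ n ih => rw [succ_nsmul, cx_add, ih, pow_succ]

lemma cx_sum {J : Type} (S : Finset J) (f : J → Λ) :
    cx O (∑ i ∈ S, f i) = ∏ i ∈ S, cx O (f i) := by
  classical
  induction S using Finset.induction_on with
  | empty => simp [cx_zero]
  | insert i S hi ih => rw [Finset.sum_insert hi, Finset.prod_insert hi, cx_add, ih]

lemma eA_mon {x : Λ} (hx : ∀ i, 0 ≤ b.repr x i) : eA b (mon O b x) = cx O x := by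
  unfold mon eA
  rw [map_prod]
  simp only [map_pow, aeval_X]
  conv_rhs => rw [← b.sum_repr x]
  rw [cx_sum]
  refine Finset.prod_congr rfl fun i _ => ?_
  rw [← cx_nsmul, ← natCast_zsmul, Int.toNat_of_nonneg (hx i)]

lemma eA_C (o : O) : eA b (C o) = algebraMap O (AA O Λ) o := (eA b).commutes o

lemma RA_C (hc : CD Δ v b) (f : MvPolynomial ι O) : hl 0 (eA b f) ∈ RA t p s 𝔓 l Δ v := by
  induction f using MvPolynomial.induction_on with
  | C a => rw [eA_C]; exact RA_O a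
  | add f g hf hg => rw [map_add, hl_add]; exact Subalgebra.add_mem _ hf hg
  | mul_X f i hf =>
    have h1 : hl 0 (eA b (X i)) ∈ RA t p s 𝔓 l Δ v := by
      have h3 := RA_W (t := t) (v := v) (𝔓 := 𝔓) (l := l) (p := p) (s := s) (k := 0)
        (Nat.zero_le _) (Submodule.subset_span ⟨v + b i, hc.nb i, rfl⟩)
      rw [zero_mul, ← cx_add, add_neg_cancel_comm] at h3
      unfold eA
      rw [aeval_X]
      exact h3
    have h3 := Subalgebra.mul_mem _ hf h1
    rwa [hl_mul, zero_add, ← map_mul] at h3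

end chart

end Pool.Agent.T9h3.H
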