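import Pool.Agent.T9h3.H.Fin

/-!
# Complete intersections in tori over number fields: the hypotheses
-/

set_option autoImplicit false
set_option linter.unusedSectionVars false

namespace Pool.Agent.T9h3.H

open Pool.Agent.Y223.G Pool.Agent.R383.TM NumberField Pool.Agent.T9h3

section ker

variable {O M K Λ : Type} [CommRing O] [IsDomain O] [Field M] [Algebra O M] [IsFractionRing O M]
  [Field K] [Algebra M K] [Algebra O K] [IsScalarTower O M K] [AddCommGroup Λ] {χ : Λ → K}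
  {c : ℕ} {F : Fin c → AA O Λ}

/-- The evaluation of the characters. -/
lemma exists_ev (O : Type) [CommRing O] [Algebra O K] (h0 : χ 0 = 1)
    (ha : ∀ x y, χ (x + y) = χ x * χ y) : ∃ φ : AA O Λ →ₐ[O] K, ∀ x, φ (cx O x) = χ x := by
  refine ⟨AddMonoidAlgebra.lift O K Λ
    { toFun := fun x => χ x.toAdd
      map_one' := h0
      map_mul' := fun x y => ha _ _ }, fun x => ?_⟩
  unfold cx
  rw [AddMonoidAlgebra.lift_single, one_smul]
  rfl

lemma ev_sum {φ : AA M Λ →ₐ[M] K} (hφ : ∀ x, φ (cx M x) = χ x) (P : AddMonoidAlgebra M Λ) :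
    (P.coeff.sum fun x a => algebraMap M K a * χ x) = φ P := by
  conv_rhs => rw [← AA_sum P]
  rw [map_sum]
  refine Finset.sum_congr rfl fun x _ => ?_
  rw [single_eq, map_mul, AlgHom.commutes, hφ]

/-- The change of the coefficients. -/
lemma map_C (o : O) : AddMonoidAlgebra.mapRingHom Λ (algebraMap O M) (algebraMap O (AA O Λ) o) =
    algebraMap M (AA M Λ) (algebraMap O M o) := by
  have h2 : ∀ o, algebraMap O (AA O Λ) o = AddMonoidAlgebra.single 0 o := fun o => rfl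
  have h3 : ∀ o, algebraMap M (AA M Λ) o = AddMonoidAlgebra.single 0 o := fun o => rfl
  rw [h2, h3, AddMonoidAlgebra.mapRingHom_single]

lemma map_cx (x : Λ) : AddMonoidAlgebra.mapRingHom Λ (algebraMap O M) (cx O x) = cx M x := by
  unfold cx
  rw [AddMonoidAlgebra.mapRingHom_single, map_one]

lemma map_inj : Function.Injective (AddMonoidAlgebra.mapRingHom Λ (algebraMap O M)) := by
  intro f g hfg
  apply AddMonoidAlgebra.coeff_injective
  ext x
  apply IsFractionRing.injective O M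
  rw [← AddMonoidAlgebra.coeff_mapRingHom, ← AddMonoidAlgebra.coeff_mapRingHom, hfg]

lemma ev_map {φ : AA O Λ →ₐ[O] K} {φM : AA M Λ →ₐ[M] K} (hφ : ∀ x, φ (cx O x) = χ x)
    (hφM : ∀ x, φM (cx M x) = χ x) (f : AA O Λ) :
    φM (AddMonoidAlgebra.mapRingHom Λ (algebraMap O M) f) = φ f := by
  induction f using AA_ind with
  | h0 => rw [map_zero, map_zero, map_zero]
  | hadd f g hf hg => rw [map_add, map_add, map_add, hf, hg]
  | hs o x =>
    rw [map_mul, map_mul, map_mul, map_C, map_cx, hφ, hφM, AlgHom.commutes, AlgHom.commutes,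
      ← IsScalarTower.algebraMap_apply]

/-- Denominators. -/
lemma exists_den (y : AA M Λ) : ∃ d : O, d ≠ 0 ∧ ∃ y' : AA O Λ,
    algebraMap M (AA M Λ) (algebraMap O M d) * y =
      AddMonoidAlgebra.mapRingHom Λ (algebraMap O M) y' := by
  induction y using AA_ind with
  | h0 => exact ⟨1, one_ne_zero, 0, by rw [mul_zero, map_zero]⟩
  | hadd f g hf hg =>
    obtain ⟨d, hd, f', hf⟩ := hf
    obtain ⟨d', hd', g', hg⟩ := hg
    refine ⟨d * d', mul_ne_zero hd hd', algebraMap O (AA O Λ) d' * f' +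
      algebraMap O (AA O Λ) d * g', ?_⟩
    rw [map_add, map_mul _ (algebraMap O (AA O Λ) d') f', map_mul _ (algebraMap O (AA O Λ) d) g',
      ← hf, ← hg, map_C, map_C, map_mul, map_mul]
    ring
  | hs m x =>
    obtain ⟨o, d, hd, h⟩ := IsFractionRing.div_surjective (A := O) m
    have hd0 : d ≠ 0 := nonZeroDivisors.ne_zero hd
    have hd1 : algebraMap O M d ≠ 0 := fun h => hd0 (IsFractionRing.injective O M (by
      rw [h, map_zero]))
    refine ⟨d, hd0, algebraMap O (AA O Λ) o * cx O x, ?_⟩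
    rw [map_mul, map_C, map_cx, ← mul_assoc, ← map_mul, ← h, mul_div_cancel₀ _ hd1]

/-- **The kernel of the evaluation.** -/
theorem HK_of {φ : AA O Λ →ₐ[O] K} (hφ : ∀ x, φ (cx O x) = χ x) (h0 : χ 0 = 1)
    (ha : ∀ x y, χ (x + y) = χ x * χ y)
    (hk : ∀ P : AddMonoidAlgebra M Λ, (P.coeff.sum fun x a => algebraMap M K a * χ x) = 0 ↔
      P ∈ Ideal.span (Set.range fun r => AddMonoidAlgebra.mapRingHom Λ (algebraMap O M) (F r))) :
    HK φ F := by
  obtain ⟨φM, hφM⟩ := exists_ev (χ := χ) M h0 ha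
  have h1 : ∀ f : AA O Λ, φ f = 0 ↔ AddMonoidAlgebra.mapRingHom Λ (algebraMap O M) f ∈
      Ideal.span (Set.range fun r => AddMonoidAlgebra.mapRingHom Λ (algebraMap O M) (F r)) := by
    intro f
    rw [← hk, ev_sum hφM, ev_map hφ hφM]
  refine ⟨?_, fun r => (h1 _).2 (Ideal.subset_span ⟨r, rfl⟩), fun x hx => ?_⟩
  · rw [IsScalarTower.algebraMap_eq O M K]
    exact (algebraMap M K).injective.comp (IsFractionRing.injective O M)
  · obtain ⟨y, hy⟩ := (mem_span_iff _ _).1 ((h1 x).1 hx)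
    choose d hd y' hy' using fun r => exists_den (O := O) (y r)
    refine ⟨∏ r, d r, Finset.prod_ne_zero_iff.2 fun r _ => hd r, ?_⟩
    rw [mem_span_iff]
    refine ⟨fun r => algebraMap O (AA O Λ) (∏ i ∈ Finset.univ.erase r, d i) * y' r, ?_⟩
    apply map_inj (O := O) (M := M)
    rw [map_mul, map_C, hy, map_sum, Finset.mul_sum]
    refine Finset.sum_congr rfl fun r _ => ?_
    rw [map_mul, map_mul, map_C, ← hy', ← Finset.mul_prod_erase _ _ (Finset.mem_univ r), map_mul,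
      map_mul]
    ring

end ker

section wild

variable {E M K : Type} [Field E] [NumberField E] [Field M] [NumberField M]
  [Algebra E M] [Field K] [Algebra M K] [Algebra E K] [IsScalarTower E M K]

/-- The elements of the wild inertia groups have the order of the residue characteristic. -/
theorem wild_char [IsGalois E M] (ρ : (M ≃ₐ[E] M) →* (K ≃ₐ[E] K))
    (hρ : ∀ g c, ρ g (algebraMap M K c) = algebraMap M K (g c))
    (hin : ∀ 𝔓 : Ideal (𝓞 M), 𝔓.IsMaximal → ∀ p : ℕ, p.Prime → (p : 𝓞 M) ∈ 𝔓 →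
      ¬ p ^ 2 ∣ Nat.card (inert E 𝔓)) {𝔓 : Ideal (𝓞 M)} (h𝔓 : 𝔓.IsMaximal)
    {g : M ≃ₐ[E] M} (hg : IsW E 𝔓 g) : (orderOf g).Prime ∧ ((orderOf g : ℕ) : 𝓞 M) ∈ 𝔓 := by
  have hne : 𝔓 ≠ ⊥ := Ring.ne_bot_of_isMaximal_of_not_isField h𝔓 (RingOfIntegers.not_isField M)
  have hG := ge_of Pool.Agent.Y223.G.all_TAMC ρ hρ hin
  obtain ⟨p, τ, hp, hτ, hinr⟩ := hG.inr 𝔓 h𝔓 hne
  have hgp : g ^ p = 1 := by
    obtain ⟨n, hn⟩ := hinr g (isW_mem hg).1 (isW_mem hg).2
    have hn' : τ ^ n = g := hn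
    rw [← hn', ← zpow_natCast, ← zpow_mul, mul_comm, zpow_mul, zpow_natCast, hτ, one_zpow]
  have ho : orderOf g = p := by
    have := Fact.mk hp
    exact orderOf_eq_prime hgp hg.1
  rw [ho]
  refine ⟨hp, ?_⟩
  obtain ⟨l, h1, h2, h3, h4⟩ := Pool.Agent.Y71.H.ram1E Pool.Agent.Y363.G.t_RAM1 hG hp
    hgp hg.1 h𝔓 hne (isW_mem hg).1
  have hl : l ≠ 0 := by
    intro hl0
    subst hl0
    obtain ⟨π, hπ, h5⟩ := h2
    exact h5 ((isW_mem hg).2 π hπ)
  refine Ideal.pow_le_self ?_ h3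
  have := hp.two_le
  exact Nat.mul_ne_zero (by omega) hl

end wild

end Pool.Agent.T9h3.H
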