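import Pool.Agent.T9h3.H.Asm
import Pool.Agent.T9h3.H.Amb

/-!
# Complete intersections in tori over number fields: the data
-/

set_option autoImplicit false
set_option linter.unusedSectionVars false

namespace Pool.Agent.T9h3.H

open Pool.Agent.Y223.G Pool.Agent.R383.TM NumberField Pool.Agent.T9h3

section nf

variable {E M K Λ : Type} [Field E] [NumberField E] [Field M] [NumberField M]
  [Algebra E M] [Field K] [Algebra M K] [Algebra E K] [IsScalarTower E M K]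
  [AddCommGroup Λ] [DistribMulAction (M ≃ₐ[E] M) Λ] [Module.Free ℤ Λ] [Module.Finite ℤ Λ]
  {ρ : (M ≃ₐ[E] M) →* (K ≃ₐ[E] K)} {χ : Λ → K} {Δ : Set Λ}
  {φ : AA (𝓞 M) Λ →ₐ[𝓞 M] K} {c : ℕ} {F : Fin c → AA (𝓞 M) Λ}

/-- The evaluation. -/
lemma EV_of (hρ : ∀ g c, ρ g (algebraMap M K c) = algebraMap M K (g c))
    (act : ∀ g x, ρ g (χ x) = χ (g • x)) (hφ : ∀ x, φ (cx (𝓞 M) x) = χ x) (g : M ≃ₐ[E] M) :
    EV φ χ (rh ρ g) (th' E g) (sA Λ g) := by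
  refine ⟨hφ, fun f => ?_⟩
  induction f using AA_ind with
  | h0 => rw [map_zero, map_zero, map_zero, map_zero]
  | hadd f g hf hg => rw [map_add, map_add, map_add, map_add, hf, hg]
  | hs o x =>
    rw [map_mul, map_mul, map_mul, sg_C, sg_cx, map_mul, AlgHom.commutes, AlgHom.commutes, hφ, hφ,
      rh_apply, rh_apply, act]
    congr 1
    exact hρ g (o : M)

lemma ini_zero {O Λ : Type} [CommRing O] [AddCommGroup Λ] (f : AA O Λ) : ini 0 f = f := by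
  classical
  unfold ini
  conv_rhs => rw [← AA_sum f]
  rw [Finset.filter_true_of_mem]
  intro x _ y _
  exact le_refl _

/-- **The data of a nondegenerate complete intersection.** -/
theorem exists_TSH [IsGalois E M]
    (hρ : ∀ g c, ρ g (algebraMap M K c) = algebraMap M K (g c))
    (hin : ∀ 𝔓 : Ideal (𝓞 M), 𝔓.IsMaximal → ∀ p : ℕ, p.Prime → (p : 𝓞 M) ∈ 𝔓 →
      ¬ p ^ 2 ∣ Nat.card (inert E 𝔓)) (χ0 : χ 0 = 1) (χa : ∀ x y, χ (x + y) = χ x * χ y)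
    (act : ∀ g x, ρ g (χ x) = χ (g • x)) (hφ : ∀ x, φ (cx (𝓞 M) x) = χ x) (H : HK φ F)
    (hRG : RG F)
    (hW : ∀ (𝔓 : Ideal (𝓞 M)) (g : M ≃ₐ[E] M), 𝔓.IsMaximal → IsW E 𝔓 g → WD (sA Λ g) 𝔓 F) :
    ∃ Δ' : Set Λ, TSH ρ χ Δ' := by
  classical
  have hfG : Finite (M ≃ₐ[E] M) := by
    haveI : FiniteDimensional E M := FiniteDimensional.right ℚ E M
    infer_instance
  obtain ⟨Θ, hΘ⟩ : ∃ Θ : Finset Λ, DF F (Θ : Set Λ) := by
    refine ⟨Finset.univ.biUnion fun r => ((F r).coeff.support ×ˢ (F r).coeff.support).image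
      fun x : Λ × Λ => x.1 - x.2, fun r x hx y hy => ?_⟩
    rw [Finset.mem_coe, Finset.mem_biUnion]
    exact ⟨r, Finset.mem_univ _, Finset.mem_image.2 ⟨(x, y), Finset.mem_product.2 ⟨hx, hy⟩, rfl⟩⟩
  obtain ⟨Δ, fin, ne, st, cv⟩ := exists_smoothP (M ≃ₐ[E] M) Λ Θ
  obtain ⟨k, hk, h⟩ := exists_richP (Θ : Set Λ) fin cv (fun g : M ≃ₐ[E] M => orderOf g)
    (fun g => sA Λ g)
  have hF0 : ∀ r, F r ≠ 0 := by
    intro r hr
    have hQ : (RingHom.ker φ.toRingHom).IsPrime := RingHom.ker_isPrime φ.toRingHom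
    have h1 := hRG 0 (RingHom.ker φ.toRingHom) hQ (fun r => by
      rw [ini_zero, RingHom.mem_ker]
      exact H.z r) (fun r' => if r' = r then 1 else 0) (by
      have h2 : ∑ r', (if r' = r then (1 : AA (𝓞 M) Λ) else 0) * ini 0 (F r') = 0 := by
        refine Finset.sum_eq_zero fun r' _ => ?_
        split_ifs with h
        · rw [ini_zero, h, hr, mul_zero]
        · rw [zero_mul]
      rw [h2]
      exact Ideal.zero_mem _) r
    rw [if_pos rfl] at h1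
    exact hQ.ne_top ((Ideal.eq_top_iff_one _).2 h1)
  obtain ⟨Δ', hΔ'⟩ : ∃ Δ', Δ' = MS Δ k := ⟨_, rfl⟩
  have fin' : Δ'.Finite := by rw [hΔ']; exact MS_fin fin k
  have st' : ∀ g : M ≃ₐ[E] M, ∀ x ∈ Δ', g • x ∈ Δ' := by
    rw [hΔ']
    exact fun g => MS_st (s := sA Λ g) (st g) k
  rw [← hΔ'] at h
  -- the charts are regular
  have hC : ∀ {ι : Type} [Fintype ι] (v : Λ) (b : Module.Basis ι ℤ Λ), CD Δ' v b →
      (∀ φ ∈ (Θ : Set Λ), CMP b φ) → IsRegularRing (CG0 (𝓞 M) χ Δ' (χ v)) := by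
    intro ι _ v b hc hb
    obtain ⟨u, hu⟩ := exists_MN hΘ hF0 hb
    have hinj : Function.Injective (eA (O := 𝓞 M) b) := by
      obtain ⟨𝕂, _, _, φ0, χ0', σ0, e0, h0⟩ := exists_amb (O := 𝓞 M) (Λ := Λ) b
        (t := RingHom.id _) Function.injective_id (s := 1) Function.injective_id
      have h1 : LinearIndependent (𝓞 M) (φ0.toLinearMap ∘ (cx (𝓞 M) : Λ → AA (𝓞 M) Λ)) :=
        cx_lin.map' φ0.toLinearMap (LinearMap.ker_eq_bot.2 h0)
      have h2 : (φ0.toLinearMap ∘ (cx (𝓞 M) : Λ → AA (𝓞 M) Λ)) = χ0' := by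
        funext x
        exact e0.c x
      rw [h2] at h1
      have h3 := ev_inj e0.χ0 e0.χa h1 b
      intro f g hfg
      apply h3
      rw [ev_eA e0.c, ev_eA e0.c, hfg]
    exact CG0_regH hφ χ0 χa hinj H hc hu hRG
  refine ⟨Δ', hρ, hin, χ0, χa, act, fin', st', ?_, ?_, ?_, ?_, ?_⟩
  · obtain ⟨v, hv⟩ := ne
    rw [hΔ']
    exact ⟨_, MS_nsmul hv k⟩
  · intro n hn x hx
    rcases smul_eq_zero.1 hx with h1 | h1
    · exact absurd (by exact_mod_cast h1) hn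
    · exact h1
  · obtain ⟨v, hv⟩ := ne
    have h1 : k • v ∈ Δ' := by rw [hΔ']; exact MS_nsmul hv k
    obtain ⟨T, hT0, hT, -⟩ := h 1 _ h1
    obtain ⟨v', hv'⟩ := Multiset.exists_mem_of_ne_zero hT0
    obtain ⟨ι, hι, b, hc, -, -⟩ := hT v' hv'
    exact ⟨ι, hι, v', b, hc.vm, hc.nb⟩
  · intro m hm
    obtain ⟨T, h1, h2, h3⟩ := h 1 m hm
    refine ⟨T, h1, fun v hv => ?_, h3⟩
    obtain ⟨ι, hι, b, hc, -, hb⟩ := h2 v hv
    exact ⟨hc.vm, hC v b hc hb⟩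
  · intro 𝔓 g l h𝔓 hg t m hm
    obtain ⟨T, h1, h2, h3⟩ := h g m hm
    refine ⟨T, h1, fun v hv => ?_, h3⟩
    obtain ⟨ι, hι, b, hc, hR, hb⟩ := h2 v hv
    obtain ⟨u, hu⟩ := exists_MN hΘ hF0 hb
    have hti : Function.Injective (th' E g) := (TT E M g).injective
    obtain ⟨𝕂, _, _, φ0, χ0', σ0, e0, h0⟩ := exists_amb (O := 𝓞 M) (Λ := Λ) b hti
      (pow_inj t.pp.ne_zero t.sp)
    exact VF_H e0 h0 (t.amb e0 h0) (EV_of hρ act hφ g) H hc (st' g) fin' hR hu (hW 𝔓 g h𝔓 hg)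
      (hC v b hc hb)

end nf

end Pool.Agent.T9h3.H
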