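import Pool.Agent.T9h3.H.Ker
import Pool.Agent.T9h3.Crg

/-!
# Initial forms
-/

set_option autoImplicit false
set_option linter.unusedSectionVars false

namespace Pool.Agent.T9h3.H

open Pool.Agent.Y223.G Pool.Agent.T9h3 MvPolynomial Algebra

section ini

variable {O Λ : Type} [CommRing O] [AddCommGroup Λ]

open Classical in
/-- The initial form: the terms of `f` where `ℓ` is minimal. -/
noncomputable def ini (ℓ : Λ →+ ℤ) (f : AA O Λ) : AA O Λ :=
  ∑ x ∈ f.coeff.support with ∀ y ∈ f.coeff.support, ℓ x ≤ ℓ y,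
    AddMonoidAlgebra.single x (f.coeff x)

lemma single_eq (x : Λ) (o : O) :
    (AddMonoidAlgebra.single x o : AA O Λ) = algebraMap O _ o * cx O x := by
  unfold cx
  have h2 : algebraMap O (AA O Λ) o = AddMonoidAlgebra.single 0 o := rfl
  rw [h2, AddMonoidAlgebra.single_mul_single, zero_add, mul_one]

lemma AA_sum (f : AA O Λ) :
    ∑ x ∈ f.coeff.support, AddMonoidAlgebra.single x (f.coeff x) = f :=
  AddMonoidAlgebra.sum_coeff_single f

/-- The derivative as a sum. -/
lemma Dw_eq (w : Λ →ₗ[ℤ] ℤ) (f : AA O Λ) : Dw w f =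
    ∑ x ∈ f.coeff.support, AddMonoidAlgebra.single x ((w x : ℤ) * f.coeff x) := by
  conv_lhs => rw [← AA_sum f]
  rw [Dw_sum]
  refine Finset.sum_congr rfl fun x _ => ?_
  rw [single_eq, single_eq, Dw_smulC, Dw_cx, map_mul, map_intCast]
  ring

end ini

section chart

variable {O Λ ι : Type} [CommRing O] [AddCommGroup Λ] [Fintype ι] {b : Module.Basis ι ℤ Λ}

/-- The smallest terms of the equations in the chart. -/
structure MN {c : ℕ} (b : Module.Basis ι ℤ Λ) (F : Fin c → AA O Λ) (u : Fin c → Λ) : Prop where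
  p : ∀ r, ∀ x ∈ (F r).coeff.support, ∀ i, 0 ≤ b.repr (x - u r) i
  m : ∀ r, u r ∈ (F r).coeff.support

/-- The equation in the chart. -/
noncomputable def FW (b : Module.Basis ι ℤ Λ) (f : AA O Λ) (u : Λ) : MvPolynomial ι O :=
  ∑ x ∈ f.coeff.support, C (f.coeff x) * mon O b (x - u)

lemma eA_FW {f : AA O Λ} {u : Λ} (hu : ∀ x ∈ f.coeff.support, ∀ i, 0 ≤ b.repr (x - u) i) :
    eA b (FW b f u) = f * cx O (-u) := by
  unfold FW
  conv_rhs => rw [← AA_sum f]
  rw [map_sum, Finset.sum_mul]
  refine Finset.sum_congr rfl fun x hx => ?_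
  rw [map_mul, eA_C, eA_mon (hu x hx), single_eq, mul_assoc, ← cx_add, sub_eq_add_neg]

/-- The retraction which kills the coordinates in `N`. -/
noncomputable def rt (O : Type) [CommRing O] (N : ι → Prop) [DecidablePred N] :
    MvPolynomial ι O →ₐ[O] MvPolynomial ι O :=
  aeval fun i => if N i then 0 else X i

variable {N : ι → Prop} [DecidablePred N]

lemma rt_X (i : ι) : rt O N (X i) = if N i then 0 else X i := by
  unfold rt
  rw [aeval_X]

lemma rt_C (o : O) : rt O N (C o) = C o := (rt O N).commutes o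

lemma rt_mon (x : Λ) : rt O N (mon O b x) =
    if ∀ i, N i → (b.repr x i).toNat = 0 then mon O b x else 0 := by
  unfold mon
  rw [map_prod]
  split_ifs with h
  · refine Finset.prod_congr rfl fun i _ => ?_
    rw [map_pow, rt_X]
    by_cases hi : N i
    · rw [if_pos hi, h i hi, pow_zero, pow_zero]
    · rw [if_neg hi]
  · push Not at h
    obtain ⟨i, hi, h⟩ := h
    refine Finset.prod_eq_zero (Finset.mem_univ i) ?_
    rw [map_pow, rt_X, if_pos hi, zero_pow h]

/-- **The retraction of the equation is the initial form.** -/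
lemma eA_rt {f : AA O Λ} {u : Λ} (hu : ∀ x ∈ f.coeff.support, ∀ i, 0 ≤ b.repr (x - u) i)
    {ℓ : Λ →+ ℤ} (hℓ : ∀ x ∈ f.coeff.support, (∀ y ∈ f.coeff.support, ℓ x ≤ ℓ y) ↔
      ∀ i, N i → b.repr (x - u) i = 0) :
    eA b (rt O N (FW b f u)) = ini ℓ f * cx O (-u) := by
  classical
  unfold FW ini
  rw [map_sum, map_sum, Finset.sum_mul, Finset.sum_filter]
  refine Finset.sum_congr rfl fun x hx => ?_
  have h1 : (∀ y ∈ f.coeff.support, ℓ x ≤ ℓ y) ↔ ∀ i, N i → (b.repr (x - u) i).toNat = 0 := by
    rw [hℓ x hx]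
    constructor
    · intro h i hi
      rw [h i hi]
      rfl
    · intro h i hi
      have h2 := h i hi
      have h3 := hu x hx i
      omega
  rw [map_mul, map_mul, rt_C, eA_C, rt_mon]
  by_cases h : ∀ y ∈ f.coeff.support, ℓ x ≤ ℓ y
  · rw [if_pos (h1.1 h), if_pos h, eA_mon (hu x hx), single_eq, mul_assoc, ← cx_add,
      sub_eq_add_neg]
  · rw [if_neg (fun h' => h (h1.2 h')), if_neg h, map_zero, mul_zero]

/-- The derivation in the chart. -/
noncomputable def dW (w : Λ →ₗ[ℤ] ℤ) (b : Module.Basis ι ℤ Λ) :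
    Derivation O (MvPolynomial ι O) (MvPolynomial ι O) :=
  mkDerivation O fun i => ((w (b i) : ℤ) : MvPolynomial ι O) * X i

lemma dW_X (w : Λ →ₗ[ℤ] ℤ) (i : ι) :
    dW w b (X i : MvPolynomial ι O) = ((w (b i) : ℤ) : MvPolynomial ι O) * X i := by
  unfold dW
  rw [mkDerivation_X]

lemma dW_C (w : Λ →ₗ[ℤ] ℤ) (o : O) : dW w b (C o : MvPolynomial ι O) = 0 :=
  (dW w b).map_algebraMap o

lemma eA_dW (w : Λ →ₗ[ℤ] ℤ) (f : MvPolynomial ι O) : eA b (dW w b f) = Dw w (eA b f) := by
  induction f using MvPolynomial.induction_on with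
  | C o => rw [eA_C, Dw_C, dW_C, map_zero]
  | add f g hf hg => rw [map_add, map_add, map_add, Dw_add, hf, hg]
  | mul_X f i hf =>
    have h2 : eA b (X i : MvPolynomial ι O) = cx O (b i) := by
      unfold eA
      rw [aeval_X]
    rw [Derivation.leibniz, dW_X, map_add, smul_eq_mul, smul_eq_mul, map_mul, map_mul, map_mul,
      map_mul, hf, h2, Dw_mul, Dw_cx, map_intCast]
    ring

lemma rt_dW (w : Λ →ₗ[ℤ] ℤ) (f : MvPolynomial ι O) :
    rt O N (dW w b f) = dW w b (rt O N f) := by
  induction f using MvPolynomial.induction_on with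
  | C o => rw [dW_C, rt_C, dW_C, map_zero]
  | add f g hf hg => rw [map_add, map_add, map_add, map_add, hf, hg]
  | mul_X f i hf =>
    rw [Derivation.leibniz, dW_X, map_add, smul_eq_mul, smul_eq_mul, map_mul, map_mul, map_mul,
      map_mul, hf, map_intCast, Derivation.leibniz, smul_eq_mul, smul_eq_mul, rt_X]
    split_ifs with h
    · rw [map_zero]; ring
    · rw [dW_X]

end chart

section evg

variable {O Λ κ : Type} [CommRing O] [AddCommGroup Λ] [Field κ]

/-- The homomorphism with given values on the coefficients and on the characters. -/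
noncomputable def evg (h : O →+* κ) (g : Multiplicative Λ →* κ) : AA O Λ →+* κ :=
  AddMonoidAlgebra.liftNCRingHom h g fun _ _ => mul_comm _ _

lemma evg_single (h : O →+* κ) (g : Multiplicative Λ →* κ) (x : Λ) (o : O) :
    evg h g (AddMonoidAlgebra.single x o) = h o * g (Multiplicative.ofAdd x) := by
  unfold evg
  exact AddMonoidAlgebra.liftNC_single _ _ _ _

lemma evg_C (h : O →+* κ) (g : Multiplicative Λ →* κ) (o : O) :
    evg h g (algebraMap O (AA O Λ) o) = h o := by
  have h2 : algebraMap O (AA O Λ) o = AddMonoidAlgebra.single 0 o := rfl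
  rw [h2, evg_single, ofAdd_zero, map_one, mul_one]

lemma evg_cx (h : O →+* κ) (g : Multiplicative Λ →* κ) (x : Λ) :
    evg h g (cx O x) = g (Multiplicative.ofAdd x) := by
  unfold cx
  rw [evg_single, map_one, one_mul]

/-- The multiplicative function with given values on a basis. -/
noncomputable def zc {ι : Type} [Fintype ι] (b : Module.Basis ι ℤ Λ) (y : ι → κ)
    (hy : ∀ i, y i ≠ 0) : Multiplicative Λ →* κ where
  toFun := fun x => ∏ i, y i ^ (b.repr x.toAdd i)
  map_one' := by simp
  map_mul' := fun x x' => by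
    rw [← Finset.prod_mul_distrib]
    refine Finset.prod_congr rfl fun i _ => ?_
    rw [toAdd_mul, map_add, Finsupp.add_apply, zpow_add₀ (hy i)]

variable {ι : Type} [Fintype ι] {b : Module.Basis ι ℤ Λ} {y : ι → κ} {hy : ∀ i, y i ≠ 0}

lemma zc_apply (x : Λ) :
    zc b y hy (Multiplicative.ofAdd x) = ∏ i, y i ^ (b.repr x i) := rfl

lemma zc_b (i : ι) : zc b y hy (Multiplicative.ofAdd (b i)) = y i := by
  classical
  rw [zc_apply, Finset.prod_eq_single i]
  · rw [b.repr_self, Finsupp.single_eq_same, zpow_one]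
  · intro j _ hj
    rw [b.repr_self, Finsupp.single_eq_of_ne hj, zpow_zero]
  · intro h; exact absurd (Finset.mem_univ _) h

variable {N : ι → Prop} [DecidablePred N]

/-- The evaluation of the retraction. -/
lemma evg_rt (e : MvPolynomial ι O →+* κ) (τ : κ →+* κ) (hN : ∀ i, N i → e (X i) = 0)
    (g : Multiplicative Λ →* κ) (hg : ∀ i, ¬ N i → g (Multiplicative.ofAdd (b i)) = τ (e (X i)))
    (f : MvPolynomial ι O) :
    evg ((τ.comp e).comp C) g (eA b (rt O N f)) = τ (e f) := by
  induction f using MvPolynomial.induction_on with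
  | C o => rw [rt_C, eA_C, evg_C]; rfl
  | add f g hf hg => rw [map_add, map_add, map_add, map_add, map_add, hf, hg]
  | mul_X f i hf =>
    rw [map_mul, map_mul, map_mul, hf, rt_X, map_mul, map_mul]
    congr 1
    split_ifs with h
    · rw [map_zero, map_zero, hN i h, map_zero]
    · have h2 : eA b (X i : MvPolynomial ι O) = cx O (b i) := by
        unfold eA
        rw [aeval_X]
      rw [h2, evg_cx, hg i h]

end evg

end Pool.Agent.T9h3.H
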