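import Pool.Agent.T9h3.H.Der

/-!
# The kernel of the evaluation
-/

set_option autoImplicit false
set_option linter.unusedSectionVars false

namespace Pool.Agent.T9h3.H

open Pool.Agent.Y223.G Pool.Agent.T9h3 MvPolynomial

/-- The evaluation at the generic point of a complete intersection. -/
structure HK {O K Λ : Type} [CommRing O] [Field K] [Algebra O K] [AddCommGroup Λ] {c : ℕ}
    (φ : AA O Λ →ₐ[O] K) (F : Fin c → AA O Λ) : Prop where
  inj : Function.Injective (algebraMap O K)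
  z : ∀ r, φ (F r) = 0
  k : ∀ x, φ x = 0 → ∃ d : O, d ≠ 0 ∧ algebraMap O (AA O Λ) d * x ∈ Ideal.span (Set.range F)

section ker

variable {O K Λ ι : Type} [CommRing O] [Field K] [Algebra O K] [AddCommGroup Λ] [Fintype ι]
  {φ : AA O Λ →ₐ[O] K} {χ : Λ → K} {σ : K →+* K} {t : O →+* O} {s : Module.End ℤ Λ}
  {p : ℕ} {𝔓 : Ideal O} {l : ℕ} {Δ : Set Λ} {v : Λ} {b : Module.Basis ι ℤ Λ}
  {c : ℕ} {F : Fin c → AA O Λ}

/-- The elements with a denominator. -/
noncomputable def SA (φ : AA O Λ →ₐ[O] K) (t : O →+* O) (p : ℕ) (s : Module.End ℤ Λ)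
    (𝔓 : Ideal O) (l : ℕ) (Δ : Set Λ) (v : Λ) : Subalgebra O (AddMonoidAlgebra (AA O Λ) ℤ) where
  carrier := {z | ∃ c, hl 0 c ∈ RA t p s 𝔓 l Δ v ∧ φ c ≠ 0 ∧ hl 0 c * z ∈ RA t p s 𝔓 l Δ v}
  mul_mem' := by
    rintro z z' ⟨c, h1, h2, h3⟩ ⟨c', h1', h2', h3'⟩
    refine ⟨c * c', ?_, ?_, ?_⟩
    · have h4 := Subalgebra.mul_mem _ h1 h1'
      rwa [hl_mul, zero_add] at h4
    · rw [map_mul]; exact mul_ne_zero h2 h2'
    · have h4 := Subalgebra.mul_mem _ h3 h3'
      have h5 : hl 0 (c * c') * (z * z') = hl 0 c * z * (hl 0 c' * z') := by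
        have h6 : (hl 0 (c * c') : AddMonoidAlgebra (AA O Λ) ℤ) = hl 0 c * hl 0 c' := by
          rw [hl_mul, zero_add]
        rw [h6]; ring
      rwa [h5]
  add_mem' := by
    rintro z z' ⟨c, h1, h2, h3⟩ ⟨c', h1', h2', h3'⟩
    refine ⟨c * c', ?_, ?_, ?_⟩
    · have h4 := Subalgebra.mul_mem _ h1 h1'
      rwa [hl_mul, zero_add] at h4
    · rw [map_mul]; exact mul_ne_zero h2 h2'
    · have h4 := Subalgebra.add_mem _ (Subalgebra.mul_mem _ h1' h3) (Subalgebra.mul_mem _ h1 h3')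
      have h5 : hl 0 (c * c') * (z + z') = hl 0 c' * (hl 0 c * z) + hl 0 c * (hl 0 c' * z') := by
        have h6 : (hl 0 (c * c') : AddMonoidAlgebra (AA O Λ) ℤ) = hl 0 c * hl 0 c' := by
          rw [hl_mul, zero_add]
        rw [h6]; ring
      rwa [h5]
  algebraMap_mem' := fun r => ⟨1, by rw [hl_one]; exact Subalgebra.one_mem _, by
    rw [map_one]; exact one_ne_zero, by
    rw [hl_one, one_mul]; exact Subalgebra.algebraMap_mem _ r⟩

lemma SA_of (φ : AA O Λ →ₐ[O] K) {z : AddMonoidAlgebra (AA O Λ) ℤ}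
    (hz : z ∈ RA t p s 𝔓 l Δ v) : z ∈ SA φ t p s 𝔓 l Δ v :=
  ⟨1, by rw [hl_one]; exact Subalgebra.one_mem _, by
    rw [map_one]; exact one_ne_zero, by
    rw [hl_one, one_mul]; exact hz⟩

/-- All elements have a denominator. -/
lemma SA_top (e : EV φ χ σ t s) (hinj : Function.Injective (algebraMap O K)) (hc : CD Δ v b)
    (h𝔓 : 𝔓 ≠ ⊥) (z : AddMonoidAlgebra (AA O Λ) ℤ) : z ∈ SA φ t p s 𝔓 l Δ v := by
  have hcx : ∀ x : Λ, hl 0 (cx O x) ∈ SA φ t p s 𝔓 l Δ v := by
    intro x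
    have h1 : ∀ x, hl 0 (cx O (pp b x)) ∈ RA t p s 𝔓 l Δ v := by
      intro x
      rw [← eA_mon (b := b) (x := pp b x) (fun i => by rw [repr_pp]; exact Int.natCast_nonneg _)]
      exact RA_C hc _
    refine ⟨cx O (pp b (-x)), h1 _, ?_, ?_⟩
    · rw [e.c]; exact chi_ne e.χ0 e.χa _
    · rw [hl_mul, add_zero, ← cx_add]
      have h2 : pp b (-x) + x = pp b x := by
        rw [add_comm, ← sub_pp b x]
        have h3 : pp b (pp b x - pp b (-x)) = pp b x := by rw [sub_pp]
        rw [sub_pp]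
        conv_lhs => rw [← sub_pp b x]
        rw [sub_pp]
        have := sub_pp b x
        rw [sub_eq_iff_eq_add] at this
        exact this.symm
      rw [h2]
      exact h1 x
  have hT : ∀ d : ℤ, hl d (1 : AA O Λ) ∈ SA φ t p s 𝔓 l Δ v := by
    have h1 : hl 1 (1 : AA O Λ) ∈ SA φ t p s 𝔓 l Δ v := by
      obtain ⟨o, ho, ho0⟩ := Submodule.exists_mem_ne_zero_of_ne_bot h𝔓
      refine ⟨algebraMap O _ o, RA_O o, ?_, ?_⟩
      · rw [AlgHom.commutes]
        intro h
        exact ho0 (hinj (by rw [h, map_zero]))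
      · rw [hl_mul, zero_add, mul_one]
        exact RA_P ho
    have h2 : ∀ n : ℕ, hl (n : ℤ) (1 : AA O Λ) ∈ SA φ t p s 𝔓 l Δ v := by
      intro n
      induction n with
      | zero => exact Subalgebra.one_mem _
      | succ n ih =>
        have h3 := Subalgebra.mul_mem _ ih h1
        rw [hl_mul, one_mul] at h3
        exact_mod_cast h3
    have h3 : ∀ n : ℕ, hl (-(n : ℤ)) (1 : AA O Λ) ∈ SA φ t p s 𝔓 l Δ v := by
      intro n
      induction n with
      | zero => exact Subalgebra.one_mem _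
      | succ n ih =>
        have h3 := Subalgebra.mul_mem _ ih (SA_of φ RA_s)
        rw [hl_mul, one_mul] at h3
        have h4 : -((n + 1 : ℕ) : ℤ) = -(n : ℤ) + -1 := by push_cast; ring
        rw [h4]
        exact h3
    intro d
    rcases Int.le_total 0 d with h | h
    · obtain ⟨n, rfl⟩ := Int.eq_ofNat_of_zero_le h
      exact h2 n
    · obtain ⟨n, hn⟩ := Int.eq_ofNat_of_zero_le (Int.neg_nonneg.2 h)
      have h4 : d = -(n : ℤ) := by omega
      rw [h4]
      exact h3 n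
  induction z using AddMonoidAlgebra.induction_linear with
  | zero => exact Subalgebra.zero_mem _
  | add f g hf hg => exact Subalgebra.add_mem _ hf hg
  | single d y =>
    have h1 : (AddMonoidAlgebra.single d y : AddMonoidAlgebra (AA O Λ) ℤ) =
        hl d (1 : AA O Λ) * hl 0 y := by
      rw [hl_mul, add_zero, one_mul]; rfl
    rw [h1]
    refine Subalgebra.mul_mem _ (hT d) ?_
    induction y using AA_ind with
    | h0 => rw [hl_zero]; exact Subalgebra.zero_mem _
    | hadd f g hf hg =>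
      rw [hl_add]
      have hf' := hf (by rw [hl_mul, add_zero, one_mul]; rfl)
      have hg' := hg (by rw [hl_mul, add_zero, one_mul]; rfl)
      exact Subalgebra.add_mem _ hf' hg'
    | hs o x =>
      have h2 : (hl 0 (algebraMap O (AA O Λ) o * cx O x) : AddMonoidAlgebra (AA O Λ) ℤ) =
          hl 0 (algebraMap O (AA O Λ) o) * hl 0 (cx O x) := by rw [hl_mul, add_zero]
      rw [h2]
      exact Subalgebra.mul_mem _ (SA_of φ (RA_O o)) (hcx x)

lemma mem_span_iff {R : Type} [CommRing R] {m : ℕ} (F : Fin m → R) (x : R) :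
    x ∈ Ideal.span (Set.range F) ↔ ∃ y : Fin m → R, x = ∑ r, F r * y r := by
  rw [Ideal.mem_span_range_iff_exists_fun]
  constructor
  · rintro ⟨y, hy⟩
    exact ⟨y, by rw [← hy]; exact Finset.sum_congr rfl fun r _ => mul_comm _ _⟩
  · rintro ⟨y, rfl⟩
    exact ⟨y, Finset.sum_congr rfl fun r _ => mul_comm _ _⟩

lemma hl_sum {A J : Type} [CommRing A] (d : ℤ) (S : Finset J) (f : J → A) :
    hl d (∑ j ∈ S, f j) = ∑ j ∈ S, hl d (f j) := by
  classical
  induction S using Finset.induction_on with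
  | empty => rw [Finset.sum_empty, Finset.sum_empty, hl_zero]
  | insert j S hj ih => rw [Finset.sum_insert hj, Finset.sum_insert hj, ← ih, hl_add]

/-- A common denominator. -/
lemma HK.lau [IsDomain O] (H : HK φ F) (x : AddMonoidAlgebra (AA O Λ) ℤ)
    (hx : ∀ d, φ (x.coeff d) = 0) :
    ∃ d : O, d ≠ 0 ∧ ∃ y : Fin c → AddMonoidAlgebra (AA O Λ) ℤ,
      hl 0 (algebraMap O (AA O Λ) d) * x = ∑ r, hl 0 (F r) * y r := by
  classical
  have key : ∀ S : Finset ℤ, ∃ d : O, d ≠ 0 ∧ ∃ y : Fin c → AddMonoidAlgebra (AA O Λ) ℤ,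
      hl 0 (algebraMap O (AA O Λ) d) * ∑ e ∈ S, hl e (x.coeff e) =
        ∑ r, hl 0 (F r) * y r := by
    intro S
    induction S using Finset.induction_on with
    | empty =>
      refine ⟨1, one_ne_zero, 0, ?_⟩
      rw [Finset.sum_empty, mul_zero]
      symm
      exact Finset.sum_eq_zero fun r _ => mul_zero _
    | insert e S he ih =>
      obtain ⟨d, hd, y, hy⟩ := ih
      obtain ⟨d', hd', h1⟩ := H.k _ (hx e)
      obtain ⟨z, hz⟩ := (mem_span_iff _ _).1 h1
      refine ⟨d * d', mul_ne_zero hd hd', fun r => hl e (algebraMap O (AA O Λ) d * z r) +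
        hl 0 (algebraMap O (AA O Λ) d') * y r, ?_⟩
      have h1 : (hl 0 (algebraMap O (AA O Λ) (d * d')) : AddMonoidAlgebra (AA O Λ) ℤ) =
          hl 0 (algebraMap O (AA O Λ) d') * hl 0 (algebraMap O (AA O Λ) d) := by
        rw [hl_mul, zero_add, ← map_mul, mul_comm d]
      rw [Finset.sum_insert he, mul_add]
      simp only [mul_add, Finset.sum_add_distrib]
      congr 1
      · rw [hl_mul, zero_add, map_mul, mul_assoc, hz, Finset.mul_sum, hl_sum]
        refine Finset.sum_congr rfl fun r _ => ?_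
        rw [hl_mul, zero_add]
        congr 1
        ring
      · rw [h1, mul_assoc, hy, Finset.mul_sum]
        refine Finset.sum_congr rfl fun r _ => ?_
        ring
  obtain ⟨d, hd, y, h1⟩ := key x.coeff.support
  refine ⟨d, hd, y, ?_⟩
  have h2 : ∑ d ∈ x.coeff.support, hl d (x.coeff d) = x := by
    conv_rhs => rw [← AddMonoidAlgebra.sum_coeff_single x]
    rfl
  rwa [h2] at h1

/-- **The kernel is locally generated by the equations.** -/
theorem HK.ker [IsDomain O] (H : HK φ F) (e : EV φ χ σ t s) (hc : CD Δ v b)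
    (h𝔓 : 𝔓 ≠ ⊥) (u : Fin c → Λ) {x : AddMonoidAlgebra (AA O Λ) ℤ} (hx : ml φ x = 0) :
    ∃ d ∈ RA t p s 𝔓 l Δ v, ml φ d ≠ 0 ∧ ∃ y : Fin c → AddMonoidAlgebra (AA O Λ) ℤ,
      (∀ r, y r ∈ RA t p s 𝔓 l Δ v) ∧ d * x = ∑ r, hl 0 (F r * cx O (-u r)) * y r := by
  classical
  obtain ⟨d, hd0, y, hy⟩ := H.lau x (fun d => by rw [← ml_coeff, hx]; rfl)
  choose d' h1 h2 h3 using fun r => SA_top (p := p) (l := l) e H.inj hc h𝔓
    (hl 0 (cx O (u r)) * y r)
  have h4 : ∀ S : Finset (Fin c), hl 0 (∏ r ∈ S, d' r) ∈ RA t p s 𝔓 l Δ v := by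
    intro S
    induction S using Finset.induction_on with
    | empty => rw [Finset.prod_empty, hl_one]; exact Subalgebra.one_mem _
    | insert r S hr ih =>
      rw [Finset.prod_insert hr]
      have := Subalgebra.mul_mem _ (h1 r) ih
      rwa [hl_mul, zero_add] at this
  refine ⟨hl 0 (∏ r, d' r) * hl 0 (algebraMap O (AA O Λ) d), Subalgebra.mul_mem _ (h4 _) (RA_O d),
    ?_, fun r => hl 0 (∏ i ∈ Finset.univ.erase r, d' i) * (hl 0 (d' r) *
      (hl 0 (cx O (u r)) * y r)), fun r => Subalgebra.mul_mem _ (h4 _) (h3 r), ?_⟩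
  · rw [hl_mul, ml_hl, zero_add, map_mul, AlgHom.commutes]
    refine hm_ne_zero (mul_ne_zero ?_ fun h => hd0 (H.inj (by rw [h, map_zero])))
    rw [map_prod]
    exact Finset.prod_ne_zero_iff.2 fun r _ => h2 r
  · rw [mul_assoc, hy, Finset.mul_sum]
    refine Finset.sum_congr rfl fun r _ => ?_
    have h5 : (hl 0 (F r) : AddMonoidAlgebra (AA O Λ) ℤ) =
        hl 0 (F r * cx O (-u r)) * hl 0 (cx O (u r)) := by
      rw [hl_mul, zero_add, mul_assoc, cx_neg_mul, mul_one]
    have h6 : (hl 0 (∏ r, d' r) : AddMonoidAlgebra (AA O Λ) ℤ) =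
        hl 0 (∏ i ∈ Finset.univ.erase r, d' i) * hl 0 (d' r) := by
      rw [hl_mul, zero_add, Finset.prod_erase_mul _ _ (Finset.mem_univ r)]
    rw [h5, h6]
    ring

end ker

end Pool.Agent.T9h3.H
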