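import Pool.Agent.T9h3.H.Alg

/-!
# The graded algebra over the group algebra
-/

set_option autoImplicit false
set_option linter.unusedSectionVars false

namespace Pool.Agent.T9h3.H

open Pool.Agent.Y223.G Pool.Agent.T9h3

section defs

variable {O Λ : Type} [CommRing O] [AddCommGroup Λ]

/-- The operator `σ - 1`. -/
noncomputable def dA (t : O →+* O) (s : Module.End ℤ Λ) : Module.End ℤ (AA O Λ) :=
  (sg t s).toAddMonoidHom.toIntLinearMap - 1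

lemma dA_apply (t : O →+* O) (s : Module.End ℤ Λ) (x : AA O Λ) : dA t s x = sg t s x - x := rfl

/-- The differences of characters with the same norm. -/
noncomputable def W1A (O : Type) {Λ : Type} [CommRing O] [AddCommGroup Λ] (p : ℕ) (s : Module.End ℤ Λ)
    (Δ : Set Λ) : Submodule ℤ (AA O Λ) :=
  Submodule.span ℤ {x | ∃ m ∈ Δ, ∃ m' ∈ Δ, Nm p s m = Nm p s m' ∧ x = cx O m - cx O m'}

/-- The filtration. -/
noncomputable def WWA (t : O →+* O) (p : ℕ) (s : Module.End ℤ Λ) (Δ : Set Λ) : ℕ → Submodule ℤ (AA O Λ)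
  | 0 => Submodule.span ℤ (cx O '' Δ)
  | k + 1 => (W1A O p s Δ).map ((dA t s) ^ k)

/-- The graded algebra. -/
noncomputable def RA (t : O →+* O) (p : ℕ) (s : Module.End ℤ Λ) (𝔓 : Ideal O) (l : ℕ)
    (Δ : Set Λ) (v : Λ) : Subalgebra O (AddMonoidAlgebra (AA O Λ) ℤ) :=
  Algebra.adjoin O ({hl (-1) 1} ∪ {f | ∃ a ∈ 𝔓, f = hl 1 (algebraMap O (AA O Λ) a)} ∪
    {f | ∃ k, k ≤ p - 1 ∧ ∃ u ∈ WWA t p s Δ k, f = hl (k * l : ℕ) (u * cx O (-v))})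

/-- An evaluation of the characters. -/
structure EV {O K Λ : Type} [CommRing O] [Field K] [Algebra O K] [AddCommGroup Λ]
    (φ : AA O Λ →ₐ[O] K) (χ : Λ → K) (σ : K →+* K) (t : O →+* O) (s : Module.End ℤ Λ) : Prop where
  c : ∀ x, φ (cx O x) = χ x
  sg : ∀ f, σ (φ f) = φ (sg t s f)

end defs

section ev

variable {O K Λ : Type} [CommRing O] [Field K] [Algebra O K] [AddCommGroup Λ]
  {φ : AA O Λ →ₐ[O] K} {χ : Λ → K} {σ : K →+* K} {t : O →+* O} {s : Module.End ℤ Λ}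
  {p : ℕ} {𝔓 : Ideal O} {l : ℕ} {Δ : Set Λ} {v : Λ}

lemma EV.χ0 (e : EV φ χ σ t s) : χ 0 = 1 := by rw [← e.c, cx_zero, map_one]

lemma EV.χa (e : EV φ χ σ t s) (x y : Λ) : χ (x + y) = χ x * χ y := by
  rw [← e.c, ← e.c, ← e.c, cx_add, map_mul]

lemma EV.neg (e : EV φ χ σ t s) (x : Λ) : φ (cx O (-x)) = (χ x)⁻¹ := by
  rw [e.c, chi_neg e.χ0 e.χa]

lemma EV.mul_neg (e : EV φ χ σ t s) (u : AA O Λ) (x : Λ) :
    φ (u * cx O (-x)) = φ u / χ x := by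
  rw [map_mul, e.neg, div_eq_mul_inv]

/-- The evaluation as an additive map. -/
noncomputable def ez (φ : AA O Λ →ₐ[O] K) : AA O Λ →ₗ[ℤ] K :=
  φ.toRingHom.toAddMonoidHom.toIntLinearMap

lemma ez_apply (f : AA O Λ) : ez φ f = φ f := rfl

lemma EV.dK (e : EV φ χ σ t s) (k : ℕ) (f : AA O Λ) :
    (dK σ ^ k) (φ f) = φ ((dA t s ^ k) f) := by
  induction k with
  | zero => rfl
  | succ k ih =>
    rw [pow_succ', pow_succ', Module.End.mul_apply, Module.End.mul_apply, ih, dK_apply, dA_apply,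
      e.sg, map_sub]

lemma EV.W1 (e : EV φ χ σ t s) : (W1A O p s Δ).map (ez φ) = W1 χ p s Δ := by
  unfold W1A T9h3.W1
  rw [Submodule.map_span]
  congr 1
  ext x
  constructor
  · rintro ⟨_, ⟨m, hm, m', hm', hN, rfl⟩, rfl⟩
    exact ⟨m, hm, m', hm', hN, by rw [ez_apply, map_sub, e.c, e.c]⟩
  · rintro ⟨m, hm, m', hm', hN, rfl⟩
    exact ⟨_, ⟨m, hm, m', hm', hN, rfl⟩, by rw [ez_apply, map_sub, e.c, e.c]⟩

lemma EV.WW (e : EV φ χ σ t s) (k : ℕ) : (WWA t p s Δ k).map (ez φ) = WW χ σ p s Δ k := by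
  rcases k with _ | k
  · unfold WWA T9h3.WW
    rw [Submodule.map_span]
    congr 1
    ext x
    constructor
    · rintro ⟨_, ⟨m, hm, rfl⟩, rfl⟩
      exact ⟨m, hm, by rw [ez_apply, e.c]⟩
    · rintro ⟨m, hm, rfl⟩
      exact ⟨_, ⟨m, hm, rfl⟩, by rw [ez_apply, e.c]⟩
  · change ((W1A O p s Δ).map ((dA t s) ^ k)).map (ez φ) = (T9h3.W1 χ p s Δ).map ((T9h3.dK σ) ^ k)
    rw [← e.W1, ← Submodule.map_comp, ← Submodule.map_comp]
    congr 1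
    refine LinearMap.ext fun f => ?_
    rw [LinearMap.comp_apply, LinearMap.comp_apply, ez_apply, ez_apply, e.dK]

lemma EV.mem (e : EV φ χ σ t s) {k : ℕ} {u : AA O Λ} (hu : u ∈ WWA t p s Δ k) :
    φ u ∈ T9h3.WW χ σ p s Δ k := by
  rw [← e.WW]
  exact ⟨u, hu, rfl⟩

lemma EV.lift (e : EV φ χ σ t s) {k : ℕ} {u : K} (hu : u ∈ T9h3.WW χ σ p s Δ k) :
    ∃ f ∈ WWA t p s Δ k, φ f = u := by
  rw [← e.WW] at hu
  exact hu

/-- The map of the Laurent polynomials. -/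
noncomputable abbrev ml (φ : AA O Λ →ₐ[O] K) : AddMonoidAlgebra (AA O Λ) ℤ →ₐ[O] LP K :=
  AddMonoidAlgebra.mapAlgHom ℤ φ

lemma ml_hl (d : ℤ) (a : AA O Λ) : ml φ (hl d a) = hm d (φ a) :=
  AddMonoidAlgebra.mapAlgHom_single _ _ _

lemma ml_coeff (f : AddMonoidAlgebra (AA O Λ) ℤ) (d : ℤ) : (ml φ f).coeff d = φ (f.coeff d) :=
  AddMonoidAlgebra.coeff_mapAlgHom _ _ _

lemma ml_inj (hφ : Function.Injective φ) : Function.Injective (ml φ) := by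
  intro f g h
  apply AddMonoidAlgebra.coeff_injective
  ext1 d
  apply hφ
  rw [← ml_coeff, ← ml_coeff, h]

/-- **The graded algebra of an evaluation.** -/
theorem EV.GR (e : EV φ χ σ t s) :
    (RA t p s 𝔓 l Δ v).map (ml φ) = GR χ σ p s 𝔓 l Δ v := by
  unfold RA T9h3.GR
  rw [AlgHom.map_adjoin]
  congr 1
  rw [Set.image_union, Set.image_union]
  congr 1
  · congr 1
    · rw [Set.image_singleton, ml_hl, map_one]
    · ext f
      constructor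
      · rintro ⟨_, ⟨a, ha, rfl⟩, rfl⟩
        exact ⟨a, ha, by rw [ml_hl, AlgHom.commutes]⟩
      · rintro ⟨a, ha, rfl⟩
        exact ⟨_, ⟨a, ha, rfl⟩, by rw [ml_hl, AlgHom.commutes]⟩
  · ext f
    constructor
    · rintro ⟨_, ⟨k, hk, u, hu, rfl⟩, rfl⟩
      exact ⟨k, hk, φ u, e.mem hu, by rw [ml_hl, e.mul_neg]⟩
    · rintro ⟨k, hk, u, hu, rfl⟩
      obtain ⟨f, hf, rfl⟩ := e.lift hu
      exact ⟨_, ⟨k, hk, f, hf, rfl⟩, by rw [ml_hl, e.mul_neg]⟩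

lemma EV.hl_mem (e : EV φ χ σ t s) {d : ℤ} {a : AA O Λ} (h : hl d a ∈ RA t p s 𝔓 l Δ v) :
    hm d (φ a) ∈ T9h3.GR χ σ p s 𝔓 l Δ v := by
  rw [← e.GR]
  exact ⟨_, h, ml_hl _ _⟩

lemma EV.hl_iff (e : EV φ χ σ t s) (hφ : Function.Injective φ) {d : ℤ} {a : AA O Λ} :
    hl d a ∈ RA t p s 𝔓 l Δ v ↔ hm d (φ a) ∈ T9h3.GR χ σ p s 𝔓 l Δ v := by
  refine ⟨e.hl_mem, fun h => ?_⟩
  rw [← e.GR] at h
  obtain ⟨f, hf, h1⟩ := h
  have h2 : ml φ f = ml φ (hl d a) := by rw [ml_hl]; exact h1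
  rw [← ml_inj hφ h2]
  exact hf

/-- Gradedness. -/
lemma EV.gr [IsNoetherianRing O] (e : EV φ χ σ t s) (hφ : Function.Injective φ) {f : AddMonoidAlgebra (AA O Λ) ℤ}
    (hf : f ∈ RA t p s 𝔓 l Δ v) (d : ℤ) : hl d (f.coeff d) ∈ RA t p s 𝔓 l Δ v := by
  rw [e.hl_iff hφ, ← ml_coeff]
  refine GR_gr _ ?_ d
  rw [← e.GR]
  exact ⟨f, hf, rfl⟩

end ev

end Pool.Agent.T9h3.H
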