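import Pool.Agent.T9h3.H.Ini

/-!
# The points of the charts and the points of the torus
-/

set_option autoImplicit false
set_option linter.unusedSectionVars false

namespace Pool.Agent.T9h3.H

open Pool.Agent.Y223.G Pool.Agent.T9h3 MvPolynomial Algebra

section defs

variable {O Λ : Type} [CommRing O] [AddCommGroup Λ]

/-- The subschemes of the torus which are defined by the initial forms are regular of the expected
codimension. -/
def RG {c : ℕ} (F : Fin c → AA O Λ) : Prop :=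
  ∀ (ℓ : Λ →+ ℤ) (Q : Ideal (AA O Λ)), Q.IsPrime → (∀ r, ini ℓ (F r) ∈ Q) →
    ∀ d : Fin c → AA O Λ, ∑ r, d r * ini ℓ (F r) ∈ Q ^ 2 → ∀ r, d r ∈ Q

/-- The smoothness at the fixed points, along the invariant directions. -/
def WD {c : ℕ} (s : Module.End ℤ Λ) (𝔓 : Ideal O) (F : Fin c → AA O Λ) : Prop :=
  ∀ (ℓ : Λ →+ ℤ), (∀ x, ℓ (s x) = ℓ x) → ∀ Q : Ideal (AA O Λ), Q.IsPrime →
    (∀ o ∈ 𝔓, algebraMap O (AA O Λ) o ∈ Q) → (∀ x, cx O x - cx O (s x) ∈ Q) →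
    (∀ r, ini ℓ (F r) ∈ Q) → ∃ w : Fin c → Λ →ₗ[ℤ] ℤ, (∀ i x, w i (s x) = w i x) ∧
      (Matrix.of fun i r => Dw (w i) (ini ℓ (F r))).det ∉ Q

end defs

section pts

variable {O Λ ι κ : Type} [CommRing O] [AddCommGroup Λ] [Fintype ι] {b : Module.Basis ι ℤ Λ}
  [Field κ] {c : ℕ} {F : Fin c → AA O Λ} {u : Fin c → Λ} {N : ι → Prop} [DecidablePred N]

lemma evg_ne (h : O →+* κ) (g : Multiplicative Λ →* κ) (x : Λ) : evg h g (cx O x) ≠ 0 := by
  rw [evg_cx]
  intro h0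
  have h1 := map_mul g (Multiplicative.ofAdd x) (Multiplicative.ofAdd (-x))
  rw [h0, zero_mul, ← ofAdd_add, add_neg_cancel, ofAdd_zero, map_one] at h1
  exact one_ne_zero h1

/-- The smallest terms. -/
lemma hl_of {ℓ : Λ →+ ℤ} (hu : MN b F u)
    (h : ∀ y, (∀ i, 0 ≤ b.repr y i) → 0 ≤ ℓ y ∧ (ℓ y = 0 ↔ ∀ i, N i → b.repr y i = 0)) (r : Fin c) :
    ∀ x ∈ (F r).coeff.support, (∀ y ∈ (F r).coeff.support, ℓ x ≤ ℓ y) ↔
      ∀ i, N i → b.repr (x - u r) i = 0 := by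
  intro x hx
  obtain ⟨h1, h2⟩ := h (x - u r) (hu.p r x hx)
  rw [← h2]
  rw [map_sub] at h1 ⊢
  constructor
  · intro h3
    have h4 := h3 (u r) (hu.m r)
    omega
  · intro h3 y hy
    have h4 := (h (y - u r) (hu.p r y hy)).1
    rw [map_sub] at h4
    omega

variable {e : MvPolynomial ι O →+* κ} {τ : κ →+* κ} {g : Multiplicative Λ →* κ} {ℓ : Λ →+ ℤ}

/-- The equations at the point of the torus. -/
lemma pt_z (hN : ∀ i, N i → e (X i) = 0)
    (hg : ∀ i, ¬ N i → g (Multiplicative.ofAdd (b i)) = τ (e (X i))) (hu : MN b F u)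
    (h : ∀ y, (∀ i, 0 ≤ b.repr y i) → 0 ≤ ℓ y ∧ (ℓ y = 0 ↔ ∀ i, N i → b.repr y i = 0))
    (hF : ∀ r, e (FW b (F r) (u r)) = 0) (r : Fin c) :
    evg ((τ.comp e).comp C) g (ini ℓ (F r)) = 0 := by
  have h1 := evg_rt e τ hN g hg (FW b (F r) (u r))
  rw [eA_rt (hu.p r) (hl_of hu h r), hF, map_zero, map_mul] at h1
  exact (mul_eq_zero.1 h1).resolve_right (evg_ne _ _ _)

/-- The derivatives at the point of the torus. -/
lemma pt_d (hN : ∀ i, N i → e (X i) = 0)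
    (hg : ∀ i, ¬ N i → g (Multiplicative.ofAdd (b i)) = τ (e (X i))) (hu : MN b F u)
    (h : ∀ y, (∀ i, 0 ≤ b.repr y i) → 0 ≤ ℓ y ∧ (ℓ y = 0 ↔ ∀ i, N i → b.repr y i = 0))
    (hF : ∀ r, e (FW b (F r) (u r)) = 0) (w : Λ →ₗ[ℤ] ℤ) (r : Fin c) :
    τ (e (dW w b (FW b (F r) (u r)))) = evg ((τ.comp e).comp C) g (cx O (-u r)) *
      evg ((τ.comp e).comp C) g (Dw w (ini ℓ (F r))) := by
  rw [← evg_rt e τ hN g hg, rt_dW, eA_dW, eA_rt (hu.p r) (hl_of hu h r), Dw_mul, map_add, map_mul,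
    map_mul, pt_z hN hg hu h hF r]
  ring

/-- The determinant at the point of the torus. -/
lemma pt_det (hN : ∀ i, N i → e (X i) = 0)
    (hg : ∀ i, ¬ N i → g (Multiplicative.ofAdd (b i)) = τ (e (X i))) (hu : MN b F u)
    (h : ∀ y, (∀ i, 0 ≤ b.repr y i) → 0 ≤ ℓ y ∧ (ℓ y = 0 ↔ ∀ i, N i → b.repr y i = 0))
    (hF : ∀ r, e (FW b (F r) (u r)) = 0) (w : Fin c → Λ →ₗ[ℤ] ℤ)
    (hw : (Matrix.of fun i r => Dw (w i) (ini ℓ (F r))).det ∉
      RingHom.ker (evg ((τ.comp e).comp C) g)) :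
    e (Matrix.of fun i r => dW (w i) b (FW b (F r) (u r))).det ≠ 0 := by
  intro h0
  apply hw
  rw [RingHom.mem_ker, RingHom.map_det]
  have h1 : τ (e (Matrix.of fun i r => dW (w i) b (FW b (F r) (u r))).det) = 0 := by
    rw [h0, map_zero]
  rw [← RingHom.comp_apply, RingHom.map_det] at h1
  have h2 : (τ.comp e).mapMatrix (Matrix.of fun i r => dW (w i) b (FW b (F r) (u r))) =
      Matrix.of fun i r => evg ((τ.comp e).comp C) g (cx O (-u r)) *
        ((evg ((τ.comp e).comp C) g).mapMatrix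
          (Matrix.of fun i r => Dw (w i) (ini ℓ (F r)))) i r := by
    ext i r
    exact pt_d hN hg hu h hF (w i) r
  rw [h2, Matrix.det_mul_row] at h1
  exact (mul_eq_zero.1 h1).resolve_left (Finset.prod_ne_zero_iff.2 fun r _ => evg_ne _ _ _)

end pts

section reg

variable {O Λ ι : Type} [CommRing O] [AddCommGroup Λ] [Fintype ι] {b : Module.Basis ι ℤ Λ}
  {c : ℕ} {F : Fin c → AA O Λ} {u : Fin c → Λ}

/-- The sum of the coordinates in `N`. -/
noncomputable def cl (b : Module.Basis ι ℤ Λ) (N : ι → Prop) [DecidablePred N] : Λ →+ ℤ where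
  toFun := fun y => ∑ i with N i, b.repr y i
  map_zero' := by simp
  map_add' := fun x y => by
    rw [← Finset.sum_add_distrib]
    exact Finset.sum_congr rfl fun i _ => by rw [map_add, Finsupp.add_apply]

lemma cl_apply (N : ι → Prop) [DecidablePred N] (y : Λ) :
    cl b N y = ∑ i with N i, b.repr y i := rfl

lemma cl_nn (N : ι → Prop) [DecidablePred N] {y : Λ} (hy : ∀ i, N i → 0 ≤ b.repr y i) :
    0 ≤ cl b N y ∧ (cl b N y = 0 ↔ ∀ i, N i → b.repr y i = 0) := by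
  have h1 : ∀ i ∈ Finset.univ.filter N, 0 ≤ b.repr y i := by
    intro i hi
    rw [Finset.mem_filter] at hi
    exact hy i hi.2
  refine ⟨Finset.sum_nonneg h1, ?_⟩
  rw [cl_apply, Finset.sum_eq_zero_iff_of_nonneg h1]
  constructor
  · intro h i hi
    exact h i (Finset.mem_filter.2 ⟨Finset.mem_univ _, hi⟩)
  · intro h i hi
    rw [Finset.mem_filter] at hi
    exact h i hi.2

/-- **The charts: the equations are independent modulo the square.** -/
theorem reg_pt (hR : RG F) (hu : MN b F u) (P : Ideal (MvPolynomial ι O)) [hP : P.IsPrime]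
    (hF : ∀ r, FW b (F r) (u r) ∈ P) (d : Fin c → MvPolynomial ι O)
    (hd : ∑ r, d r * FW b (F r) (u r) ∈ P ^ 2) (r : Fin c) : d r ∈ P := by
  classical
  obtain ⟨e, he⟩ : ∃ e, e = algebraMap (MvPolynomial ι O) P.ResidueField := ⟨_, rfl⟩
  have hker : ∀ f, e f = 0 ↔ f ∈ P := by
    intro f
    rw [he]
    exact Ideal.algebraMap_residueField_eq_zero
  obtain ⟨N, hN⟩ : ∃ N : ι → Prop, ∀ i, N i ↔ e (X i) = 0 := ⟨fun i => e (X i) = 0, fun i => Iff.rfl⟩
  obtain ⟨y, hy⟩ : ∃ y : ι → P.ResidueField, ∀ i, y i = if N i then 1 else e (X i) :=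
    ⟨_, fun i => rfl⟩
  have hy0 : ∀ i, y i ≠ 0 := by
    intro i
    rw [hy]
    split_ifs with h
    · exact one_ne_zero
    · exact fun h' => h ((hN i).2 h')
  obtain ⟨τ, hτ⟩ : ∃ τ, τ = RingHom.id P.ResidueField := ⟨_, rfl⟩
  have hg : ∀ i, ¬ N i → zc b y hy0 (Multiplicative.ofAdd (b i)) = τ (e (X i)) := by
    intro i hi
    rw [zc_b, hy, if_neg hi, hτ, RingHom.id_apply]
  have hl : ∀ y, (∀ i, 0 ≤ b.repr y i) → 0 ≤ cl b N y ∧
      (cl b N y = 0 ↔ ∀ i, N i → b.repr y i = 0) := fun y hy => cl_nn N fun i _ => hy i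
  have hN' : ∀ i, N i → e (X i) = 0 := fun i => (hN i).1
  obtain ⟨ψ, hψ⟩ : ∃ ψ, ψ = evg ((τ.comp e).comp C) (zc b y hy0) := ⟨_, rfl⟩
  have h1 : ∀ f, ψ (eA b (rt O N f)) = e f := by
    intro f
    rw [hψ, evg_rt e τ hN' _ hg, hτ, RingHom.id_apply]
  have hQ : (RingHom.ker ψ).IsPrime := RingHom.ker_isPrime ψ
  have h2 : ∀ r, ini (cl b N) (F r) ∈ RingHom.ker ψ := by
    intro r
    rw [RingHom.mem_ker, hψ]
    exact pt_z hN' hg hu hl (fun r => (hker _).2 (hF r)) r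
  have h3 : P ≤ (RingHom.ker ψ).comap ((eA b).toRingHom.comp (rt O N).toRingHom) := by
    intro f hf
    rw [Ideal.mem_comap, RingHom.mem_ker]
    change ψ (eA b (rt O N f)) = 0
    rw [h1]
    exact (hker f).2 hf
  have h4 : ∑ r, (eA b (rt O N (d r)) * cx O (-u r)) * ini (cl b N) (F r) ∈
      (RingHom.ker ψ) ^ 2 := by
    have h5 := (Ideal.pow_right_mono h3 2).trans (Ideal.le_comap_pow _ 2) hd
    rw [Ideal.mem_comap, map_sum] at h5
    have h6 : ∀ r, ((eA b).toRingHom.comp (rt O N).toRingHom) (d r * FW b (F r) (u r)) =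
        (eA b (rt O N (d r)) * cx O (-u r)) * ini (cl b N) (F r) := by
      intro r
      change eA b (rt O N (d r * FW b (F r) (u r))) = _
      rw [map_mul, map_mul, eA_rt (hu.p r) (hl_of hu hl r)]
      ring
    rwa [Finset.sum_congr rfl fun r _ => h6 r] at h5
  have h5 := hR (cl b N) (RingHom.ker ψ) hQ h2 _ h4 r
  rw [RingHom.mem_ker, map_mul, h1] at h5
  rw [← hker]
  refine (mul_eq_zero.1 h5).resolve_right ?_
  rw [hψ]
  exact evg_ne _ _ _

end reg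

end Pool.Agent.T9h3.H
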