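import Pool.Agent.T9h3.H.Wpt

/-!
# Regularity of the graded algebra of a hypersurface
-/

set_option autoImplicit false
set_option linter.unusedSectionVars false

namespace Pool.Agent.T9h3.H

open Pool.Agent.Y223.G Pool.Agent.T9h3 MvPolynomial Algebra
open Pool.Agent.Y614.WC (coeff_filt)

section deg0

variable {O K Λ ι : Type} [CommRing O] [Field K] [Algebra O K] [AddCommGroup Λ] [Fintype ι]
  {χ : Λ → K} {σ : K →+* K} {s : Module.End ℤ Λ}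
  {p : ℕ} {𝔓 : Ideal O} {l : ℕ} {Δ : Set Λ} {v : Λ} {b : Module.Basis ι ℤ Λ}

/-- The elements of degree zero. -/
lemma deg0 (h0 : χ 0 = 1) (ha : ∀ x y, χ (x + y) = χ x * χ y) (hs : s ^ p = 1)
    (hσ : ∀ x, σ (χ x) = χ (s x)) (hΔ : ∀ m ∈ Δ, s m ∈ Δ) (hc : CD Δ v b) (y : K) :
    hm 0 y ∈ GR χ σ p s 𝔓 l Δ v ↔ ∃ c : CG0 O χ Δ (χ v), (c : K) = y := by
  have hr : ∀ y, y ∈ CG0 O χ Δ (χ v) ↔ y ∈ (ev O χ b).range := by
    intro y
    rw [CG0_vertex h0 ha hc]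
    rfl
  constructor
  · intro hy
    have h1 := coeff_filt (k := O) (fun _ => ((ev O χ b).range : Set K))
      (fun n => Subring.zero_mem _) (fun n x y hx hy => Subring.add_mem _ hx hy)
      (fun m n x y hx hy => Subring.mul_mem _ hx hy) (fun m n _ => subset_rfl)
      (fun r => ⟨C r, ev_C _ _⟩) _ (by
        rintro f ((hf | ⟨a, ha, rfl⟩) | ⟨k, hk, u, hu, rfl⟩)
        · exact ⟨-1, 1, Subring.one_mem _, hf⟩
        · exact ⟨1, _, ⟨C a, ev_C _ _⟩, rfl⟩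
        · refine ⟨_, _, ?_, rfl⟩
          have hu0 := WW_mono hs hσ hΔ (Nat.zero_le k) hu
          clear hu
          change u ∈ Submodule.span ℤ (χ '' Δ) at hu0
          change u / χ v ∈ (ev O χ b).range
          induction hu0 using Submodule.span_induction with
          | mem x hx =>
            obtain ⟨m, hm, rfl⟩ := hx
            refine ⟨mon O b (m - v), ?_⟩
            rw [ev_mon h0 ha b (hc.nn m hm), chi_sub h0 ha]
          | zero => rw [zero_div]; exact Subring.zero_mem _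
          | add x y _ _ hx hy => rw [add_div]; exact Subring.add_mem _ hx hy
          | smul c x _ hx =>
            rw [zsmul_eq_mul, mul_div_assoc]
            exact Subring.mul_mem _ (intCast_mem _ c) hx) _ hy 0
    rw [coeff_hm_same] at h1
    exact ⟨⟨y, (hr y).2 h1⟩, rfl⟩
  · rintro ⟨c, rfl⟩
    obtain ⟨f, hf⟩ := (hr c).1 c.2
    rw [← hf]
    exact GR_C h0 ha hc f

end deg0

section reg

variable {O K Λ ι : Type} [CommRing O] [IsDomain O] [IsDedekindDomain O] [Field K]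
  [Algebra O K] [AddCommGroup Λ] [Fintype ι]
  {φ : AA O Λ →ₐ[O] K} {χ : Λ → K} {σ : K →+* K} {t : O →+* O} {s : Module.End ℤ Λ}
  {p : ℕ} {𝔓 : Ideal O} {l : ℕ} {Δ : Set Λ} {v : Λ} {b : Module.Basis ι ℤ Λ}
  {c : ℕ} {F : Fin c → AA O Λ} {u : Fin c → Λ}

lemma EV.σχ (e : EV φ χ σ t s) (x : Λ) : σ (χ x) = χ (s x) := by
  rw [← e.c, e.sg, sg_cx, e.c]

/-- The regularity at a point, abstractly. -/
lemma reg_abs {R N : Type} [CommRing R] [IsRegularRing R] [CommRing N] [IsDomain N]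
    (pr : R →+* N) (hpr : Function.Surjective pr) (F : Fin c → R) (hF0 : ∀ r, pr (F r) = 0)
    (hker : ∀ x, pr x = 0 → ∃ c, pr c ≠ 0 ∧ c * x ∈ Ideal.span (Set.range F))
    (PP : Ideal N) [PP.IsPrime] (D : Fin c → R → R) (hadd : ∀ i x y, D i (x + y) = D i x + D i y)
    (hmul : ∀ i x y, D i (x * y) = x * D i y + D i x * y)
    (hdet : (Matrix.of fun i r => D i (F r)).det ∉ PP.comap pr) :
    IsRegularLocalRing (Localization.AtPrime PP) := by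
  refine lemQ pr hpr F hF0 hker PP ?_
  intro d hd r
  have hP : (PP.comap pr).IsPrime := Ideal.comap_isPrime _ _
  refine der_mat (PP.comap pr) F (fun r => ?_) D hadd hmul hdet d hd r
  rw [Ideal.mem_comap, hF0]
  exact PP.zero_mem

lemma hl_sub {A : Type} [CommRing A] (d : ℤ) (a b : A) : hl d (a - b) = hl d a - hl d b := by
  rw [eq_sub_iff_add_eq, ← hl_add, sub_add_cancel]

/-- The graded algebra is regular. -/
lemma RA_reg {𝕂 : Type} [Field 𝕂] [Algebra O 𝕂] {φ0 : AA O Λ →ₐ[O] 𝕂} {χ0 : Λ → 𝕂}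
    {σ0 : 𝕂 →+* 𝕂} (e0 : EV φ0 χ0 σ0 t s) (h0 : Function.Injective φ0)
    (h : TD O 𝕂 Λ p σ0 t s χ0 𝔓 l) (hc : CD Δ v b)
    (hΔ : ∀ m ∈ Δ, s m ∈ Δ) (hfin : Δ.Finite) (hR : RD p s Δ v b) :
    IsRegularRing (RA t p s 𝔓 l Δ v) := by
  have h1 : IsRegularRing (GR χ0 σ0 p s 𝔓 l Δ v) := GR_reg h hc hΔ hfin hR
  rw [← e0.GR] at h1
  exact IsRegularRing.of_ringEquiv
    (Subalgebra.equivMapOfInjective (RA t p s 𝔓 l Δ v) (ml φ0) (ml_inj h0)).symm.toRingEquiv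

/-- The surjection onto the graded algebra of the evaluation. -/
noncomputable def prR (p : ℕ) (𝔓 : Ideal O) (l : ℕ) (Δ : Set Λ) (v : Λ) (e : EV φ χ σ t s) :
    RA t p s 𝔓 l Δ v →+* GR χ σ p s 𝔓 l Δ v where
  toFun := fun f => ⟨ml φ f, by rw [← e.GR]; exact ⟨f, f.2, rfl⟩⟩
  map_one' := Subtype.ext (map_one _)
  map_mul' := fun f g => Subtype.ext (map_mul _ _ _)
  map_zero' := Subtype.ext (map_zero _)
  map_add' := fun f g => Subtype.ext (map_add _ _ _)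

lemma prR_val (e : EV φ χ σ t s) (f : RA t p s 𝔓 l Δ v) :
    ((prR p 𝔓 l Δ v e f : GR χ σ p s 𝔓 l Δ v) : LP K) = ml φ f := rfl

lemma prR_surj (e : EV φ χ σ t s) : Function.Surjective (prR p 𝔓 l Δ v e) := by
  rintro ⟨g, hg⟩
  have hg' := hg
  rw [← e.GR] at hg'
  obtain ⟨f, hf, hfg⟩ := hg'
  exact ⟨⟨f, hf⟩, Subtype.ext hfg⟩

/-- The coordinate ring of the chart in the graded algebra. -/
noncomputable def rc (t : O →+* O) (p : ℕ) (s : Module.End ℤ Λ) (𝔓 : Ideal O) (l : ℕ)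
    (hc : CD Δ v b) : MvPolynomial ι O →+* RA t p s 𝔓 l Δ v where
  toFun := fun f => ⟨hl 0 (eA b f), RA_C hc f⟩
  map_one' := Subtype.ext (by
    change hl 0 (eA b 1) = 1
    rw [map_one]
    rfl)
  map_mul' := fun f g => Subtype.ext (by
    change hl 0 (eA b (f * g)) = hl 0 (eA b f) * hl 0 (eA b g)
    rw [map_mul, hl_mul, add_zero])
  map_zero' := Subtype.ext (by
    change hl 0 (eA b 0) = 0
    rw [map_zero, hl_zero])
  map_add' := fun f g => Subtype.ext (by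
    change hl 0 (eA b (f + g)) = hl 0 (eA b f) + hl 0 (eA b g)
    rw [map_add, hl_add])

lemma rc_val (hc : CD Δ v b) (f : MvPolynomial ι O) :
    ((rc t p s 𝔓 l hc f : RA t p s 𝔓 l Δ v) : AddMonoidAlgebra (AA O Λ) ℤ) = hl 0 (eA b f) := rfl

/-- The norm relations on the exceptional divisor. -/
lemma rc_norm (hp2 : 2 ≤ p) (hl1 : 1 ≤ l) (hc : CD Δ v b) (P : Ideal (RA t p s 𝔓 l Δ v))
    (hPT : (⟨hl (-1) 1, RA_s⟩ : RA t p s 𝔓 l Δ v) ∈ P) {m m' : Λ} (hm : m ∈ Δ) (hm' : m' ∈ Δ)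
    (hN : Nm p s m = Nm p s m') :
    rc t p s 𝔓 l hc (mon O b (m - v)) - rc t p s 𝔓 l hc (mon O b (m' - v)) ∈ P := by
  have h1 : hl ((1 * l : ℕ) : ℤ) ((cx O m - cx O m') * cx O (-v)) ∈ RA t p s 𝔓 l Δ v := by
    refine RA_W (by omega) ?_
    change _ ∈ (W1A O p s Δ).map ((dA t s) ^ 0)
    exact ⟨cx O m - cx O m', Submodule.subset_span ⟨m, hm, m', hm', hN, rfl⟩, rfl⟩
  have h2 : ∀ n : ℕ, ((⟨hl (-1) 1, RA_s⟩ : RA t p s 𝔓 l Δ v) ^ n : RA t p s 𝔓 l Δ v) =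
      (hl (-(n : ℤ)) 1 : AddMonoidAlgebra (AA O Λ) ℤ) := by
    intro n
    rw [SubmonoidClass.coe_pow]
    change (hl (-1) 1 : AddMonoidAlgebra (AA O Λ) ℤ) ^ n = hl (-(n : ℤ)) 1
    induction n with
    | zero => rfl
    | succ n ih =>
      rw [pow_succ, ih, hl_mul, one_mul]
      congr 1
      push_cast
      ring
  have h3 : rc t p s 𝔓 l hc (mon O b (m - v)) - rc t p s 𝔓 l hc (mon O b (m' - v)) =
      (⟨hl (-1) 1, RA_s⟩ : RA t p s 𝔓 l Δ v) ^ l *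
        ⟨hl ((1 * l : ℕ) : ℤ) ((cx O m - cx O m') * cx O (-v)), h1⟩ := by
    apply Subtype.ext
    rw [AddSubgroupClass.coe_sub, MulMemClass.coe_mul, h2, rc_val, rc_val, eA_mon (hc.nn m hm),
      eA_mon (hc.nn m' hm'), ← hl_sub, hl_mul, one_mul, sub_mul, ← cx_add, ← cx_add,
      ← sub_eq_add_neg, ← sub_eq_add_neg]
    congr 1
    · push_cast
      ring
    · rw [one_mul]
  rw [h3]
  exact P.mul_mem_right _ (P.pow_mem_of_mem hPT l (by omega))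

lemma rc_P (hc : CD Δ v b) (P : Ideal (RA t p s 𝔓 l Δ v))
    (hPT : (⟨hl (-1) 1, RA_s⟩ : RA t p s 𝔓 l Δ v) ∈ P) {o : O} (ho : o ∈ 𝔓) :
    rc t p s 𝔓 l hc (C o) ∈ P := by
  have h3 : rc t p s 𝔓 l hc (C o) = (⟨hl (-1) 1, RA_s⟩ : RA t p s 𝔓 l Δ v) *
      ⟨hl 1 (algebraMap O (AA O Λ) o), RA_P ho⟩ := by
    apply Subtype.ext
    rw [MulMemClass.coe_mul, rc_val, eA_C]
    change _ = hl (-1) 1 * hl 1 (algebraMap O (AA O Λ) o)
    rw [hl_mul, one_mul]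
    rfl
  rw [h3]
  exact P.mul_mem_right _ hPT

/-- The residue field. -/
lemma exists_res {A R : Type} [CommRing A] [CommRing R] (P : Ideal R) [P.IsPrime] (f : A →+* R) :
    ∃ (κ : Type) (_ : Field κ) (e : A →+* κ), ∀ a, e a = 0 ↔ f a ∈ P :=
  ⟨P.ResidueField, inferInstance, (algebraMap R P.ResidueField).comp f,
    fun _ => Ideal.algebraMap_residueField_eq_zero⟩

/-- The smooth directions at the points of the exceptional divisor. -/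
lemma rc_det (hp : p.Prime) (hs : s ^ p = 1) (hp𝔓 : (p : O) ∈ 𝔓) (hl1 : 1 ≤ l)
    (hΔ : ∀ m ∈ Δ, s m ∈ Δ) (hc : CD Δ v b) (hu : MN b F u) (hW : WD s 𝔓 F)
    (P : Ideal (RA t p s 𝔓 l Δ v)) [hP : P.IsPrime]
    (hPT : (⟨hl (-1) 1, RA_s⟩ : RA t p s 𝔓 l Δ v) ∈ P)
    (hF : ∀ r, rc t p s 𝔓 l hc (FW b (F r) (u r)) ∈ P) :
    ∃ w : Fin c → Λ →ₗ[ℤ] ℤ, (∀ i x, w i (s x) = w i x) ∧
      rc t p s 𝔓 l hc (Matrix.of fun i r => dW (w i) b (FW b (F r) (u r))).det ∉ P := by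
  obtain ⟨κ, _, e, hker⟩ := exists_res (A := MvPolynomial ι O) (R := RA t p s 𝔓 l Δ v) P
    (rc t p s 𝔓 l hc)
  have hfp : Fact p.Prime := ⟨hp⟩
  have hch : CharP κ p := by
    have h1 : (p : κ) = 0 := by
      have h2 := (hker _).2 (rc_P hc P hPT hp𝔓)
      rw [map_natCast, map_natCast] at h2
      exact h2
    obtain ⟨q, hq⟩ := CharP.exists κ
    have h2 : q ∣ p := (CharP.cast_eq_zero_iff _ q p).1 h1
    rcases (Nat.dvd_prime hp).1 h2 with h3 | h3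
    · exfalso
      have h4 : ((1 : ℕ) : κ) = 0 := (CharP.cast_eq_zero_iff _ q 1).2 (by rw [h3])
      rw [Nat.cast_one] at h4
      exact one_ne_zero h4
    · rw [← h3]; exact hq
  obtain ⟨w, hw1, hw2⟩ := wild_pt hs hΔ hc e (fun m hm m' hm' hN => by
    rw [← sub_eq_zero, ← map_sub, hker, map_sub]
    exact rc_norm hp.two_le hl1 hc P hPT hm hm' hN) (fun o ho => (hker _).2 (rc_P hc P hPT ho))
    hW hu (fun r => (hker _).2 (hF r))
  exact ⟨w, hw1, fun h => hw2 ((hker _).2 h)⟩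

/-- Regularity at the points of the exceptional divisor. -/
lemma GR_reg1 (hreg : IsRegularRing (RA t p s 𝔓 l Δ v)) (hp : p.Prime) (hs : s ^ p = 1)
    (hp𝔓 : (p : O) ∈ 𝔓) (hl1 : 1 ≤ l) (hΔ : ∀ m ∈ Δ, s m ∈ Δ)
    (hne : 𝔓 ≠ ⊥) (e : EV φ χ σ t s) (H : HK φ F) (hc : CD Δ v b)
    (hu : MN b F u) (hW : WD s 𝔓 F)
    (PP : Ideal (GR χ σ p s 𝔓 l Δ v)) (hPP : PP.IsPrime)
    (hPT : (⟨hm (-1) 1, GR_s⟩ : GR χ σ p s 𝔓 l Δ v) ∈ PP) :
    IsRegularLocalRing (Localization.AtPrime PP) := by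
  obtain ⟨P, hPd⟩ : ∃ P, P = PP.comap (prR p 𝔓 l Δ v e) := ⟨_, rfl⟩
  have hP : P.IsPrime := by rw [hPd]; exact Ideal.comap_isPrime _ _
  have hPT' : (⟨hl (-1) 1, RA_s⟩ : RA t p s 𝔓 l Δ v) ∈ P := by
    rw [hPd, Ideal.mem_comap]
    have h1 : prR p 𝔓 l Δ v e ⟨hl (-1) 1, RA_s⟩ = ⟨hm (-1) 1, GR_s⟩ := by
      apply Subtype.ext
      rw [prR_val]
      change ml φ (hl (-1) 1) = _
      rw [ml_hl, map_one]
    rw [h1]
    exact hPT
  have hF0 : ∀ r, prR p 𝔓 l Δ v e (rc t p s 𝔓 l hc (FW b (F r) (u r))) = 0 := by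
    intro r
    apply Subtype.ext
    rw [prR_val, rc_val, eA_FW (hu.p r), ml_hl, map_mul, H.z, zero_mul, hm_zero]
    rfl
  have hFP : ∀ r, rc t p s 𝔓 l hc (FW b (F r) (u r)) ∈ P := by
    intro r
    rw [hPd, Ideal.mem_comap, hF0]
    exact PP.zero_mem
  obtain ⟨w, hw1, hw2⟩ := rc_det hp hs hp𝔓 hl1 hΔ hc hu hW P hPT' hFP
  refine reg_abs (R := RA t p s 𝔓 l Δ v) (N := GR χ σ p s 𝔓 l Δ v) (prR p 𝔓 l Δ v e)
    (prR_surj e) (fun r => rc t p s 𝔓 l hc (FW b (F r) (u r))) hF0 ?_ PP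
    (fun i f => ⟨DL (Dh (w i)) f, RA_D hp.ne_zero (hw1 i) f.2⟩) ?_ ?_ ?_
  · intro x hx
    have h1 : ml φ (x : AddMonoidAlgebra (AA O Λ) ℤ) = 0 := by
      rw [← prR_val e, hx]
      rfl
    obtain ⟨d, hd1, hd2, y, hy1, hy2⟩ := H.ker e hc hne u h1
    refine ⟨⟨d, hd1⟩, fun h2 => hd2 ?_, ?_⟩
    · exact congrArg (fun z : GR χ σ p s 𝔓 l Δ v => (z : LP K)) h2
    · rw [mem_span_iff]
      refine ⟨fun r => ⟨y r, hy1 r⟩, Subtype.ext ?_⟩
      rw [AddSubmonoidClass.coe_finsetSum]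
      refine hy2.trans (Finset.sum_congr rfl fun r _ => ?_)
      rw [MulMemClass.coe_mul, rc_val, eA_FW (hu.p r)]
  · intro i x y
    apply Subtype.ext
    exact DL_add _ _ _
  · intro i x y
    apply Subtype.ext
    exact DL_mul (Dh (w i)) (fun a b => by rw [Dh_apply, Dh_apply, Dh_apply, Dw_mul]) _ _
  · rw [← hPd]
    have h1 : (Matrix.of fun i r => (⟨DL (Dh (w i)) (rc t p s 𝔓 l hc (FW b (F r) (u r)) :
        RA t p s 𝔓 l Δ v), RA_D hp.ne_zero (hw1 i) (rc t p s 𝔓 l hc (FW b (F r) (u r))).2⟩ :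
          RA t p s 𝔓 l Δ v)) = (rc t p s 𝔓 l hc).mapMatrix
        (Matrix.of fun i r => dW (w i) b (FW b (F r) (u r))) := by
      ext1 i r
      apply Subtype.ext
      change DL (Dh (w i)) (hl 0 (eA b (FW b (F r) (u r)))) =
        hl 0 (eA b (dW (w i) b (FW b (F r) (u r))))
      rw [DL_hl, Dh_apply, eA_dW]
    rw [h1, ← RingHom.map_det]
    exact hw2

/-- **Regularity.** -/
theorem GR_regH {𝕂 : Type} [Field 𝕂] [Algebra O 𝕂] {φ0 : AA O Λ →ₐ[O] 𝕂}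
    {χ0 : Λ → 𝕂} {σ0 : 𝕂 →+* 𝕂} (e0 : EV φ0 χ0 σ0 t s) (h0 : Function.Injective φ0)
    (h : TD O 𝕂 Λ p σ0 t s χ0 𝔓 l) (e : EV φ χ σ t s) (H : HK φ F) (hc : CD Δ v b)
    (hΔ : ∀ m ∈ Δ, s m ∈ Δ) (hfin : Δ.Finite) (hR : RD p s Δ v b)
    (hu : MN b F u) (hW : WD s 𝔓 F)
    (hC : IsRegularRing (CG0 O χ Δ (χ v))) : IsRegularRing (GR χ σ p s 𝔓 l Δ v) := by
  have hN : IsNoetherianRing (GR χ σ p s 𝔓 l Δ v) := GR_noeth hfin
  have hT : (hm (-1) 1 : LP K) ∈ GR χ σ p s 𝔓 l Δ v := GR_s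
  have hp𝔓 : (p : O) ∈ 𝔓 := by
    refine Ideal.pow_le_self ?_ h.pl
    have h1 := h.pp.two_le
    have h2 := h.l1
    exact Nat.mul_ne_zero (by omega) (by omega)
  rw [isRegularRing_iff]
  intro PP hPP
  by_cases hPT : (⟨hm (-1) 1, hT⟩ : GR χ σ p s 𝔓 l Δ v) ∈ PP
  · exact GR_reg1 (RA_reg e0 h0 h hc hΔ hfin hR) h.pp h.sp hp𝔓 h.l1 hΔ h.ne e H hc hu hW PP
      hPP hPT
  · let _ := Pool.Agent.Y223.G.locAlg (GR χ σ p s 𝔓 l Δ v) hT
    have h1 : IsLocalization.Away (⟨hm (-1) 1, hT⟩ : GR χ σ p s 𝔓 l Δ v)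
        (loc (GR χ σ p s 𝔓 l Δ v) (hm (-1) 1) hT) :=
      isLocalization_loc _ hT (isUnit_hm one_ne_zero)
    have h2 : IsRegularRing (loc (GR χ σ p s 𝔓 l Δ v) (hm (-1) 1) hT) :=
      Pool.Agent.Y563.GW.regular_case1 (C := CG0 O χ Δ (χ v))
        (j := (CG0 O χ Δ (χ v)).val.toRingHom) GR_gr hT (fun d x hx => GR_zero hx)
        Subtype.val_injective (deg0 e.χ0 e.χa h.sp e.σχ hΔ hc)
    refine Pool.Agent.Y563.GW.reg_of_loc (B := loc (GR χ σ p s 𝔓 l Δ v) (hm (-1) 1) hT)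
      (Submonoid.powers (⟨hm (-1) 1, hT⟩ : GR χ σ p s 𝔓 l Δ v)) PP ?_ ?_
    · rw [Set.disjoint_left]
      rintro _ ⟨n, rfl⟩ h3
      exact hPT (hPP.mem_of_pow_mem n h3)
    · intro p _ _
      infer_instance

end reg

end Pool.Agent.T9h3.H
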