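import Pool.Agent.T9h3.H.Czr

/-!
# The operator `σ - 1` and the leading form for a hypersurface
-/

set_option autoImplicit false
set_option linter.unusedSectionVars false

namespace Pool.Agent.T9h3.H

open Pool.Agent.Y223.G Pool.Agent.T9h3 MvPolynomial Algebra
open Pool.Agent.Y86.G5 (im mem_im im_sub im_mul im_prime im_one im_pow)

/-- The hypotheses on the prime ideal of the graded algebra. -/
structure NQ0 {O K Λ : Type} [CommRing O] [Field K] [Algebra O K] [AddCommGroup Λ] {χ : Λ → K}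
    {σ : K →+* K} {p : ℕ} {s : Module.End ℤ Λ} {𝔓 : Ideal O} {l : ℕ} {Δ : Set Λ} {v : Λ}
    (t : O →+* O) (𝔔 : Ideal (GR χ σ p s 𝔓 l Δ v)) : Prop where
  pr : 𝔔.IsPrime
  n1 : ∀ a ∈ 𝔓, hm 0 (algebraMap O K a) ∈ im (GR χ σ p s 𝔓 l Δ v) 𝔔
  n2 : ∀ a ∈ 𝔓, hm (1 + l : ℕ) (algebraMap O K (t a - a)) ∈ im (GR χ σ p s 𝔓 l Δ v) 𝔔
  n3 : ∀ k, k ≤ p - 1 → ∀ u ∈ WW χ σ p s Δ k,
    hm ((k + 1) * l : ℕ) ((u * σ (χ v) - χ v * σ u) / χ v ^ 2) ∈ im (GR χ σ p s 𝔓 l Δ v) 𝔔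

/-- The properties of a vertex. -/
structure VF {O K Λ : Type} [CommRing O] [Field K] [Algebra O K] [AddCommGroup Λ] (χ : Λ → K)
    (σ : K →+* K) (p : ℕ) (t : O →+* O) (s : Module.End ℤ Λ) (𝔓 : Ideal O) (l : ℕ) (Δ : Set Λ)
    (v : Λ) : Prop where
  vm : v ∈ Δ
  reg : IsRegularRing (GR χ σ p s 𝔓 l Δ v)
  d : ∀ k, k ≤ p - 1 → ∀ u ∈ WW χ σ p s Δ k,
    hm ((k + 1) * l : ℕ) (dK σ u / χ v) ∈ GR χ σ p s 𝔓 l Δ v
  nd : ∀ 𝔔 : Ideal (GR χ σ p s 𝔓 l Δ v), NQ0 t 𝔔 → ∀ n : ℤ, 0 < n → ∀ x : K,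
    hm n x ∈ GR χ σ p s 𝔓 l Δ v → hm n x ∈ im (GR χ σ p s 𝔓 l Δ v) 𝔔

section

variable {O K Λ ι : Type} [CommRing O] [IsDomain O] [IsDedekindDomain O] [Field K]
  [Algebra O K] [AddCommGroup Λ] [Fintype ι]
  {φ : AA O Λ →ₐ[O] K} {χ : Λ → K} {σ : K →+* K} {t : O →+* O} {s : Module.End ℤ Λ}
  {p : ℕ} {𝔓 : Ideal O} {l : ℕ} {Δ : Set Λ} {v : Λ} {b : Module.Basis ι ℤ Λ}
  {c : ℕ} {F : Fin c → AA O Λ} {u : Fin c → Λ}
  {𝕂 : Type} [Field 𝕂] [Algebra O 𝕂] {φ0 : AA O Λ →ₐ[O] 𝕂} {χ0 : Λ → 𝕂} {σ0 : 𝕂 →+* 𝕂}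

lemma EV.dK1 (e : EV φ χ σ t s) (f : AA O Λ) : T9h3.dK σ (φ f) = φ (dA t s f) := by
  have := e.dK 1 f
  rwa [pow_one, pow_one] at this

/-- The operator `σ - 1` upstairs. -/
lemma RA_dd (e0 : EV φ0 χ0 σ0 t s) (h0 : Function.Injective φ0)
    (h : TD O 𝕂 Λ p σ0 t s χ0 𝔓 l) (hc : CD Δ v b)
    (hΔ : ∀ m ∈ Δ, s m ∈ Δ) (hR : RD p s Δ v b) {k : ℕ} (hk : k ≤ p - 1) {f : AA O Λ}
    (hf : f ∈ WWA t p s Δ k) : hl ((k + 1) * l : ℕ) (dA t s f * cx O (-v)) ∈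
      RA t p s 𝔓 l Δ v := by
  rw [e0.hl_iff h0, e0.mul_neg, ← e0.dK1]
  exact GR_d h hc hΔ hR hk (e0.mem hf)

/-- The operator `σ - 1` downstairs. -/
theorem d_H (e0 : EV φ0 χ0 σ0 t s) (h0 : Function.Injective φ0)
    (h : TD O 𝕂 Λ p σ0 t s χ0 𝔓 l) (e : EV φ χ σ t s) (hc : CD Δ v b)
    (hΔ : ∀ m ∈ Δ, s m ∈ Δ) (hR : RD p s Δ v b) {k : ℕ} (hk : k ≤ p - 1) {u : K}
    (hu : u ∈ WW χ σ p s Δ k) : hm ((k + 1) * l : ℕ) (T9h3.dK σ u / χ v) ∈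
      GR χ σ p s 𝔓 l Δ v := by
  obtain ⟨f, hf, rfl⟩ := e.lift hu
  rw [e.dK1, ← e.mul_neg]
  exact e.hl_mem (RA_dd e0 h0 h hc hΔ hR hk hf)

lemma RA_pow (n : ℕ) : ∀ o ∈ 𝔓 ^ n, hl (n : ℤ) (algebraMap O (AA O Λ) o) ∈
    RA t p s 𝔓 l Δ v := by
  induction n with
  | zero => intro o _; exact RA_O o
  | succ n ih =>
    intro o ho
    rw [pow_succ] at ho
    refine Submodule.mul_induction_on ho (fun x hx y hy => ?_) (fun x y hx hy => ?_)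
    · have h3 := Subalgebra.mul_mem _ (ih x hx) (RA_P (t := t) (p := p) (s := s) (l := l) (Δ := Δ)
        (v := v) hy)
      rw [hl_mul, ← map_mul] at h3
      exact_mod_cast h3
    · rw [map_add, hl_add]
      exact Subalgebra.add_mem _ hx hy

/-- The minors upstairs. -/
lemma RA_minor (e0 : EV φ0 χ0 σ0 t s) (h0 : Function.Injective φ0)
    (h : TD O 𝕂 Λ p σ0 t s χ0 𝔓 l) (hc : CD Δ v b)
    (hΔ : ∀ m ∈ Δ, s m ∈ Δ) (hR : RD p s Δ v b) {k : ℕ} (hk : k ≤ p - 1) {f : AA O Λ}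
    (hf : f ∈ WWA t p s Δ k) : hl ((k + 1) * l : ℕ)
      ((f * sg t s (cx O v) - cx O v * sg t s f) * cx O (-v) * cx O (-v)) ∈
      RA t p s 𝔓 l Δ v := by
  have h2 := RA_dd e0 h0 h hc hΔ hR hk hf
  have h3 := RA_W (v := v) (𝔓 := 𝔓) (l := l) hk hf
  have h4 := RA_dd e0 h0 h hc hΔ hR (Nat.zero_le _) (Submodule.subset_span ⟨v, hc.vm, rfl⟩ :
    cx O v ∈ WWA t p s Δ 0)
  have h5 := Subalgebra.sub_mem _ (Subalgebra.mul_mem _ h3 h4) h2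
  rw [hl_mul] at h5
  have e2 : (((k * l : ℕ) : ℤ) + (((0 + 1) * l : ℕ) : ℤ)) = ((k + 1) * l : ℕ) := by
    push_cast; ring
  rw [e2, ← hl_sub] at h5
  have e3 : f * cx O (-v) * (dA t s (cx O v) * cx O (-v)) - dA t s f * cx O (-v) =
      (f * sg t s (cx O v) - cx O v * sg t s f) * cx O (-v) * cx O (-v) := by
    rw [dA_apply, dA_apply]
    have h6 := cx_neg_mul (O := O) v
    linear_combination (-f * cx O (-v) + cx O (-v) * sg t s f) * h6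
  rwa [e3] at h5

/-- **The leading form has no zeros.** -/
theorem nd_H (e0 : EV φ0 χ0 σ0 t s) (h0 : Function.Injective φ0)
    (h : TD O 𝕂 Λ p σ0 t s χ0 𝔓 l) (e : EV φ χ σ t s) (hc : CD Δ v b)
    (hΔ : ∀ m ∈ Δ, s m ∈ Δ) (hR : RD p s Δ v b) (𝔔 : Ideal (GR χ σ p s 𝔓 l Δ v))
    (N : NQ0 t 𝔔) {n : ℤ} (hn : 0 < n) {x : K} (hx : hm n x ∈ GR χ σ p s 𝔓 l Δ v) :
    hm n x ∈ im (GR χ σ p s 𝔓 l Δ v) 𝔔 := by
  have hbij : Function.Bijective (prR p 𝔓 l Δ v e0) := by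
    refine ⟨fun f g hfg => Subtype.ext (ml_inj h0 ?_), prR_surj e0⟩
    have := congrArg (fun z : GR χ0 σ0 p s 𝔓 l Δ v => (z : LP 𝕂)) hfg
    exact this
  let E : RA t p s 𝔓 l Δ v ≃+* GR χ0 σ0 p s 𝔓 l Δ v := RingEquiv.ofBijective _ hbij
  obtain ⟨𝔔0, h𝔔0⟩ : ∃ 𝔔0 : Ideal (GR χ0 σ0 p s 𝔓 l Δ v),
    𝔔0 = (𝔔.comap (prR p 𝔓 l Δ v e)).comap (E.symm : GR χ0 σ0 p s 𝔓 l Δ v →+* _) := ⟨_, rfl⟩
  have key : ∀ (d : ℤ) (y : AA O Λ), hl d y ∈ RA t p s 𝔓 l Δ v →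
      (hm d (φ0 y) ∈ im (GR χ0 σ0 p s 𝔓 l Δ v) 𝔔0 ↔ hm d (φ y) ∈ im (GR χ σ p s 𝔓 l Δ v) 𝔔) := by
    intro d y hy
    have h1 : ∀ h2 : hm d (φ0 y) ∈ GR χ0 σ0 p s 𝔓 l Δ v,
        E.symm ⟨hm d (φ0 y), h2⟩ = ⟨hl d y, hy⟩ := by
      intro h2
      rw [RingEquiv.symm_apply_eq]
      apply Subtype.ext
      change _ = ml φ0 (hl d y)
      rw [ml_hl]
    have h3 : prR p 𝔓 l Δ v e ⟨hl d y, hy⟩ = ⟨hm d (φ y), e.hl_mem hy⟩ := by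
      apply Subtype.ext
      rw [prR_val, ml_hl]
    rw [mem_im, mem_im]
    constructor
    · rintro ⟨h2, h4⟩
      refine ⟨e.hl_mem hy, ?_⟩
      rw [h𝔔0] at h4
      have h5 : prR p 𝔓 l Δ v e (E.symm ⟨hm d (φ0 y), h2⟩) ∈ 𝔔 := h4
      rwa [h1, h3] at h5
    · rintro ⟨h2, h4⟩
      refine ⟨e0.hl_mem hy, ?_⟩
      rw [h𝔔0]
      change prR p 𝔓 l Δ v e (E.symm ⟨hm d (φ0 y), _⟩) ∈ 𝔔
      rw [h1, h3]
      exact h4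
  have N0 : NQ h 𝔔0 := by
    refine ⟨?_, fun a ha => ?_, fun a ha => ?_, fun k hk u hu => ?_⟩
    · rw [h𝔔0]
      have h1 := N.pr
      have h2 : (𝔔.comap (prR p 𝔓 l Δ v e)).IsPrime := Ideal.comap_isPrime _ _
      exact Ideal.comap_isPrime _ _
    · have h1 := (key 0 (algebraMap O (AA O Λ) a) (RA_O a)).2 (by
        rw [AlgHom.commutes]
        exact N.n1 a ha)
      rwa [AlgHom.commutes] at h1
    · have h1 := (key (1 + l : ℕ) (algebraMap O (AA O Λ) (t a - a)) (by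
        rw [add_comm 1 l]
        exact RA_pow (l + 1) _ (h.dv a))).2 (by
        rw [AlgHom.commutes]
        exact N.n2 a ha)
      rwa [AlgHom.commutes] at h1
    · obtain ⟨f, hf, rfl⟩ := e0.lift hu
      have h1 := (key _ _ (RA_minor e0 h0 h hc hΔ hR hk hf)).2 (by
        rw [e.mul_neg, e.mul_neg, map_sub, map_mul, map_mul, ← e.sg, ← e.sg, e.c, div_div, ← sq]
        exact N.n3 k hk _ (e.mem hf))
      rw [e0.mul_neg, e0.mul_neg, map_sub, map_mul, map_mul, ← e0.sg, ← e0.sg, e0.c, div_div,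
        ← sq] at h1
      exact h1
  have hx' := hx
  rw [← e.GR] at hx'
  obtain ⟨f, hf, hfx⟩ := hx'
  have hf1 := e0.gr h0 hf n
  have hf2 : φ (f.coeff n) = x := by
    rw [← ml_coeff]
    have h1 : (ml φ f).coeff n = (hm n x).coeff n := congrArg (fun g : LP K => g.coeff n) hfx
    rw [h1, coeff_hm_same]
  have h1 := nd_vertex hc hΔ hR N0 hn (e0.hl_mem hf1)
  have h2 := (key n _ hf1).1 h1
  rwa [hf2] at h2

/-- **The properties of the vertices.** -/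
theorem VF_H (e0 : EV φ0 χ0 σ0 t s) (h0 : Function.Injective φ0)
    (h : TD O 𝕂 Λ p σ0 t s χ0 𝔓 l) (e : EV φ χ σ t s) (H : HK φ F) (hc : CD Δ v b)
    (hΔ : ∀ m ∈ Δ, s m ∈ Δ) (hfin : Δ.Finite) (hR : RD p s Δ v b)
    (hu : MN b F u) (hW : WD s 𝔓 F)
    (hC : IsRegularRing (CG0 O χ Δ (χ v))) : VF χ σ p t s 𝔓 l Δ v :=
  ⟨hc.vm, GR_regH e0 h0 h e H hc hΔ hfin hR hu hW hC,
    fun _ hk _ hu => d_H e0 h0 h e hc hΔ hR hk hu,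
    fun 𝔔 N _ hn _ hx => nd_H e0 h0 h e hc hΔ hR 𝔔 N hn hx⟩

end

end Pool.Agent.T9h3.H
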