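import Pool.Agent.T9h3.H.Pts

/-!
# The fixed points of the charts and the fixed points of the torus
-/

set_option autoImplicit false
set_option linter.unusedSectionVars false

namespace Pool.Agent.T9h3.H

open Pool.Agent.Y223.G Pool.Agent.T9h3 MvPolynomial Algebra

section mult

variable {Λ ι κ : Type} [AddCommGroup Λ] [Fintype ι] {b : Module.Basis ι ℤ Λ} [Field κ]

lemma hom_prod (g : Multiplicative Λ →* κ) (x : Λ) :
    g (Multiplicative.ofAdd x) = ∏ i, g (Multiplicative.ofAdd (b i)) ^ (b.repr x i) := by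
  conv_lhs => rw [← b.sum_repr x]
  rw [ofAdd_sum, map_prod]
  refine Finset.prod_congr rfl fun i _ => ?_
  rw [ofAdd_zsmul, map_zpow]

end mult

section wpt

variable {O Λ ι κ : Type} [CommRing O] [AddCommGroup Λ] [Fintype ι] {b : Module.Basis ι ℤ Λ}
  [Field κ] {c : ℕ} {F : Fin c → AA O Λ} {u : Fin c → Λ} {p : ℕ} {s : Module.End ℤ Λ}
  {𝔓 : Ideal O} {Δ : Set Λ} {v : Λ}

/-- **The charts: the equations are smooth along the centre.** -/
theorem wild_pt [hp : Fact p.Prime] [hκ : CharP κ p] (hs : s ^ p = 1) (hΔ : ∀ m ∈ Δ, s m ∈ Δ)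
    (hc : CD Δ v b) (e : MvPolynomial ι O →+* κ)
    (he : ∀ m ∈ Δ, ∀ m' ∈ Δ, Nm p s m = Nm p s m' → e (mon O b (m - v)) = e (mon O b (m' - v)))
    (h𝔓 : ∀ o ∈ 𝔓, e (C o) = 0) (hW : WD s 𝔓 F) (hu : MN b F u)
    (hF : ∀ r, e (FW b (F r) (u r)) = 0) :
    ∃ w : Fin c → Λ →ₗ[ℤ] ℤ, (∀ i x, w i (s x) = w i x) ∧
      e (Matrix.of fun i r => dW (w i) b (FW b (F r) (u r))).det ≠ 0 := by
  classical
  obtain ⟨N, hN⟩ : ∃ N : ι → Prop, ∀ i, N i ↔ e (X i) = 0 := ⟨fun i => e (X i) = 0, fun i => Iff.rfl⟩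
  obtain ⟨y, hy⟩ : ∃ y : ι → κ, ∀ i, y i = if N i then 1 else e (X i) := ⟨_, fun i => rfl⟩
  have hy0 : ∀ i, y i ≠ 0 := by
    intro i
    rw [hy]
    split_ifs with h
    · exact one_ne_zero
    · exact fun h' => h ((hN i).2 h')
  have hN' : ∀ i, N i → e (X i) = 0 := fun i => (hN i).1
  obtain ⟨g0, hg0⟩ : ∃ g0, g0 = zc b y hy0 := ⟨_, rfl⟩
  -- the monomials
  have ha : ∀ z, (∀ i, 0 ≤ b.repr z i) → (∀ i, N i → b.repr z i = 0) →
      e (mon O b z) = g0 (Multiplicative.ofAdd z) := by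
    intro z hz hzN
    rw [hg0, zc_apply]
    unfold mon
    rw [map_prod]
    refine Finset.prod_congr rfl fun i _ => ?_
    rw [map_pow, hy]
    by_cases h : N i
    · rw [if_pos h, hzN i h, one_zpow, Int.toNat_zero, pow_zero]
    · rw [if_neg h]
      conv_rhs => rw [← Int.toNat_of_nonneg (hz i), zpow_natCast]
  have hb : ∀ z, e (mon O b z) ≠ 0 → ∀ i, N i → (b.repr z i).toNat = 0 := by
    intro z hz i hi
    by_contra hcon
    apply hz
    unfold mon
    rw [map_prod]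
    refine Finset.prod_eq_zero (Finset.mem_univ i) ?_
    rw [map_pow, hN' i hi, zero_pow hcon]
  have hg0n : ∀ z, g0 (Multiplicative.ofAdd z) ≠ 0 := by
    intro z
    rw [hg0, zc_apply]
    exact Finset.prod_ne_zero_iff.2 fun i _ => zpow_ne_zero _ (hy0 i)
  -- the face
  have hcc : ∀ m ∈ Δ, (∀ i, N i → b.repr (m - v) i = 0) →
      (∀ i, N i → b.repr (s m - v) i = 0) ∧
      g0 (Multiplicative.ofAdd (s m - v)) = g0 (Multiplicative.ofAdd (m - v)) := by
    intro m hm hmN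
    have h1 := ha (m - v) (hc.nn m hm) hmN
    have h2 := he m hm (s m) (hΔ m hm) (Nm_s hs m).symm
    have h3 : e (mon O b (s m - v)) ≠ 0 := by
      rw [← h2, h1]
      exact hg0n _
    have h4 : ∀ i, N i → b.repr (s m - v) i = 0 := by
      intro i hi
      have h5 := hb _ h3 i hi
      have h6 := hc.nn _ (hΔ m hm) i
      omega
    refine ⟨h4, ?_⟩
    rw [← ha _ (hc.nn _ (hΔ m hm)) h4, ← h2, h1]
  have hv := hcc v hc.vm (fun i _ => by rw [sub_self]; simp)
  rw [sub_self] at hv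
  have hbi : ∀ i, ¬ N i → (∀ j, N j → b.repr (s (b i)) j = 0) ∧
      g0 (Multiplicative.ofAdd (s (b i))) = g0 (Multiplicative.ofAdd (b i)) := by
    intro i hi
    have h1 := hcc (v + b i) (hc.nb i) (fun j hj => by
      rw [add_sub_cancel_left, b.repr_self, Finsupp.single_eq_of_ne (fun h => hi (by rw [← h]; exact hj))])
    rw [add_sub_cancel_left] at h1
    have h2 : s (v + b i) - v = (s v - v) + s (b i) := by rw [map_add]; abel
    rw [h2] at h1
    refine ⟨fun j hj => ?_, ?_⟩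
    · have h3 := h1.1 j hj
      rw [map_add, Finsupp.add_apply, hv.1 j hj, zero_add] at h3
      exact h3
    · have h3 := h1.2
      rw [ofAdd_add, map_mul, hv.2, ofAdd_zero, map_one, one_mul] at h3
      exact h3
  have hbj : ∀ i j, N j → 0 ≤ b.repr (s (b i)) j := by
    intro i j hj
    have h1 := hc.nn _ (hΔ _ (hc.nb i)) j
    have h2 : s (v + b i) - v = (s v - v) + s (b i) := by rw [map_add]; abel
    rw [h2, map_add, Finsupp.add_apply, hv.1 j hj, zero_add] at h1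
    exact h1
  have hsz : ∀ z j, b.repr (s z) j = ∑ i, b.repr z i * b.repr (s (b i)) j := by
    intro z j
    conv_lhs => rw [← b.sum_repr z]
    rw [map_sum, map_sum, Finsupp.coe_finset_sum, Finset.sum_apply]
    refine Finset.sum_congr rfl fun i _ => ?_
    rw [map_smul, map_smul, Finsupp.smul_apply, smul_eq_mul]
  have hLI : ∀ z, (∀ i, N i → b.repr z i = 0) → ∀ i, N i → b.repr (s z) i = 0 := by
    intro z hz j hj
    rw [hsz]
    refine Finset.sum_eq_zero fun i _ => ?_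
    by_cases hi : N i
    · rw [hz i hi, zero_mul]
    · rw [(hbi i hi).1 j hj, mul_zero]
  have hNN : ∀ z, (∀ i, N i → 0 ≤ b.repr z i) → ∀ i, N i → 0 ≤ b.repr (s z) i := by
    intro z hz j hj
    rw [hsz]
    refine Finset.sum_nonneg fun i _ => ?_
    by_cases hi : N i
    · exact mul_nonneg (hz i hi) (hbj i j hj)
    · rw [(hbi i hi).1 j hj, mul_zero]
  have hLIg : ∀ z, (∀ i, N i → b.repr z i = 0) →
      g0 (Multiplicative.ofAdd (s z)) = g0 (Multiplicative.ofAdd z) := by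
    intro z hz
    have h1 := hom_prod (b := b) (g0.comp (AddMonoidHom.toMultiplicative s.toAddMonoidHom)) z
    have h2 := hom_prod (b := b) g0 z
    have h3 : ∀ x, (g0.comp (AddMonoidHom.toMultiplicative s.toAddMonoidHom))
        (Multiplicative.ofAdd x) = g0 (Multiplicative.ofAdd (s x)) := fun x => rfl
    rw [h3] at h1
    rw [h1, h2]
    refine Finset.prod_congr rfl fun i _ => ?_
    rw [h3]
    by_cases hi : N i
    · rw [hz i hi, zpow_zero, zpow_zero]
    · rw [(hbi i hi).2]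
  -- the powers
  have hLIk : ∀ k : ℕ, ∀ z, (∀ i, N i → b.repr z i = 0) → (∀ i, N i → b.repr ((s ^ k) z) i = 0) ∧
      g0 (Multiplicative.ofAdd ((s ^ k) z)) = g0 (Multiplicative.ofAdd z) := by
    intro k
    induction k with
    | zero => exact fun z hz => ⟨hz, rfl⟩
    | succ k ih =>
      intro z hz
      rw [pow_succ', Module.End.mul_apply]
      obtain ⟨h1, h2⟩ := ih z hz
      exact ⟨hLI _ h1, by rw [hLIg _ h1, h2]⟩
  have hNNk : ∀ k : ℕ, ∀ z, (∀ i, N i → 0 ≤ b.repr z i) → ∀ i, N i → 0 ≤ b.repr ((s ^ k) z) i := by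
    intro k
    induction k with
    | zero => exact fun z hz => hz
    | succ k ih =>
      intro z hz
      rw [pow_succ', Module.End.mul_apply]
      exact hNN _ (ih z hz)
  -- the functional
  obtain ⟨ℓ, hℓ⟩ : ∃ ℓ : Λ →+ ℤ, ∀ x, ℓ x = cl b N (Nm p s x) :=
    ⟨(cl b N).comp (Nm p s).toAddMonoidHom, fun x => rfl⟩
  have hℓs : ∀ x, ℓ (s x) = ℓ x := fun x => by rw [hℓ, hℓ, Nm_s hs]
  have hℓ2 : ∀ x, ℓ x = ∑ k ∈ Finset.range p, cl b N ((s ^ k) x) := by
    intro x
    rw [hℓ]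
    unfold Nm
    rw [LinearMap.sum_apply, map_sum]
  have hl : ∀ y, (∀ i, 0 ≤ b.repr y i) → 0 ≤ ℓ y ∧ (ℓ y = 0 ↔ ∀ i, N i → b.repr y i = 0) := by
    intro y hy
    have h1 : ∀ k ∈ Finset.range p, 0 ≤ cl b N ((s ^ k) y) := fun k _ =>
      (cl_nn N (hNNk k y fun i _ => hy i)).1
    refine ⟨by rw [hℓ2]; exact Finset.sum_nonneg h1, ?_⟩
    rw [hℓ2, Finset.sum_eq_zero_iff_of_nonneg h1]
    constructor
    · intro h2
      have h3 := h2 0 (Finset.mem_range.2 hp.out.pos)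
      rw [pow_zero, Module.End.one_apply] at h3
      exact (cl_nn N fun i _ => hy i).2.1 h3
    · intro h2 k _
      exact (cl_nn N (hNNk k y fun i _ => hy i)).2.2 (hLIk k y h2).1
  -- the point of the torus
  obtain ⟨τ, hτ⟩ : ∃ τ, τ = frobenius κ p := ⟨_, rfl⟩
  obtain ⟨g, hg'⟩ : ∃ g : Multiplicative Λ →* κ, ∀ x, g (Multiplicative.ofAdd x) =
      g0 (Multiplicative.ofAdd (Nm p s x)) :=
    ⟨g0.comp (AddMonoidHom.toMultiplicative (Nm p s).toAddMonoidHom), fun x => rfl⟩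
  have hg : ∀ i, ¬ N i → g (Multiplicative.ofAdd (b i)) = τ (e (X i)) := by
    intro i hi
    rw [hg', hτ, frobenius_def]
    unfold Nm
    rw [LinearMap.sum_apply, ofAdd_sum, map_prod]
    have h1 : ∀ k ∈ Finset.range p, g0 (Multiplicative.ofAdd ((s ^ k) (b i))) = e (X i) := by
      intro k _
      rw [(hLIk k (b i) fun j hj => ?_).2, hg0, zc_b, hy, if_neg hi]
      rw [b.repr_self, Finsupp.single_eq_of_ne (fun h => hi (by rw [← h]; exact hj))]
    rw [Finset.prod_congr rfl h1, Finset.prod_const, Finset.card_range]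
  obtain ⟨ψ, hψ⟩ : ∃ ψ, ψ = evg ((τ.comp e).comp C) g := ⟨_, rfl⟩
  have hQ : (RingHom.ker ψ).IsPrime := RingHom.ker_isPrime ψ
  obtain ⟨w, hw1, hw2⟩ := hW ℓ hℓs (RingHom.ker ψ) hQ (fun o ho => by
    rw [RingHom.mem_ker, hψ, evg_C]
    change τ (e (C o)) = 0
    rw [h𝔓 o ho, map_zero]) (fun x => by
    rw [RingHom.mem_ker, hψ, map_sub, evg_cx, evg_cx, hg', hg', Nm_s hs, sub_self]) (fun r => by
    rw [RingHom.mem_ker, hψ]
    exact pt_z hN' hg hu hl hF r)
  refine ⟨w, hw1, ?_⟩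
  rw [hψ] at hw2
  exact pt_det hN' hg hu hl hF w hw2

end wpt

end Pool.Agent.T9h3.H
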