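import Pool.Agent.T9h3.H.Chg
import Pool.Agent.T9h3.Wrg

/-!
# The graded algebras of the weighted blowup, for abstract vertices
-/

set_option autoImplicit false
set_option linter.unusedSectionVars false

namespace Pool.Agent.T9h3.H

open MvPolynomial IsLocalRing Algebra Pool.Agent.Y223.G Pool.Agent.R383.TM Pool.Agent.T9h3
open Pool.Agent.Y86.G5 (im mem_im im_sub im_mul im_prime im_one im_pow up mem_up up_prime)

section

variable {O K Λ : Type} [CommRing O] [Field K] [Algebra O K] [AddCommGroup Λ] {χ : Λ → K}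
  {Δ : Set Λ} {v : Λ} {w : K}

lemma cover_P (P : Λ → Prop) (hP : ∀ v, P v → v ∈ Δ) (h0 : χ 0 = 1) (ha : ∀ x y, χ (x + y) = χ x * χ y) (hV : CVP P Δ) (hw : w ≠ 0)
    (hwW : w ∈ Submodule.span ℤ (χ '' Δ)) (R : Subalgebra O (LP K))
    (hR : ∀ u ∈ Submodule.span ℤ (χ '' Δ), hm 0 (u / w) ∈ R) (𝔔 : Ideal R) (h𝔔 : 𝔔.IsPrime) :
    ∃ v, P v ∧ hm 0 (χ v / w) ∉ im R 𝔔 := by
  classical
  have hvm : ∀ v, P v → v ∈ Δ := hP
  have hRc : ∀ m ∈ Δ, hm 0 (χ m / w) ∈ R := fun m hmΔ =>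
    hR _ (Submodule.subset_span ⟨m, hmΔ, rfl⟩)
  obtain ⟨m, hmΔ, h1⟩ : ∃ m ∈ Δ, hm 0 (χ m / w) ∉ im R 𝔔 := by
    by_contra hcon
    push Not at hcon
    have key : ∀ u ∈ Submodule.span ℤ (χ '' Δ), hm 0 (u / w) ∈ im R 𝔔 := by
      intro u hu
      induction hu using Submodule.span_induction with
      | mem x hx =>
        obtain ⟨m, hmΔ, rfl⟩ := hx
        exact hcon m hmΔ
      | zero => rw [zero_div, hm_zero]; exact (im _ 𝔔).zero_mem
      | add x y _ _ hx hy => rw [add_div, hm_add]; exact (im _ 𝔔).add_mem hx hy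
      | smul c x _ hx =>
        have h1 : (hm 0 (c • x / w) : LP K) = hm 0 (c : K) * hm 0 (x / w) := by
          rw [zsmul_eq_mul, mul_div_assoc, hm_mul, zero_add]
        rw [h1]
        refine im_mul ?_ hx
        have h2 := R.algebraMap_mem (c : O)
        rwa [algebraMap_LP, map_intCast] at h2
    have h1 := key w hwW
    rw [div_self hw, hm_one] at h1
    exact im_one h𝔔 h1
  obtain ⟨T, hT0, hT, h2⟩ := hV m hmΔ
  obtain ⟨v, hv⟩ := Multiset.exists_mem_of_ne_zero hT0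
  obtain ⟨T', rfl⟩ := Multiset.exists_cons_of_mem hv
  refine ⟨v, hT v hv, fun h3 => ?_⟩
  refine im_pow h𝔔 (hRc m hmΔ) h1 (Multiset.card (v ::ₘ T')) ?_
  have hsum : ∀ T : Multiset Λ, (hm 0 (χ T.sum / w ^ T.card) : LP K) =
      (T.map fun v => (hm 0 (χ v / w) : LP K)).prod := by
    intro T
    induction T using Multiset.induction_on with
    | empty => simp [h0, hm_one]
    | cons v T ih =>
      rw [Multiset.sum_cons, Multiset.map_cons, Multiset.prod_cons, ← ih, hm_mul, ha,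
        Multiset.card_cons, zero_add]
      congr 1
      rw [pow_succ]
      field_simp
  have h4 : (hm 0 (χ m / w) ^ (Multiset.card (v ::ₘ T')) : LP K) =
      (T'.map fun v => (hm 0 (χ v / w) : LP K)).prod * hm 0 (χ v / w) := by
    rw [mul_comm, ← Multiset.prod_cons, ← Multiset.map_cons (fun v => (hm 0 (χ v / w) : LP K)),
      ← hsum, hm_pow, mul_zero, div_pow, ← chi_nsmul h0 ha, h2]
  rw [h4]
  refine im_mul (Subalgebra.multiset_prod_mem _ fun x hx => ?_) h3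
  rw [Multiset.mem_map] at hx
  obtain ⟨v', hv', rfl⟩ := hx
  exact hRc _ (hvm _ (hT _ (Multiset.mem_cons_of_mem hv')))

end

section reg

variable {O K Λ : Type} [CommRing O] [IsDomain O] [IsDedekindDomain O] [Field K] [Algebra O K]
  [AddCommGroup Λ] {χ : Λ → K} {Δ : Set Λ} {v : Λ} {w : K}

/-- **The charts are regular.** -/
theorem CG0_regP (h0 : χ 0 = 1) (ha : ∀ x y, χ (x + y) = χ x * χ y)
    (hfin : Δ.Finite)
    (hV : CVP (fun v => v ∈ Δ ∧ IsRegularRing (CG0 O χ Δ (χ v))) Δ) (hw : w ≠ 0)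
    (hwW : w ∈ Submodule.span ℤ (χ '' Δ)) : IsRegularRing (CG0 O χ Δ w) := by
  have hft : Algebra.FiniteType O (CG0 O χ Δ w) := by
    rw [← Subalgebra.fg_iff_finiteType]
    have h1 : {y | ∃ m ∈ Δ, y = χ m / w}.Finite := by
      refine (hfin.image fun m => χ m / w).subset ?_
      rintro _ ⟨m, hmΔ, rfl⟩
      exact ⟨m, hmΔ, rfl⟩
    exact ⟨h1.toFinset, by rw [Set.Finite.coe_toFinset]; rfl⟩
  obtain ⟨R, hR⟩ : ∃ R : K → Subalgebra O (LP K), R = fun w => (CG0 O χ Δ w).map (i0 O K) :=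
    ⟨_, rfl⟩
  have memR : ∀ w x, hm 0 x ∈ R w ↔ x ∈ CG0 O χ Δ w := by
    intro w x
    rw [hR]
    constructor
    · rintro ⟨y, hy, hyx⟩
      have : y = x := i0_inj (O := O) hyx
      rw [← this]
      exact hy
    · intro hx
      exact ⟨x, hx, rfl⟩
  have eR : ∀ w, Nonempty (CG0 O χ Δ w ≃+* R w) := by
    intro w
    rw [hR]
    exact ⟨(Subalgebra.equivMapOfInjective _ _ i0_inj).toRingEquiv⟩
  have hle : ∀ w w' : K, w ≠ 0 → w' ≠ 0 → ∀ ht : hm 0 (w / w') ∈ R w',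
      R w ≤ loc (R w') (hm 0 (w / w')) ht := by
    intro w w' hw hw' ht
    have h1 : CG0 O χ Δ w ≤ (loc (R w') (hm 0 (w / w')) ht).comap (i0 O K) := by
      unfold CG0
      rw [Algebra.adjoin_le_iff]
      rintro _ ⟨m, hmΔ, rfl⟩
      change hm 0 (χ m / w) ∈ loc (R w') (hm 0 (w / w')) ht
      refine ⟨1, ?_⟩
      rw [pow_one, hm_mul, zero_add]
      have e1 : w / w' * (χ m / w) = χ m / w' := by field_simp
      rw [e1, memR]
      exact Algebra.subset_adjoin ⟨m, hmΔ, rfl⟩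
    intro f hf
    have hf' : f ∈ (CG0 O χ Δ w).map (i0 O K) := by
      have h2 := congrFun hR w
      rw [h2] at hf
      exact hf
    obtain ⟨y, hy, rfl⟩ := hf'
    exact h1 hy
  have hRw : IsRegularRing (R w) := by
    obtain ⟨e⟩ := eR w
    have hN : IsNoetherianRing (R w) := by
      have h1 : IsNoetherianRing (CG0 O χ Δ w) := Algebra.FiniteType.isNoetherianRing O _
      exact isNoetherianRing_of_ringEquiv _ e
    rw [isRegularRing_iff]
    intro Q hQ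
    obtain ⟨v, hv, h1⟩ := cover_P (fun v => v ∈ Δ ∧ IsRegularRing (CG0 O χ Δ (χ v)))
      (fun v hv => hv.1) h0 ha hV hw hwW (R w)
      (fun u hu => (memR _ _).2 (CG0_mem hu)) Q hQ
    have hv0 := chi_ne h0 ha v
    have ht : hm 0 (χ v / w) ∈ R w := (memR _ _).2 (Algebra.subset_adjoin ⟨v, hv.1, rfl⟩)
    have hreg : IsRegularRing (R (χ v)) := by
      obtain ⟨e'⟩ := eR (χ v)
      have h2 := hv.2
      exact IsRegularRing.of_ringEquiv e'
    have hv' : hm 0 (w / χ v) ∈ R (χ v) := (memR _ _).2 (CG0_mem hwW)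
    have hv'' : hm 0 (1 * (w / χ v)) ∈ R (χ v) := by rwa [one_mul]
    have h1' : hm 0 ((1 : K)⁻¹) ∈ R w := by
      rw [inv_one, hm_one]; exact Subalgebra.one_mem _
    refine Pool.Agent.Y290.G.regular_atPrime ht (isUnit_hm (div_ne_zero hv0 hw)) ?_ Q
      (fun h => h1 ⟨_, h⟩)
    rw [Pool.Agent.R383.TM.loc_eq' ht hv' hv'' h1' one_ne_zero (by field_simp)
      (hle _ _ hv0 hw ht) (by
        have h2 := hle _ _ hw hv0 hv'
        intro x hx
        obtain ⟨n, hn⟩ := h2 hx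
        exact ⟨n, by rw [one_mul]; exact hn⟩)]
    exact regular_loc hreg hv'' (isUnit_hm (by rw [one_mul]; exact div_ne_zero hw hv0))
  obtain ⟨e⟩ := eR w
  exact IsRegularRing.of_ringEquiv e.symm

end reg

section wr

variable {O K Λ : Type} [CommRing O] [IsDomain O] [IsDedekindDomain O] [Field K]
  [Algebra O K] [AddCommGroup Λ] {χ : Λ → K}
  {p : ℕ} {σ : K →+* K} {t : O →+* O}
  {s : Module.End ℤ Λ} {𝔓 : Ideal O} {l : ℕ} {Δ : Set Λ} {m : ℕ} {z : Fin (m + 1) → K}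
  {W κ : Fin (m + 1) → ℕ}

/-- **Regularity.** -/
theorem ZWreg (Z : ZW χ σ p s l Δ z W κ) (h : TD0 O K Λ p σ t s χ 𝔓 l) (hΔ : ∀ m ∈ Δ, s m ∈ Δ)
    (hfin : Δ.Finite) (hV : CVP (VF χ σ p t s 𝔓 l Δ) Δ) (j : Fin (m + 1)) : IsRegularRing (BR 𝔓 1 W z j) := by
  rw [BR_eq (k := O), Z.wr]
  exact GG_regH h hΔ hfin hV (Z.z0 j) (Z.w0 h.sp h.σχ hΔ j)

/-- **The operator `σ - 1`.** -/
theorem ZWd (Z : ZW χ σ p s l Δ z W κ) (h : TD0 O K Λ p σ t s χ 𝔓 l) (hΔ : ∀ m ∈ Δ, s m ∈ Δ)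
    (hV : CVP (VF χ σ p t s 𝔓 l Δ) Δ) (i j : Fin (m + 1)) :
    mo ((σ (z i) - z i) / z j) ((W i : ℤ) + l) ∈ BR 𝔓 1 W z j := by
  rw [Z.mem_BR]
  have h1 := GG_dH h hΔ hV (Z.z0 j) (Z.w0 h.sp h.σχ hΔ j) (Z.kp i) (Z.zw i)
  have h2 : (((κ i + 1) * l : ℕ) : ℤ) = (W i : ℤ) + l := by rw [Z.eq]; push_cast; ring
  rwa [h2] at h1

/-- **No zeros.** -/
theorem ZWnf (Z : ZW χ σ p s l Δ z W κ) (h : TD0 O K Λ p σ t s χ 𝔓 l) (hΔ : ∀ m ∈ Δ, s m ∈ Δ)
    (hV : CVP (VF χ σ p t s 𝔓 l Δ) Δ) (j : Fin (m + 1)) : NF (BR 𝔓 1 W z j) 𝔓 1 l W z σ j := by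
  rw [BR_eq (k := O), Z.wr]
  intro x hx
  rw [Ideal.radical_eq_sInf, Submodule.mem_sInf]
  rintro 𝔔 ⟨hle, h𝔔⟩
  obtain ⟨n, hn, a, hxa⟩ := hx
  obtain ⟨J, hJ⟩ : ∃ J : Ideal (GG χ σ p s 𝔓 l Δ (z j)), J = 𝔔 := ⟨𝔔, rfl⟩
  have hJp : J.IsPrime := by rw [hJ]; exact h𝔔
  have gen : ∀ (n : ℤ) (y : K), hm n y ∈ GG χ σ p s 𝔓 l Δ (z j) →
      (∀ (hy : hm n y ∈ (GG χ σ p s 𝔓 l Δ (z j)).toSubring),
        (⟨hm n y, hy⟩ : (GG χ σ p s 𝔓 l Δ (z j)).toSubring) ∈
          FB (GG χ σ p s 𝔓 l Δ (z j)).toSubring 𝔓 1 l W z σ j) →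
      hm n y ∈ im (GG χ σ p s 𝔓 l Δ (z j)) J := by
    intro n y hy h1
    refine ⟨hy, ?_⟩
    rw [hJ]
    exact hle (h1 hy)
  have hw0 := Z.w0 h.sp h.σχ hΔ j
  have low : ∀ {d e : ℤ} {y : K}, hm d y ∈ im (GG χ σ p s 𝔓 l Δ (z j)) J → e ≤ d →
      hm e y ∈ im (GG χ σ p s 𝔓 l Δ (z j)) J := by
    intro d e y hy he
    have h1 := im_mul (Subalgebra.pow_mem _ (GG_s (χ := χ) (σ := σ) (p := p) (s := s) (𝔓 := 𝔓)
      (l := l) (Δ := Δ) (w := z j)) (d - e).toNat) hy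
    rw [hm_pow, one_pow, hm_mul, one_mul] at h1
    have h2 : ((d - e).toNat : ℤ) * -1 + d = e := by
      rw [Int.toNat_of_nonneg (by omega)]
      ring
    rwa [h2] at h1
  have hPn : ∀ n : ℕ, ∀ e ∈ 𝔓 ^ n, hm n (algebraMap O K e) ∈ GG χ σ p s 𝔓 l Δ (z j) := by
    intro n
    induction n with
    | zero => intro e _; exact GG_O e
    | succ n ih =>
      intro e he
      rw [pow_succ] at he
      refine Submodule.mul_induction_on he (fun x hx y hy => ?_) (fun x y hx hy => ?_)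
      · have h3 := Subalgebra.mul_mem _ (ih x hx) (GG_P (χ := χ) (σ := σ) (p := p) (s := s)
          (l := l) (Δ := Δ) (w := z j) hy)
        rw [hm_mul, ← map_mul] at h3
        exact_mod_cast h3
      · rw [map_add, hm_add]
        exact Subalgebra.add_mem _ hx hy
  have hgm : hm n a ∈ GG χ σ p s 𝔓 l Δ (z j) := by
    rw [← mo_eq, ← hxa]
    exact x.2
  have key := GG_ndH h hΔ hV (Z.z0 j) hw0 J hJp (fun a ha => ?_) (fun a ha => ?_)
    (fun k hk u hu u' hu' => ?_) (show (0 : ℤ) < n by exact_mod_cast hn) hgm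
  · obtain ⟨h1, h2⟩ := key
    rw [hJ] at h2
    have h3 : x = ⟨hm n a, h1⟩ := by
      apply Subtype.ext
      rw [hxa, mo_eq]
    rw [h3]
    exact h2
  · refine gen 0 _ (GG_O a) fun hy => Ideal.subset_span (Or.inl ⟨a, ha, ?_⟩)
    rw [mo_eq]
  · refine gen _ _ ?_ fun hy => Ideal.subset_span (Or.inr (Or.inl ⟨a, ha, ?_⟩))
    · rw [add_comm 1 l]
      exact hPn (l + 1) _ (h.dv a)
    · rw [mo_eq, h.σO, ← map_sub]
      push_cast
      rfl
  · -- the minors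
    have hu1 := Z.sp k hk hu
    have hu2 := Z.sp 0 (Nat.zero_le _) hu'
    clear hu hu'
    have hzz : ∀ i i' : Fin (m + 1), hm ((W i : ℤ) + W i' + l)
        ((z i * σ (z i') - z i' * σ (z i)) / z j ^ 2) ∈ im (GG χ σ p s 𝔓 l Δ (z j)) J := by
      intro i i'
      refine gen _ _ ?_ fun hy => Ideal.subset_span (Or.inr (Or.inr ⟨i, i', ?_⟩))
      · have g1 := GG_W (χ := χ) (σ := σ) (p := p) (s := s) (𝔓 := 𝔓) (l := l) (Δ := Δ)
          (w := z j) (Z.kp i) (Z.zw i)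
        have g2 := GG_W (χ := χ) (σ := σ) (p := p) (s := s) (𝔓 := 𝔓) (l := l) (Δ := Δ)
          (w := z j) (Z.kp i') (Z.zw i')
        have g3 := GG_dH h hΔ hV (Z.z0 j) hw0 (Z.kp i) (Z.zw i)
        have g4 := GG_dH h hΔ hV (Z.z0 j) hw0 (Z.kp i') (Z.zw i')
        have g5 := Subalgebra.sub_mem _ (Subalgebra.mul_mem _ g1 g4) (Subalgebra.mul_mem _ g2 g3)
        rw [hm_mul, hm_mul] at g5
        have e1 : (((κ i * l : ℕ) : ℤ) + (((κ i' + 1) * l : ℕ) : ℤ)) = (W i : ℤ) + W i' + l := by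
          rw [Z.eq, Z.eq]; push_cast; ring
        have e2 : (((κ i' * l : ℕ) : ℤ) + (((κ i + 1) * l : ℕ) : ℤ)) = (W i : ℤ) + W i' + l := by
          rw [Z.eq, Z.eq]; push_cast; ring
        rw [e1, e2, ← hm_sub] at g5
        have e3 : z i / z j * ((σ (z i') - z i') / z j) - z i' / z j * ((σ (z i) - z i) / z j) =
            (z i * σ (z i') - z i' * σ (z i)) / z j ^ 2 := by
          have := Z.z0 j
          field_simp
          ring
        rwa [e3] at g5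
      · rw [mo_eq]
    have hint : ∀ (c : ℤ) {n : ℤ} {y : K}, hm n y ∈ im (GG χ σ p s 𝔓 l Δ (z j)) J →
        hm n ((c : K) * y) ∈ im (GG χ σ p s 𝔓 l Δ (z j)) J := by
      intro c n y hy
      have h2 := GG_O (χ := χ) (σ := σ) (p := p) (s := s) (𝔓 := 𝔓) (l := l) (Δ := Δ)
        (w := z j) (c : O)
      rw [map_intCast] at h2
      have h3 := im_mul h2 hy
      rwa [hm_mul, zero_add] at h3
    -- first variable
    have step : ∀ i : Fin (m + 1), k ≤ κ i → ∀ u' ∈ Submodule.span ℤ {y | ∃ i, 0 ≤ κ i ∧ y = z i},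
        hm ((k + 1) * l : ℕ) ((z i * σ u' - u' * σ (z i)) / z j ^ 2) ∈
          im (GG χ σ p s 𝔓 l Δ (z j)) J := by
      intro i hi u' hu'
      induction hu' using Submodule.span_induction with
      | mem x hx =>
        obtain ⟨i', -, rfl⟩ := hx
        refine low (hzz i i') ?_
        rw [Z.eq]
        have h1 : k * l ≤ κ i * l := Nat.mul_le_mul_right _ hi
        have h2 : ((k * l : ℕ) : ℤ) ≤ ((κ i * l : ℕ) : ℤ) := by exact_mod_cast h1
        have h3 : (0 : ℤ) ≤ (W i' : ℤ) := by positivity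
        have h4 : (((k + 1) * l : ℕ) : ℤ) = ((k * l : ℕ) : ℤ) + l := by push_cast; ring
        rw [h4]
        linarith
      | zero =>
        rw [map_zero, mul_zero, zero_mul, sub_zero, zero_div, hm_zero]
        exact (im _ J).zero_mem
      | add x y _ _ hx hy =>
        have e1 : (z i * σ (x + y) - (x + y) * σ (z i)) / z j ^ 2 =
            (z i * σ x - x * σ (z i)) / z j ^ 2 + (z i * σ y - y * σ (z i)) / z j ^ 2 := by
          rw [map_add]; ring
        rw [e1, hm_add]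
        exact (im _ J).add_mem hx hy
      | smul c x _ hx =>
        have e1 : (z i * σ (c • x) - (c • x) * σ (z i)) / z j ^ 2 =
            (c : K) * ((z i * σ x - x * σ (z i)) / z j ^ 2) := by
          rw [zsmul_eq_mul, map_mul, map_intCast]; ring
        rw [e1]
        exact hint c hx
    induction hu1 using Submodule.span_induction with
    | mem x hx =>
      obtain ⟨i, hi, rfl⟩ := hx
      exact step i hi u' hu2
    | zero =>
      rw [map_zero, mul_zero, zero_mul, sub_zero, zero_div, hm_zero]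
      exact (im _ J).zero_mem
    | add x y _ _ hx hy =>
      have e1 : ((x + y) * σ u' - u' * σ (x + y)) / z j ^ 2 =
          (x * σ u' - u' * σ x) / z j ^ 2 + (y * σ u' - u' * σ y) / z j ^ 2 := by
        rw [map_add]; ring
      rw [e1, hm_add]
      exact (im _ J).add_mem hx hy
    | smul c x _ hx =>
      have e1 : ((c • x) * σ u' - u' * σ (c • x)) / z j ^ 2 =
          (c : K) * ((x * σ u' - u' * σ x) / z j ^ 2) := by
        rw [zsmul_eq_mul, map_mul, map_intCast]; ring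
      rw [e1]
      exact hint c hx

end wr

end Pool.Agent.T9h3.H
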